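import Mathlib

/-!
# Affine spaces with directions: translations
-/

namespace Pool.Agent.MP84111f

/-- affine space `A` with a set `H` of directions; `ln` gives the lines of `H` -/
structure Aff (A H : Type) where
  dir : A → A → H
  ln : H → H → Set H
  symm : ∀ x y, x ≠ y → dir x y = dir y x
  trans : ∀ x y z, x ≠ y → y ≠ z → x ≠ z → dir x y = dir y z → dir x z = dir x y
  tri : ∀ x y z, x ≠ y → y ≠ z → x ≠ z → dir x y ≠ dir y z → dir x z ∈ ln (dir x y) (dir y z)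
  third : ∀ x y u v, x ≠ y → u ≠ v → dir x y ∈ ln u v → dir x y ≠ u → dir x y ≠ v →
    ∃ z, z ≠ x ∧ z ≠ y ∧ dir x z = u ∧ dir y z = v
  on : ∀ x u, ∃ y, y ≠ x ∧ dir x y = u
  off : ∀ u v, ∃ r, r ≠ u ∧ r ≠ v ∧ (u ≠ v → r ∉ ln u v)
  ln_left : ∀ u v, u ≠ v → u ∈ ln u v
  ln_right : ∀ u v, u ≠ v → v ∈ ln u v
  ln_eq : ∀ u v w w', u ≠ v → w ≠ w' → w ∈ ln u v → w' ∈ ln u v → ln w w' = ln u v

namespace Aff

variable {A H : Type} (G : Aff A H)

theorem two_lines {a b c e w w' : H} (hab : a ≠ b) (hce : c ≠ e) (hw : w ≠ w')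
    (h1 : w ∈ G.ln a b) (h2 : w' ∈ G.ln a b) (h3 : w ∈ G.ln c e) (h4 : w' ∈ G.ln c e) :
    G.ln a b = G.ln c e := by
  rw [← G.ln_eq a b w w' hab hw h1 h2, ← G.ln_eq c e w w' hce hw h3 h4]

theorem ln_comm {u v : H} (h : u ≠ v) : G.ln v u = G.ln u v :=
  G.ln_eq u v v u h h.symm (G.ln_right u v h) (G.ln_left u v h)

theorem tri_ne_left {x y z : A} (h1 : x ≠ y) (h2 : y ≠ z) (h3 : x ≠ z)
    (h : G.dir x y ≠ G.dir y z) : G.dir x z ≠ G.dir x y := by
  intro h4
  apply h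
  have h5 : G.dir z x = G.dir x y := by rw [G.symm z x h3.symm, h4]
  have h6 := G.trans z x y h3.symm h1 h2.symm h5
  rw [G.symm y z h2, h6, h5]

theorem tri_ne_right {x y z : A} (h1 : x ≠ y) (h2 : y ≠ z) (h3 : x ≠ z)
    (h : G.dir x y ≠ G.dir y z) : G.dir x z ≠ G.dir y z := by
  intro h4
  apply h
  have h5 : G.dir x z = G.dir z y := by rw [G.symm z y h2.symm, h4]
  have h6 := G.trans x z y h3 h2.symm h1 h5
  rw [h6, h4]

/-- triangle at `x`: the third direction lies on the line of the two others -/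
theorem tri' {x y z : A} (h1 : x ≠ y) (h2 : y ≠ z) (h3 : x ≠ z)
    (h : G.dir x y ≠ G.dir x z) : G.dir y z ∈ G.ln (G.dir x y) (G.dir x z) ∧
      G.dir y z ≠ G.dir x y ∧ G.dir y z ≠ G.dir x z := by
  have h' : G.dir y x ≠ G.dir x z := by rwa [G.symm y x h1.symm]
  have e := G.tri y x z h1.symm h3 h2 h'
  have e1 := G.tri_ne_left h1.symm h3 h2 h'
  have e2 := G.tri_ne_right h1.symm h3 h2 h'
  rw [G.symm y x h1.symm] at e e1
  exact ⟨e, e1, e2⟩

/-- equal or in direction `s` -/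
def L (s : H) (p q : A) : Prop := p = q ∨ G.dir p q = s

theorem L_refl (s : H) (p : A) : G.L s p p := Or.inl rfl

theorem L_symm {s : H} {p q : A} (h : G.L s p q) : G.L s q p := by
  by_cases hpq : q = p
  · exact Or.inl hpq
  · rcases h with h | h
    · exact Or.inl h.symm
    · exact Or.inr (by rw [G.symm q p hpq, h])

theorem L_trans {s : H} {p q r : A} (h : G.L s p q) (h' : G.L s q r) : G.L s p r := by
  by_cases hpr : p = r
  · exact Or.inl hpr
  rcases h with rfl | h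
  · exact h'
  rcases h' with rfl | h'
  · exact Or.inr h
  by_cases hpq : p = q
  · subst hpq; exact Or.inr h'
  by_cases hqr : q = r
  · subst hqr; exact Or.inr h
  right
  rw [G.trans p q r hpq hqr hpr (by rw [h, h']), h]

theorem L_dir {s : H} {p q : A} (hpq : p ≠ q) (h : G.L s p q) : G.dir p q = s :=
  h.resolve_left hpq

/-- nondegenerate parallelogram -/
structure Par (a a' x x' : A) : Prop where
  h1 : a ≠ a'
  h2 : a ≠ x
  h3 : x ≠ x'
  h4 : a' ≠ x'
  h5 : G.dir a a' = G.dir x x'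
  h6 : G.dir a x = G.dir a' x'
  h7 : G.dir a a' ≠ G.dir a x

theorem Par.swap {a a' x x' : A} (h : G.Par a a' x x') : G.Par x x' a a' := by
  refine ⟨h.h3, h.h2.symm, h.h1, h.h4.symm, h.h5.symm, ?_, ?_⟩
  · rw [G.symm x a h.h2.symm, h.h6, G.symm a' x' h.h4]
  · rw [← h.h5, G.symm x a h.h2.symm]; exact h.h7

theorem Par.flip {a a' x x' : A} (h : G.Par a a' x x') : G.Par a' a x' x := by
  refine ⟨h.h1.symm, h.h4, h.h3.symm, h.h2, ?_, h.h6.symm, ?_⟩
  · rw [G.symm a' a h.h1.symm, h.h5, G.symm x x' h.h3]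
  · rw [G.symm a' a h.h1.symm, ← h.h6]; exact h.h7

theorem par_exists {a a' x : A} (h1 : a ≠ a') (h2 : a ≠ x) (h7 : G.dir a a' ≠ G.dir a x) :
    ∃ x', G.Par a a' x x' := by
  have hxa' : x ≠ a' := by rintro rfl; exact h7 rfl
  obtain ⟨e1, e2, e3⟩ := G.tri' h2 hxa' h1 h7.symm
  have h7' := h7
  rw [← G.ln_comm h7.symm] at e1
  obtain ⟨z, hz1, hz2, hz3, hz4⟩ := G.third x a' (G.dir a a') (G.dir a x) hxa' h7 e1 e3 e2
  exact ⟨z, h1, h2, hz1.symm, hz2.symm, hz3.symm, hz4.symm, h7⟩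

theorem par_unique {a a' x y z : A} (hy : G.Par a a' x y) (hz : G.Par a a' x z) : y = z := by
  by_contra hne
  have h1 : G.dir y x = G.dir x z := by rw [G.symm y x hy.h3.symm, ← hy.h5, hz.h5]
  have h2 := G.trans y x z hy.h3.symm hz.h3 hne h1
  have h3 : G.dir y a' = G.dir a' z := by rw [G.symm y a' hy.h4.symm, ← hy.h6, hz.h6]
  have h4 := G.trans y a' z hy.h4.symm hz.h4 hne h3
  apply hy.h7
  rw [hy.h5, G.symm x y hy.h3, ← h2, h4, G.symm y a' hy.h4.symm, hy.h6]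

/-- the non-coplanar prism lemma -/
theorem prismNC {a a' x x' y y' : A} (hx : G.Par a a' x x') (hy : G.Par a a' y y')
    (hxy : x ≠ y) (hne : G.dir a x ≠ G.dir a y) (hs : G.dir a a' ∉ G.ln (G.dir a x) (G.dir a y)) :
    x' ≠ y' ∧ G.dir x y = G.dir x' y' := by
  have hx'y' : x' ≠ y' := by
    rintro rfl
    exact hne (by rw [hx.h6, hy.h6])
  refine ⟨hx'y', ?_⟩
  obtain ⟨w1, w2, w3⟩ := G.tri' hx.h2 hxy hy.h2 hne
  have hne' : G.dir a' x' ≠ G.dir a' y' := by rw [← hx.h6, ← hy.h6]; exact hne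
  obtain ⟨w1', w2', w3'⟩ := G.tri' hx.h4 hx'y' hy.h4 hne'
  rw [← hx.h6, ← hy.h6] at w1'
  by_contra hww
  have hws : G.dir x y ≠ G.dir y y' := by
    intro h; rw [← hy.h5] at h; exact hs (h ▸ w1)
  have hws' : G.dir x x' ≠ G.dir x' y' := by
    intro h; rw [← hx.h5] at h; exact hs (h ▸ w1')
  have hxy' : x ≠ y' := by
    rintro rfl
    apply hws'
    rw [G.symm x x' hx.h3]
  have z1 := G.tri x y y' hxy hy.h3 hxy' hws
  have z2 := G.tri x x' y' hx.h3 hx'y' hxy' hws'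
  have z3 := G.tri_ne_right hxy hy.h3 hxy' hws
  rw [← hy.h5] at z1 z3 hws
  rw [← hx.h5] at z2 hws'
  have e1 : G.ln (G.dir x y) (G.dir a a') = G.ln (G.dir a a') (G.dir x' y') := by
    apply G.two_lines hws hws' z3 z1 (G.ln_right _ _ hws) z2 (G.ln_left _ _ hws')
  have e2 : G.ln (G.dir x y) (G.dir a a') = G.ln (G.dir a x) (G.dir a y) := by
    apply G.two_lines hws hne hww (G.ln_left _ _ hws) _ w1 w1'
    rw [e1]; exact G.ln_right _ _ hws'
  exact hs (e2 ▸ G.ln_right _ _ hws)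

/-- the prism lemma -/
theorem prism {a a' x x' y y' : A} (hx : G.Par a a' x x') (hy : G.Par a a' y y')
    (hxy : x ≠ y) : x' ≠ y' ∧ G.dir x y = G.dir x' y' := by
  by_cases hne : G.dir a x = G.dir a y
  · have h1 : G.dir x y = G.dir a x := by
      rw [← G.symm x a hx.h2.symm]
      apply G.trans x a y hx.h2.symm hy.h2 hxy
      rw [G.symm x a hx.h2.symm, hne]
    have hx'y' : x' ≠ y' := by
      rintro rfl
      have h2 : G.dir x x' = G.dir x' y := by
        rw [← hx.h5, G.symm x' y hy.h3.symm, ← hy.h5]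
      have h3 := G.trans x x' y hx.h3 hy.h3.symm hxy h2
      rw [h1, ← hx.h5] at h3
      exact hx.h7 h3.symm
    refine ⟨hx'y', ?_⟩
    rw [h1, hx.h6, ← G.symm x' a' hx.h4.symm]
    symm
    apply G.trans x' a' y' hx.h4.symm hy.h4 hx'y'
    rw [G.symm x' a' hx.h4.symm, ← hx.h6, ← hy.h6, hne]
  by_cases hs : G.dir a a' ∈ G.ln (G.dir a x) (G.dir a y)
  swap
  · exact G.prismNC hx hy hxy hne hs
  -- coplanar case
  have hx'y' : x' ≠ y' := by
    rintro rfl
    exact hne (by rw [hx.h6, hy.h6])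
  refine ⟨hx'y', ?_⟩
  obtain ⟨w1, w2, w3⟩ := G.tri' hx.h2 hxy hy.h2 hne
  by_cases hws : G.dir x y = G.dir a a'
  · -- all on one line
    have h1 : G.L (G.dir a a') x' x := G.L_symm (Or.inr hx.h5.symm)
    have h2 : G.L (G.dir a a') x y := Or.inr hws
    have h3 : G.L (G.dir a a') y y' := Or.inr hy.h5.symm
    rw [hws]
    exact (G.L_dir hx'y' (G.L_trans (G.L_trans h1 h2) h3)).symm
  obtain ⟨r, hr1, hr2, hr3⟩ := G.off (G.dir a x) (G.dir a y)
  have hr := hr3 hne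
  obtain ⟨c, hca, hc⟩ := G.on a r
  have hac : a ≠ c := hca.symm
  have hrs : G.dir a a' ≠ G.dir a c := by
    rw [hc]; rintro h; exact hr (h ▸ hs)
  obtain ⟨c', hcc⟩ := G.par_exists hx.h1 hac hrs
  have hxc : x ≠ c := by rintro rfl; exact hr1 hc.symm
  have hyc : y ≠ c := by rintro rfl; exact hr2 hc.symm
  have hsx : G.dir a a' ∉ G.ln (G.dir a x) (G.dir a c) := by
    intro h
    apply hr
    have e := G.two_lines (a := G.dir a x) (b := G.dir a c) (c := G.dir a x) (e := G.dir a y)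
      (by rw [hc]; exact hr1.symm) hne hx.h7 h
      (G.ln_left _ _ (by rw [hc]; exact hr1.symm)) hs (G.ln_left _ _ hne)
    rw [← e, ← hc]
    exact G.ln_right _ _ (by rw [hc]; exact hr1.symm)
  have hsy : G.dir a a' ∉ G.ln (G.dir a y) (G.dir a c) := by
    intro h
    apply hr
    have e := G.two_lines (a := G.dir a y) (b := G.dir a c) (c := G.dir a x) (e := G.dir a y)
      (by rw [hc]; exact hr2.symm) hne hy.h7 h
      (G.ln_left _ _ (by rw [hc]; exact hr2.symm)) hs (G.ln_right _ _ hne)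
    rw [← e, ← hc]
    exact G.ln_right _ _ (by rw [hc]; exact hr2.symm)
  have px := G.prismNC hcc hx hxc.symm (by rw [hc]; exact hr1)
    (by rw [G.ln_comm (by rw [hc]; exact hr1.symm)]; exact hsx)
  have py := G.prismNC hcc hy hyc.symm (by rw [hc]; exact hr2)
    (by rw [G.ln_comm (by rw [hc]; exact hr2.symm)]; exact hsy)
  obtain ⟨tx1, tx2, tx3⟩ := G.tri' hac hxc.symm hx.h2 (by rw [hc]; exact hr1)
  obtain ⟨ty1, ty2, ty3⟩ := G.tri' hac hyc.symm hy.h2 (by rw [hc]; exact hr2)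
  have hcx_ut : G.dir c x ∉ G.ln (G.dir a x) (G.dir a y) := by
    intro h
    apply hr
    have e := G.two_lines (a := G.dir a c) (b := G.dir a x) (c := G.dir a x) (e := G.dir a y)
      (by rw [hc]; exact hr1) hne tx3 tx1 (G.ln_right _ _ (by rw [hc]; exact hr1)) h
      (G.ln_left _ _ hne)
    rw [← e, ← hc]
    exact G.ln_left _ _ (by rw [hc]; exact hr1)
  have Px : G.Par c c' x x' := by
    refine ⟨hcc.h3, hxc.symm, hx.h3, px.1, by rw [← hcc.h5, hx.h5], px.2, ?_⟩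
    rw [← hcc.h5]
    intro h
    exact hcx_ut (h ▸ hs)
  have hcy_ut : G.dir c y ∉ G.ln (G.dir a x) (G.dir a y) := by
    intro h
    apply hr
    have e := G.two_lines (a := G.dir a c) (b := G.dir a y) (c := G.dir a x) (e := G.dir a y)
      (by rw [hc]; exact hr2) hne ty3 ty1 (G.ln_right _ _ (by rw [hc]; exact hr2)) h
      (G.ln_right _ _ hne)
    rw [← e, ← hc]
    exact G.ln_left _ _ (by rw [hc]; exact hr2)
  have Py : G.Par c c' y y' := by
    refine ⟨hcc.h3, hyc.symm, hy.h3, py.1, by rw [← hcc.h5, hy.h5], py.2, ?_⟩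
    rw [← hcc.h5]
    intro h
    exact hcy_ut (h ▸ hs)
  have hcxy : G.dir c x ≠ G.dir c y := by
    intro h
    have e : G.dir x y = G.dir c x := by
      rw [← G.symm x c hxc]
      apply G.trans x c y hxc hyc.symm hxy
      rw [G.symm x c hxc, h]
    exact hcx_ut (e ▸ w1)
  obtain ⟨v1, v2, v3⟩ := G.tri' hxc.symm hxy hyc.symm hcxy
  refine (G.prismNC Px Py hxy hcxy ?_).2
  rw [← hcc.h5]
  intro h
  have e := G.two_lines hcxy hne hws v1 h w1 hs
  exact hcx_ut (e ▸ G.ln_left _ _ hcxy)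

theorem Par.of_prism {a a' c c' x x' : A} (hc : G.Par a a' c c') (hx : G.Par a a' x x')
    (h : ¬ G.L (G.dir a a') c x) : G.Par c c' x x' := by
  have hcx : c ≠ x := fun e => h (Or.inl e)
  obtain ⟨h1, h2⟩ := G.prism hc hx hcx
  exact ⟨hc.h3, hcx, hx.h3, h1, by rw [← hc.h5, hx.h5], h2, fun e => h (Or.inr (by rw [← e, hc.h5]))⟩

/-- translation in direction `s` -/
structure IsTr (s : H) (σ : A → A) : Prop where
  ne : ∀ x, x ≠ σ x
  d : ∀ x, G.dir x (σ x) = s
  inj : ∀ x y, x ≠ y → σ x ≠ σ y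
  pres : ∀ x y, x ≠ y → G.dir x y = G.dir (σ x) (σ y)

theorem exists_off_line (s : H) (a : A) : ∃ c, ¬ G.L s a c := by
  obtain ⟨r, hr, _, _⟩ := G.off s s
  obtain ⟨c, hc, hcr⟩ := G.on a r
  refine ⟨c, ?_⟩
  rintro (h | h)
  · exact hc h.symm
  · exact hr (by rw [← hcr, h])

theorem not_L_symm {s : H} {p q : A} (h : ¬ G.L s p q) : ¬ G.L s q p := fun h' => h (G.L_symm h')

theorem par_exists' {a a' x : A} (h1 : a ≠ a') (h : ¬ G.L (G.dir a a') a x) :
    ∃ x', G.Par a a' x x' :=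
  G.par_exists h1 (fun e => h (Or.inl e)) (fun e => h (Or.inr e.symm))

theorem tr_exists {a a' : A} (h : a ≠ a') : ∃ σ, G.IsTr (G.dir a a') σ ∧ σ a = a' := by
  classical
  obtain ⟨s, hs⟩ : ∃ s, s = G.dir a a' := ⟨_, rfl⟩
  obtain ⟨c, hc⟩ := G.exists_off_line s a
  obtain ⟨c', hcc⟩ := G.par_exists' h (hs ▸ hc)
  have hs' : s = G.dir c c' := by rw [← hcc.h5, hs]
  have E1 : ∀ x, ¬ G.L s a x → ∃ x', G.Par a a' x x' := fun x hx => G.par_exists' h (hs ▸ hx)
  have E2 : ∀ x, G.L s a x → ∃ x', G.Par c c' x x' := by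
    intro x hx
    apply G.par_exists' hcc.h3
    rw [← hs']
    intro hcx
    exact hc (G.L_trans hx (G.L_symm hcx))
  choose! f1 hf1 using E1
  choose! f2 hf2 using E2
  obtain ⟨f, hf⟩ : ∃ f : A → A, f = fun x => if G.L s a x then f2 x else f1 x := ⟨_, rfl⟩
  have F1 : ∀ x, ¬ G.L s a x → G.Par a a' x (f x) := by
    intro x hx
    rw [hf]; simp only [hx, if_false]; exact hf1 x hx
  have F2 : ∀ x, ¬ G.L s c x → G.Par c c' x (f x) := by
    intro x hx
    by_cases hax : G.L s a x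
    · rw [hf]; simp only [hax, if_true]; exact hf2 x hax
    · exact Par.of_prism G hcc (F1 x hax) (hs ▸ hx)
  have hor : ∀ x, ¬ G.L s a x ∨ ¬ G.L s c x := by
    intro x
    by_contra hcon
    push Not at hcon
    exact hc (G.L_trans hcon.1 (G.L_symm hcon.2))
  have hfa : f a = a' := by
    have h1 := F2 a (G.not_L_symm hc)
    exact G.par_unique h1 (Par.swap G hcc)
  have key : ∀ x y, x ≠ y → G.L s a x → G.L s c y → f x ≠ f y ∧ G.dir x y = G.dir (f x) (f y) := by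
    intro x y hxy hax hcy
    obtain ⟨r, hr1, hr2, hr3⟩ := G.off s (G.dir a c)
    have hsac : s ≠ G.dir a c := fun e => hc (Or.inr e.symm)
    have hr := hr3 hsac
    obtain ⟨e, hea, her⟩ := G.on a r
    have hae : ¬ G.L s a e := by
      rintro (h | h)
      · exact hea h.symm
      · exact hr1 (by rw [← her, h])
    have hac : a ≠ c := fun e => hc (Or.inl e)
    have hce : ¬ G.L s c e := by
      rintro (h | h)
      · exact hr2 (by rw [← her, h])
      · have hce : c ≠ e := by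
          rintro rfl
          exact hr2 her.symm
        have := G.tri a c e hac hce hea.symm (by rw [h]; exact hsac.symm)
        rw [h, her, G.ln_comm hsac] at this
        exact hr this
    have hcx : ¬ G.L s c x := fun h => hc (G.L_trans hax (G.L_symm h))
    have hay : ¬ G.L s a y := fun h => hc (G.L_trans h (G.L_symm hcy))
    have hex : ¬ G.L s e x := fun h => hae (G.L_trans hax (G.L_symm h))
    have hey : ¬ G.L s e y := fun h => hce (G.L_trans hcy (G.L_symm h))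
    have P1 := Par.of_prism G (F2 e hce) (F2 x hcx) (hs' ▸ hex)
    have P2 := Par.of_prism G (F1 e hae) (F1 y hay) (hs ▸ hey)
    exact G.prism P1 P2 hxy
  have pr : ∀ x y, x ≠ y → f x ≠ f y ∧ G.dir x y = G.dir (f x) (f y) := by
    intro x y hxy
    by_cases hax : G.L s a x
    · by_cases hcy : G.L s c y
      · exact key x y hxy hax hcy
      · have hcx : ¬ G.L s c x := fun h => hc (G.L_trans hax (G.L_symm h))
        exact G.prism (F2 x hcx) (F2 y hcy) hxy
    · by_cases hay : G.L s a y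
      · by_cases hcx : G.L s c x
        · obtain ⟨k1, k2⟩ := key y x hxy.symm hay hcx
          refine ⟨k1.symm, ?_⟩
          rw [G.symm x y hxy, k2, G.symm _ _ k1]
        · have hcy : ¬ G.L s c y := fun h => hc (G.L_trans hay (G.L_symm h))
          exact G.prism (F2 x hcx) (F2 y hcy) hxy
      · exact G.prism (F1 x hax) (F1 y hay) hxy
  refine ⟨f, ⟨?_, ?_, fun x y hxy => (pr x y hxy).1, fun x y hxy => (pr x y hxy).2⟩, hfa⟩
  · intro x
    rcases hor x with hx | hx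
    · exact (F1 x hx).h3
    · exact (F2 x hx).h3
  · intro x
    rw [← hs]
    rcases hor x with hx | hx
    · rw [← (F1 x hx).h5, hs]
    · rw [← (F2 x hx).h5, hs']

theorem IsTr.par {s : H} {σ : A → A} (h : G.IsTr s σ) {p x : A} (hx : ¬ G.L s p x) :
    G.Par p (σ p) x (σ x) := by
  have hpx : p ≠ x := fun e => hx (Or.inl e)
  exact ⟨h.ne p, hpx, h.ne x, h.inj p x hpx, by rw [h.d, h.d], h.pres p x hpx,
    fun e => hx (Or.inr (by rw [← e, h.d]))⟩

theorem tr_unique {s : H} {σ ρ : A → A} (hσ : G.IsTr s σ) (hρ : G.IsTr s ρ) {p : A}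
    (h : σ p = ρ p) : σ = ρ := by
  have key : ∀ p x, σ p = ρ p → ¬ G.L s p x → σ x = ρ x := by
    intro p x hp hx
    have h1 := IsTr.par G hσ hx
    have h2 := IsTr.par G hρ hx
    rw [← hp] at h2
    exact G.par_unique h1 h2
  funext x
  by_cases hx : G.L s p x
  · obtain ⟨c, hc⟩ := G.exists_off_line s p
    exact key c x (key p c h hc) (fun h' => hc (G.L_trans hx (G.L_symm h')))
  · exact key p x h hx

/-- translation or identity -/
def IsT (σ : A → A) : Prop := σ = id ∨ ∃ s, G.IsTr s σ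

theorem T_unique {σ ρ : A → A} (hσ : G.IsT σ) (hρ : G.IsT ρ) {p : A} (h : σ p = ρ p) : σ = ρ := by
  rcases hσ with rfl | ⟨s, hs⟩
  · rcases hρ with rfl | ⟨t, ht⟩
    · rfl
    · exact absurd h (ht.ne p)
  · rcases hρ with rfl | ⟨t, ht⟩
    · exact absurd h.symm (hs.ne p)
    · have : s = t := by rw [← hs.d p, ← ht.d p, h]
      subst this
      exact G.tr_unique hs ht h

theorem T_exists (a a' : A) : ∃ σ, G.IsT σ ∧ σ a = a' := by
  by_cases h : a = a'
  · exact ⟨id, Or.inl rfl, h⟩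
  · obtain ⟨σ, h1, h2⟩ := G.tr_exists h
    exact ⟨σ, Or.inr ⟨_, h1⟩, h2⟩

theorem T_inj {σ : A → A} (h : G.IsT σ) : Function.Injective σ := by
  rcases h with rfl | ⟨s, hs⟩
  · exact fun x y h => h
  · intro x y hxy
    by_contra hne
    exact hs.inj x y hne hxy

theorem T_pres {σ : A → A} (h : G.IsT σ) {x y : A} (hxy : x ≠ y) :
    G.dir x y = G.dir (σ x) (σ y) := by
  rcases h with rfl | ⟨s, hs⟩
  · rfl
  · exact hs.pres x y hxy

theorem comp_diff {s t : H} (hst : s ≠ t) {σ ρ : A → A} (hσ : G.IsTr s σ) (hρ : G.IsTr t ρ)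
    (O : A) : G.IsTr (G.dir O (σ (ρ O))) (σ ∘ ρ) := by
  have hne : ∀ x, x ≠ σ (ρ x) := by
    intro x h
    apply hst
    have h1 := hσ.d (ρ x)
    rw [← h, G.symm _ _ (hρ.ne x).symm, hρ.d] at h1
    exact h1.symm
  have c1 : ∀ x y, x ≠ y → G.dir x y ≠ s → G.dir x y ≠ t →
      G.dir x (σ (ρ x)) = G.dir y (σ (ρ y)) := by
    intro x y hxy h1 h2
    have hr := hρ.pres x y hxy
    have P1 : G.Par (ρ x) (ρ y) x y :=
      ⟨hρ.inj x y hxy, (hρ.ne x).symm, hxy, (hρ.ne y).symm, hr.symm,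
        by rw [G.symm _ _ (hρ.ne x).symm, G.symm _ _ (hρ.ne y).symm, hρ.d, hρ.d],
        by rw [← hr, G.symm _ _ (hρ.ne x).symm, hρ.d]; exact h2⟩
    have P2 : G.Par (ρ x) (ρ y) (σ (ρ x)) (σ (ρ y)) :=
      ⟨hρ.inj x y hxy, hσ.ne _, hσ.inj _ _ (hρ.inj x y hxy), hσ.ne _,
        hσ.pres _ _ (hρ.inj x y hxy), by rw [hσ.d, hσ.d], by rw [← hr, hσ.d]; exact h1⟩
    exact (G.prism P1 P2 (hne x)).2
  have c2 : ∀ x y, G.dir x (σ (ρ x)) = G.dir y (σ (ρ y)) := by
    intro x y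
    by_cases hxy : x = y
    · rw [hxy]
    by_cases h : G.dir x y ≠ s ∧ G.dir x y ≠ t
    · exact c1 x y hxy h.1 h.2
    obtain ⟨r, hr1, hr2, hr3⟩ := G.off s t
    have hr := hr3 hst
    obtain ⟨z, hzx, hz⟩ := G.on x r
    have h' : G.dir x y = s ∨ G.dir x y = t := by tauto
    have hzy : z ≠ y := by
      rintro rfl
      rcases h' with h' | h'
      · exact hr1 (by rw [← hz, h'])
      · exact hr2 (by rw [← hz, h'])
    have hne' : G.dir x z ≠ G.dir x y := by
      rw [hz]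
      rcases h' with h' | h' <;> rw [h'] <;> assumption
    obtain ⟨t1, t2, t3⟩ := G.tri' hzx.symm hzy hxy hne'
    rw [c1 x z hzx.symm (by rw [hz]; exact hr1) (by rw [hz]; exact hr2)]
    apply c1 z y hzy
    · intro h1
      rcases h' with h' | h'
      · exact t3 (by rw [h1, h'])
      · rw [h1, h', hz] at t1
        have e := G.two_lines hr2 hst hst t1 (G.ln_right _ _ hr2) (G.ln_left _ _ hst)
          (G.ln_right _ _ hst)
        exact hr (e ▸ G.ln_left _ _ hr2)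
    · intro h1
      rcases h' with h' | h'
      · rw [h1, h', hz] at t1
        have e := G.two_lines hr1 hst hst (G.ln_right _ _ hr1) t1 (G.ln_left _ _ hst)
          (G.ln_right _ _ hst)
        exact hr (e ▸ G.ln_left _ _ hr1)
      · exact t3 (by rw [h1, h'])
  refine ⟨hne, fun x => c2 x O, ?_, ?_⟩
  · intro x y hxy
    exact hσ.inj _ _ (hρ.inj x y hxy)
  · intro x y hxy
    rw [hρ.pres x y hxy, hσ.pres _ _ (hρ.inj x y hxy)]; rfl

theorem comp_same {s : H} {σ ρ : A → A} (hσ : G.IsTr s σ) (hρ : G.IsTr s ρ) :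
    G.IsT (σ ∘ ρ) := by
  by_cases hfix : ∃ p, σ (ρ p) = p
  · left
    obtain ⟨p, hp⟩ := hfix
    have key : ∀ p x, σ (ρ p) = p → ¬ G.L s p x → σ (ρ x) = x := by
      intro p x hp hx
      have h1 := Par.flip G (IsTr.par G hρ hx)
      have hx' : ¬ G.L s (ρ p) (ρ x) := by
        intro h
        apply hx
        exact G.L_trans (G.L_trans (Or.inr (hρ.d p)) h) (G.L_symm (Or.inr (hρ.d x)))
      have h2 := IsTr.par G hσ hx'
      rw [hp] at h2
      exact G.par_unique h2 h1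
    funext x
    by_cases hx : G.L s p x
    · obtain ⟨c, hc⟩ := G.exists_off_line s p
      exact key c x (key p c hp hc) (fun h' => hc (G.L_trans hx (G.L_symm h')))
    · exact key p x hp hx
  · push Not at hfix
    right
    refine ⟨s, fun x => (hfix x).symm, fun x => ?_, ?_, ?_⟩
    · exact G.L_dir (hfix x).symm (G.L_trans (Or.inr (hρ.d x)) (Or.inr (hσ.d (ρ x))))
    · intro x y hxy
      exact hσ.inj _ _ (hρ.inj x y hxy)
    · intro x y hxy
      rw [hρ.pres x y hxy, hσ.pres _ _ (hρ.inj x y hxy)]; rfl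

theorem T_comp [Nonempty A] {σ ρ : A → A} (hσ : G.IsT σ) (hρ : G.IsT ρ) : G.IsT (σ ∘ ρ) := by
  rcases hσ with rfl | ⟨s, hs⟩
  · exact hρ
  rcases hρ with rfl | ⟨t, ht⟩
  · exact Or.inr ⟨s, hs⟩
  by_cases hst : s = t
  · subst hst; exact G.comp_same hs ht
  · exact Or.inr ⟨_, G.comp_diff hst hs ht (Classical.arbitrary A)⟩

theorem comm_diff {s t : H} (hst : s ≠ t) {σ ρ : A → A} (hσ : G.IsTr s σ) (hρ : G.IsTr t ρ)
    (x : A) : σ (ρ x) = ρ (σ x) := by
  have P1 : G.Par x (σ x) (ρ x) (σ (ρ x)) :=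
    ⟨hσ.ne x, hρ.ne x, hσ.ne _, hσ.inj _ _ (hρ.ne x), by rw [hσ.d, hσ.d], hσ.pres _ _ (hρ.ne x),
      by rw [hσ.d, hρ.d]; exact hst⟩
  have P2 : G.Par x (σ x) (ρ x) (ρ (σ x)) :=
    ⟨hσ.ne x, hρ.ne x, hρ.inj _ _ (hσ.ne x), hρ.ne _, hρ.pres _ _ (hσ.ne x), by rw [hρ.d, hρ.d],
      by rw [hσ.d, hρ.d]; exact hst⟩
  exact G.par_unique P1 P2

theorem T_comm [Nonempty A] [Finite A] {σ ρ : A → A} (hσ : G.IsT σ) (hρ : G.IsT ρ) (x : A) :
    σ (ρ x) = ρ (σ x) := by
  rcases hσ with rfl | ⟨s, hs⟩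
  · rfl
  rcases hρ with rfl | ⟨t, ht⟩
  · rfl
  by_cases hst : s = t
  swap
  · exact G.comm_diff hst hs ht x
  subst hst
  obtain ⟨u, hu, _, _⟩ := G.off s s
  obtain ⟨y, hyx, hy⟩ := G.on x u
  obtain ⟨π, hπ, _⟩ := G.tr_exists hyx.symm
  rw [hy] at hπ
  have hc : ∀ z, σ (ρ (π z)) = ρ (π (σ z)) := by
    intro z
    rcases G.T_comp (Or.inr ⟨s, ht⟩) (Or.inr ⟨u, hπ⟩) with h | ⟨w, hw⟩
    · have h1 : ∀ z, ρ (π z) = z := fun z => congrFun h z
      rw [h1, h1]
    · have hws : s ≠ w := by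
        rintro rfl
        apply hu
        have h1 : G.L s z (ρ (π z)) := Or.inr (hw.d z)
        have h2 : G.L s (ρ (π z)) (π z) := G.L_symm (Or.inr (ht.d (π z)))
        rw [← hπ.d z]
        exact G.L_dir (hπ.ne z) (G.L_trans h1 h2)
      exact G.comm_diff hws hs hw z
  have hsurj : Function.Surjective π := Finite.surjective_of_injective (G.T_inj (Or.inr ⟨u, hπ⟩))
  obtain ⟨z, rfl⟩ := hsurj x
  rw [hc z, G.comm_diff hu.symm hs hπ z]

end Aff

end Pool.Agent.MP84111f
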