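import Mathlib

/-!
# Arithmetic of rank-4 perfect matroid designs whose planes pairwise meet
-/

namespace Pool.Agent.MP84111f

/-- The main quadratic equation. `m = l - 1`, `x` = number of lines on a point inside a plane,
`y` = number of planes on a line. -/
theorem quad_of_count (m x y w r k v b N : ℤ)
    (hm : 1 ≤ m) (hx : m + 1 ≤ x) (hy : x ≤ y)
    (hk : k = 1 + x * m) (hv : v = 1 + w * m) (hw : w = 1 + y * (x - 1))
    (hr : r * x = w * y) (hb : b * k = v * r) (hN : N * (m + 1) = k * x)
    (hc : k * (r - 1) = (b - 1) + m * (N * (y - 1))) :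
    (m + 1) * (x - 1) * y ^ 2 - (m + 1) * (x - 1 + x ^ 2 * m) * y + x ^ 2 * m * (1 + x * m) = 0 := by
  have h1 : k ^ 2 * (m + 1) * (w * y - x) =
      (m + 1) * v * (w * y) - k * (m + 1) * x + m * k ^ 2 * x ^ 2 * (y - 1) := by
    have e1 : k ^ 2 * (m + 1) * (r * x - x) =
        (m + 1) * x * (b * k) - k * (m + 1) * x + m * k * x * (N * (m + 1)) * (y - 1) := by
      linear_combination (k * (m + 1) * x) * hc
    rw [hr, hb, hN] at e1
    linear_combination e1 + (m + 1) * v * hr
  subst hk hv hw
  have h2 : (m * (y - 1) * (x - 1)) *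
      ((m + 1) * (x - 1) * y ^ 2 - (m + 1) * (x - 1 + x ^ 2 * m) * y + x ^ 2 * m * (1 + x * m))
      = 0 := by
    linear_combination -h1
  have h3 : m * (y - 1) * (x - 1) ≠ 0 := by
    have : 0 < m * (y - 1) * (x - 1) := by
      have : 0 < m := by omega
      have : 0 < y - 1 := by omega
      have : 0 < x - 1 := by omega
      positivity
    exact this.ne'
  exact (mul_eq_zero.mp h2).resolve_left h3



/-- case `z = m` -/
theorem caseA1 (m x : ℤ) (hm : 1 ≤ m) (hx : m + 2 ≤ x)
    (h : m * (m + 1) * ((m - 2) * x + 1) = (x - 1) * (x - m - 1)) : False := by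
  rcases eq_or_lt_of_le hm with rfl | hm2
  · nlinarith
  · have hd : x ∣ (m - 1) * (m + 1) := by
      refine ⟨x - m - 2 - m * (m + 1) * (m - 2), ?_⟩
      linear_combination h
    have hle : x ≤ (m - 1) * (m + 1) := Int.le_of_dvd (by nlinarith) hd
    have h1 : x - m - 1 ≤ (m + 1) * (m - 2) := by nlinarith
    have h2 : (x - 1) * (x - m - 1) ≤ (x - 1) * ((m + 1) * (m - 2)) :=
      mul_le_mul_of_nonneg_left h1 (by omega)
    have h3 : 0 ≤ (m + 1) * (m - 2) := by
      apply mul_nonneg <;> omega
    nlinarith [mul_nonneg h3 (show (0:ℤ) ≤ x by omega), mul_nonneg h3 (show (0:ℤ) ≤ m - 1 by omega),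
      mul_nonneg (mul_nonneg h3 (show (0:ℤ) ≤ m - 1 by omega)) (show (0:ℤ) ≤ x by omega)]

/-- case `z = m + 1` -/
theorem caseA2 (m x : ℤ) (hm : 1 ≤ m) (hx : m + 2 ≤ x)
    (h : (m + 1) * (m - 2) * ((m + 1) * x - 1) = (x - 1) * (x - m - 1)) : False := by
  rcases eq_or_lt_of_le hm with rfl | hm2
  · nlinarith
  rcases eq_or_lt_of_le (show 2 ≤ m by omega) with rfl | hm3
  · have : (x - 1) * (x - 2 - 1) = 0 := by linarith
    rcases mul_eq_zero.mp this with h | h <;> omega
  · have hd : x ∣ (m - 1) * (m + 1) := by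
      refine ⟨-(x - m - 2 - (m + 1) * (m - 2) * (m + 1)) , ?_⟩
      linear_combination -h
    have hle : x ≤ (m - 1) * (m + 1) := Int.le_of_dvd (by nlinarith) hd
    have h1 : x - m - 1 ≤ (m + 1) * (m - 2) := by nlinarith
    have h2 : (x - 1) * (x - m - 1) ≤ (x - 1) * ((m + 1) * (m - 2)) :=
      mul_le_mul_of_nonneg_left h1 (by omega)
    have h3 : 0 < (m + 1) * (m - 2) := by
      apply mul_pos <;> omega
    nlinarith [mul_pos h3 (show (0:ℤ) < x by omega), mul_pos h3 (show (0:ℤ) < m by omega),
      mul_pos (mul_pos h3 (show (0:ℤ) < m by omega)) (show (0:ℤ) < x by omega)]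



/-- case `z = 0` -/
theorem caseA3 (m x : ℤ) (hm : 1 ≤ m) (hx : m + 2 ≤ x) (hd : x ∣ m * (m + 1))
    (h : m * (m + 1) * ((m - 2) * x + m + 1) = x * (x - 1) * (x - m - 1)) : False := by
  obtain ⟨d, hd⟩ := hd
  have hx0 : x ≠ 0 := by omega
  have hdpos : 0 < d := by
    by_contra hcon
    push Not at hcon
    nlinarith
  have h1 : d * ((m - 2) * x + m + 1) = (x - 1) * (x - m - 1) := by
    have : x * (d * ((m - 2) * x + m + 1)) = x * ((x - 1) * (x - m - 1)) := by
      rw [hd] at h; linear_combination h
    exact mul_left_cancel₀ hx0 this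
  obtain ⟨i, hi⟩ : ∃ i, i = x - m - 2 - d * (m - 2) := ⟨_, rfl⟩
  have h2 : (d - 1) * (m + 1) = x * i := by
    rw [hi]; linear_combination h1
  have h3 : d * (d - 1) = i * m := by
    have : x * (d * (d - 1)) = x * (i * m) := by
      linear_combination -(d-1) * hd + m * h2
    exact mul_left_cancel₀ hx0 this
  have hi0 : 0 ≤ i := by
    by_contra hcon
    push Not at hcon
    nlinarith
  rcases eq_or_lt_of_le hi0 with hi0 | hi0
  · rw [← hi0] at h3 hi
    have hd1 : d = 1 := by
      have : d * (d - 1) = 0 := by linarith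
      rcases mul_eq_zero.mp this with h | h <;> omega
    subst hd1
    have hx2 : x = 2 * m := by linarith
    subst hx2
    have : m * (m - 1) = 0 := by linarith
    rcases mul_eq_zero.mp this with h | h <;> omega
  · have hd2 : 2 ≤ d := by
      by_contra hcon
      have : d = 1 := by omega
      subst this
      nlinarith
    have hdm : d < m := by
      by_contra hcon
      push Not at hcon
      nlinarith
    have h4 : m * m + m = 2 * d * m + i * m * (m - 2) + i * d := by
      have hx' : x = i + m + 2 + d * (m - 2) := by linarith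
      rw [hx'] at hd
      linear_combination hd + (m-2) * h3
    rcases eq_or_lt_of_le (show 1 ≤ i by omega) with hi1 | hi1
    · rw [← hi1] at h4
      nlinarith
    · have hi2 : 2 ≤ i := by omega
      have hm3 : 0 ≤ m - 2 := by omega
      nlinarith [mul_nonneg (mul_nonneg (show (0:ℤ) ≤ i - 2 by omega) (show (0:ℤ) ≤ m by omega)) hm3,
        mul_nonneg (show (0:ℤ) ≤ d - 2 by omega) (show (0:ℤ) ≤ m by omega),
        mul_nonneg (show (0:ℤ) ≤ d - 2 by omega) (show (0:ℤ) ≤ i by omega)]

/-- case `1 ≤ z ≤ 2 m - 1` with `x ≤ m (m - 1)` -/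
theorem caseA4 (m x z : ℤ) (hm : 1 ≤ m) (hx : m + 2 ≤ x) (hxm : x ≤ m * (m - 1))
    (hz1 : 1 ≤ z) (hz2 : z ≤ 2 * m - 1)
    (h : (m + 1) * ((m - 2) * x + m + 1 - z) * (m + z * (x - 1)) = x * (x - 1) * (x - m - 1)) :
    False := by
  have hm3 : 3 ≤ m := by
    by_contra hcon
    have : m = 1 ∨ m = 2 := by omega
    rcases this with rfl | rfl <;> omega
  have ht : (m - 2) * (x - 1) ≤ (m - 2) * x + m + 1 - z := by linarith
  have hs : m + x - 1 ≤ m + z * (x - 1) := by nlinarith
  have h1 : (m - 2) * (x - 1) * (m + x - 1) ≤ ((m - 2) * x + m + 1 - z) * (m + z * (x - 1)) := by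
    apply mul_le_mul ht hs (by omega)
    have : 0 ≤ (m - 2) * (x - 1) := mul_nonneg (by omega) (by omega)
    linarith
  have h2 : (m + 1) * ((m - 2) * (x - 1) * (m + x - 1)) ≤ x * (x - 1) * (x - m - 1) := by
    rw [← h, mul_assoc (m+1)]
    exact mul_le_mul_of_nonneg_left h1 (by omega)
  have h3 : (m + 1) * ((m - 2) * (m + x - 1)) ≤ x * (x - m - 1) := by
    have h4 : (x - 1) * ((m + 1) * ((m - 2) * (m + x - 1))) ≤ (x - 1) * (x * (x - m - 1)) := by
      linarith
    exact le_of_mul_le_mul_left h4 (by omega)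
  have h5 : x * (x - m - 1) ≤ x * (m * (m - 1) - m - 1) :=
    mul_le_mul_of_nonneg_left (by omega) (by omega)
  nlinarith [mul_pos (show (0:ℤ) < m by omega) (show (0:ℤ) < x by omega),
    mul_pos (mul_pos (show (0:ℤ) < m + 1 by omega) (show (0:ℤ) < m - 2 by omega)) (show (0:ℤ) < m - 1 by omega)]



theorem quadNo (x c d : ℤ) (hx : 1 ≤ x) (hd : 0 < d) (hc : d < c - 1)
    (h : x * x - c * x + d = 0) : False := by
  rcases le_or_gt c x with h1 | h1
  · nlinarith
  · nlinarith [mul_nonneg (show (0:ℤ) ≤ x - 1 by omega) (show (0:ℤ) ≤ c - 1 - x by omega)]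

theorem caseB (m x t z : ℤ) (hm : 1 ≤ m) (hx : m + 2 ≤ x) (ht : 1 ≤ t)
    (hz : z = (m - 2) * x + m + 1 - t) (hz2 : 2 * m ≤ z)
    (hE : (m + 1) * t * (m + z * (x - 1)) = x * (x - 1) * (x - m - 1)) : False := by
  have hx1 : (0 : ℤ) < x - 1 := by omega
  have hx1' : x - 1 ≠ 0 := hx1.ne'
  -- divisibility
  have hdvd : (x - 1) ∣ m * (m + 1) * t := by
    refine ⟨x * (x - m - 1) - (m + 1) * t * z, ?_⟩
    linear_combination hE
  obtain ⟨j, hj⟩ := hdvd
  have hn : 0 < m * (m + 1) := by positivity
  have hj0 : 0 < j := by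
    by_contra hcon
    push Not at hcon
    have : 0 < m * (m + 1) * t := by positivity
    nlinarith
  obtain ⟨j', hj'⟩ : ∃ j', j' = m * (m + 1) * (m - 2) - j := ⟨_, rfl⟩
  have hT' : j' * (x - 1) = m * (m + 1) * (z - 2 * m + 1) := by
    rw [hj', hz]; linear_combination hj
  have hj'0 : 0 < j' := by
    by_contra hcon
    push Not at hcon
    have : 0 < m * (m + 1) * (z - 2 * m + 1) := mul_pos hn (by omega)
    nlinarith
  have hstar : j * (x - 1) * t + m * x * (x - m - 1) = j * ((m - 2) * x ^ 2 + 3 * x - 1) := by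
    have : (x - 1) * (j * (x - 1) * t + m * x * (x - m - 1)) =
        (x - 1) * (j * ((m - 2) * x ^ 2 + 3 * x - 1)) := by
      rw [hz] at hE
      linear_combination (-m) * hE + (-(x - 1) * t + ((m - 2) * x ^ 2 + 3 * x - 1)) * hj
    exact mul_left_cancel₀ hx1' this
  have hss : (m * (m * (m + 1)) - j * j') * x ^ 2 - (2 * j + m * (m + 1)) * (j + m * (m + 1)) * x
      + j * (j + m * (m + 1)) = 0 := by
    rw [hj']
    linear_combination (m * (m + 1)) * hstar - j * (x - 1) * hj
  have hA : j * j' < m * (m * (m + 1)) := by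
    by_contra hcon
    push Not at hcon
    have h1 : (m * (m * (m + 1)) - j * j') * x ^ 2 ≤ 0 :=
      mul_nonpos_of_nonpos_of_nonneg (by linarith) (by positivity)
    have h2 : j * (j + m * (m + 1)) < (2 * j + m * (m + 1)) * (j + m * (m + 1)) * x := by
      have h3 : j * (j + m * (m + 1)) < (2 * j + m * (m + 1)) * (j + m * (m + 1)) := by
        apply mul_lt_mul_of_pos_right <;> linarith
      have h4 : (2 * j + m * (m + 1)) * (j + m * (m + 1)) * 1 ≤
          (2 * j + m * (m + 1)) * (j + m * (m + 1)) * x := by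
        apply mul_le_mul_of_nonneg_left (by omega) (by positivity)
      linarith
    linarith
  rcases eq_or_lt_of_le (show 1 ≤ j by omega) with hj1 | hj1
  · -- j = 1
    rw [← hj1] at hstar hj
    have h1 : (x - 1) * (t + 2 * x - 1) = m * (m + 1) * x := by
      linear_combination hstar
    have h2 : m * (m + 1) * (t * (t + 2 * x - 1)) = m * (m + 1) * x := by
      linear_combination h1 + (t + 2 * x - 1) * hj
    have h3 : t * (t + 2 * x - 1) = x := mul_left_cancel₀ hn.ne' h2
    nlinarith
  rcases eq_or_lt_of_le (show 1 ≤ j' by omega) with hj1' | hj1'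
  · -- j' = 1
    have hs : x - 1 = m * (m + 1) * (z - 2 * m + 1) := by rw [← hT', ← hj1']; ring
    obtain ⟨s, hsdef⟩ : ∃ s, s = z - 2 * m + 1 := ⟨_, rfl⟩
    rw [← hsdef] at hs
    have hs0 : 0 < s := by omega
    have hts : t = j * s := by
      have : m * (m + 1) * t = m * (m + 1) * (j * s) := by rw [hj, hs]; ring
      exact mul_left_cancel₀ hn.ne' this
    have h1 : j * (m + z * (x - 1)) = m * x * (x - m - 1) := by
      have : ((m + 1) * s) * (j * (m + z * (x - 1))) = ((m + 1) * s) * (m * x * (x - m - 1)) := by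
        rw [hts] at hE
        linear_combination hE + (x * (x - m - 1)) * hs
      exact mul_left_cancel₀ (by positivity) this
    have h2 : (m + 1) ∣ 2 := by
      have hjj : j = m * (m + 1) * (m - 2) - 1 := by linarith
      refine ⟨2 - (m ^ 2 * (m - 2) + j * z * m * s - m ^ 2 * s * (2 + m * (m + 1) * s) + m * x), ?_⟩
      have hx' : x = 1 + m * (m + 1) * s := by linarith
      have e1 : j * (m + z * (m * (m + 1) * s)) =
          m * (1 + m * (m + 1) * s) ^ 2 - m * (m + 1) * x := by
        rw [← hs, h1]
        ring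
      linear_combination e1 - m * hjj
    have : m + 1 ≤ 2 := Int.le_of_dvd (by norm_num) h2
    have hm1 : m = 1 := by omega
    subst hm1
    omega
  · -- j, j' ≥ 2
    have hj2 : 2 ≤ j := by omega
    have hj2' : 2 ≤ j' := by omega
    have hm3 : 3 ≤ m := by
      by_contra hcon
      have hm12 : m = 1 ∨ m = 2 := by omega
      rcases hm12 with rfl | rfl <;> omega
    have hsum : j + j' = m * (m + 1) * (m - 2) := by omega
    have hprod : 0 ≤ (j - 2) * (j' - 2) := mul_nonneg (by omega) (by omega)
    have hm4 : m ≤ 4 := by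
      by_contra hcon
      push Not at hcon
      have h5 : 5 ≤ m := by omega
      have h6 : m * (m + 1) * (m - 4) < 4 := by nlinarith
      nlinarith [mul_nonneg (show (0:ℤ) ≤ m - 5 by omega) (show (0:ℤ) ≤ m - 4 by omega)]
    have hm34 : m = 3 ∨ m = 4 := by omega
    rcases hm34 with rfl | rfl
    · have hj10 : j ≤ 10 := by omega
      have hjj : j' = 12 - j := by omega
      subst hjj
      interval_cases j
      · exact absurd hss (by intro h; ring_nf at h; omega)
      · exact quadNo x 30 5 (by omega) (by norm_num) (by norm_num) (by linarith)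
      · exact quadNo x 80 16 (by omega) (by norm_num) (by norm_num) (by linarith)
      · exact quadNo x 374 85 (by omega) (by norm_num) (by norm_num) (by linarith)
      · linarith
      · exact quadNo x 494 133 (by omega) (by norm_num) (by norm_num) (by linarith)
      · exact quadNo x 140 40 (by omega) (by norm_num) (by norm_num) (by linarith)
      · exact quadNo x 70 21 (by omega) (by norm_num) (by norm_num) (by linarith)
      · exact absurd hss (by intro h; ring_nf at h; omega)
    · have hjj : j' = 40 - j := by omega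
      subst hjj
      have : (j - 2) * (38 - j) < 4 := by nlinarith
      have hj38 : j = 2 ∨ j = 38 := by
        by_contra hcon
        push Not at hcon
        have h1 : 3 ≤ j := by omega
        have h2 : j ≤ 37 := by omega
        nlinarith [mul_nonneg (show (0:ℤ) ≤ j - 3 by omega) (show (0:ℤ) ≤ 37 - j by omega)]
      rcases hj38 with rfl | rfl
      · exact quadNo x 132 11 (by omega) (by norm_num) (by norm_num) (by linarith)
      · exact quadNo x 1392 551 (by omega) (by norm_num) (by norm_num) (by linarith)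


theorem arith_main (m x y : ℤ) (hm : 1 ≤ m) (hx : m + 1 ≤ x) (hy : x ≤ y) (hD : x ∣ y * (y - 1))
    (hE : (m + 1) * (x - 1) * y ^ 2 - (m + 1) * (x - 1 + x ^ 2 * m) * y
      + x ^ 2 * m * (1 + x * m) = 0) :
    x = m + 1 ∧ (y = m + 1 ∨ y = m ^ 2 + m + 1) := by
  rcases eq_or_lt_of_le hx with hx' | hx'
  · refine ⟨hx'.symm, ?_⟩
    subst hx'
    have h1 : (m * (m + 1)) * ((y - (m + 1)) * (y - (m ^ 2 + m + 1))) = 0 := by
      linear_combination hE
    have h2 : m * (m + 1) ≠ 0 := by positivity
    rcases mul_eq_zero.mp ((mul_eq_zero.mp h1).resolve_left h2) with h | h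
    · left; linarith
    · right; linarith
  · exfalso
    have hx2 : m + 2 ≤ x := by omega
    obtain ⟨t, ht⟩ : ∃ t, t = y - x := ⟨_, rfl⟩
    obtain ⟨z, hz⟩ : ∃ z, z = (m - 2) * x + m + 1 - t := ⟨_, rfl⟩
    have hy' : y = x + t := by omega
    subst hy'
    have hEz : (m + 1) * t * (m + z * (x - 1)) = x * (x - 1) * (x - m - 1) := by
      rw [hz]; linear_combination -hE
    have ht0 : 0 ≤ t := by omega
    have hpos : 0 < x * (x - 1) * (x - m - 1) := by
      apply mul_pos (mul_pos _ _) <;> omega
    have ht1 : 1 ≤ t := by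
      by_contra hcon
      have : t = 0 := by omega
      rw [this] at hEz
      linarith
    have hz0 : 0 ≤ z := by
      by_contra hcon
      push Not at hcon
      have h1 : m + z * (x - 1) < 0 := by nlinarith
      have h2 : (m + 1) * t * (m + z * (x - 1)) < 0 :=
        mul_neg_of_pos_of_neg (by positivity) h1
      linarith
    have hDz : x ∣ (m + 1 - z) * (m - z) := by
      have h1 : (m + 1 - z) = t - x * (m - 2) := by rw [hz]; ring
      have h2 : (m - z) = t - 1 - x * (m - 2) := by rw [hz]; ring
      rw [h1, h2]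
      obtain ⟨c, hc⟩ := hD
      refine ⟨c - (x + t) - (t - 1) - (m - 2) * (2 * t - 1) + x * (m - 2) ^ 2, ?_⟩
      linear_combination hc
    rcases le_or_gt (2 * m) z with hz2 | hz2
    · exact caseB m x t z hm hx2 ht1 hz hz2 hEz
    · rcases eq_or_ne z m with rfl | hzm
      · apply caseA1 z x hm hx2
        have ht' : t = (z - 2) * x + 1 := by linarith
        rw [ht'] at hEz
        have : (x : ℤ) ≠ 0 := by omega
        apply mul_left_cancel₀ this
        linear_combination hEz
      · rcases eq_or_ne z (m + 1) with hzm1 | hzm1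
        · apply caseA2 m x hm hx2
          have ht' : t = (m - 2) * x := by linarith
          rw [ht', hzm1] at hEz
          have : (x : ℤ) ≠ 0 := by omega
          apply mul_left_cancel₀ this
          linear_combination hEz
        · rcases eq_or_lt_of_le hz0 with hz00 | hz00
          · apply caseA3 m x hm hx2
            · rw [← hz00] at hDz
              have : m * (m + 1) = (m + 1 - 0) * (m - 0) := by ring
              rw [this]; exact hDz
            · have ht' : t = (m - 2) * x + m + 1 := by linarith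
              rw [ht', ← hz00] at hEz
              linear_combination hEz
          · apply caseA4 m x z hm hx2 _ (by omega) (by omega)
            · rw [hz] at hEz ⊢
              linear_combination hEz
            · have hne : (m + 1 - z) * (m - z) ≠ 0 := by
                apply mul_ne_zero <;> omega
              rcases lt_or_gt_of_ne hzm with h1 | h1
              · have h2 : 0 < (m + 1 - z) * (m - z) := mul_pos (by omega) (by omega)
                have h3 := Int.le_of_dvd h2 hDz
                nlinarith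
              · have h2 : 0 < (m + 1 - z) * (m - z) := by
                  have : (m + 1 - z) * (m - z) = (z - m - 1) * (z - m) := by ring
                  rw [this]
                  exact mul_pos (by omega) (by omega)
                have h3 := Int.le_of_dvd h2 hDz
                nlinarith

end Pool.Agent.MP84111f
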