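import Mathlib
import Pool.Agent.Lib.MP_84111f_co.Aff

/-!
# The abelian group of an affine space with directions
-/

namespace Pool.Agent.MP84111f

/-- abelian group partitioned into components indexed by `H` -/
structure Vec (V H : Type) [AddCommGroup V] where
  d : V → H
  ln : H → H → Set H
  neg : ∀ v, v ≠ 0 → d (-v) = d v
  same : ∀ v w, v ≠ 0 → w ≠ 0 → v + w ≠ 0 → d v = d w → d (v + w) = d v
  tri : ∀ v w, v ≠ 0 → w ≠ 0 → v + w ≠ 0 → d v ≠ d w → d (v + w) ∈ ln (d v) (d w)
  third : ∀ v u u', v ≠ 0 → u ≠ u' → d v ∈ ln u u' → d v ≠ u → d v ≠ u' →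
    ∃ z, z ≠ 0 ∧ v - z ≠ 0 ∧ d z = u ∧ d (v - z) = u'
  on : ∀ u, ∃ v, v ≠ 0 ∧ d v = u
  off : ∀ u v, ∃ r, r ≠ u ∧ r ≠ v ∧ (u ≠ v → r ∉ ln u v)
  ln_left : ∀ u v, u ≠ v → u ∈ ln u v
  ln_right : ∀ u v, u ≠ v → v ∈ ln u v
  ln_eq : ∀ u v w w', u ≠ v → w ≠ w' → w ∈ ln u v → w' ∈ ln u v → ln w w' = ln u v

namespace Aff

variable {A H : Type} (G : Aff A H) (O : A)

/-- the translation taking `O` to `x` -/
noncomputable def tau (x : A) : A → A := Classical.choose (G.T_exists O x)

theorem tau_T (x : A) : G.IsT (G.tau O x) := (Classical.choose_spec (G.T_exists O x)).1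

theorem tau_O (x : A) : G.tau O x O = x := (Classical.choose_spec (G.T_exists O x)).2

theorem tau_OO : G.tau O O = id :=
  G.T_unique (G.tau_T O O) (Or.inl rfl) (p := O) (G.tau_O O O)

theorem tau_comp [Nonempty A] (x y : A) : G.tau O (G.tau O x y) = G.tau O x ∘ G.tau O y :=
  G.T_unique (G.tau_T O _) (G.T_comp (G.tau_T O x) (G.tau_T O y)) (p := O)
    (by rw [tau_O, Function.comp_apply, tau_O])

theorem tau_surj [Finite A] (x : A) : ∃ z, G.tau O z x = O := by
  have : Function.Surjective (G.tau O x) := Finite.surjective_of_injective (G.T_inj (G.tau_T O x))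
  obtain ⟨z, hz⟩ := this O
  refine ⟨z, ?_⟩
  have : Nonempty A := ⟨O⟩
  have h1 := G.T_comm (G.tau_T O z) (G.tau_T O x) O
  rw [tau_O, tau_O, hz] at h1
  exact h1

/-- addition of points with origin `O` -/
@[instance_reducible]
noncomputable def ag [Finite A] : AddGroup A :=
  letI : Add A := ⟨fun x y => G.tau O x y⟩
  letI : Zero A := ⟨O⟩
  letI : Neg A := ⟨fun x => Classical.choose (G.tau_surj O x)⟩
  haveI : Nonempty A := ⟨O⟩
  AddGroup.ofLeftAxioms
    (by
      intro x y z
      change G.tau O (G.tau O x y) z = G.tau O x (G.tau O y z)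
      rw [tau_comp]; rfl)
    (by
      intro x
      change G.tau O O x = x
      rw [tau_OO]; rfl)
    (by
      intro x
      exact Classical.choose_spec (G.tau_surj O x))

/-- addition of points with origin `O` -/
@[instance_reducible]
noncomputable def acg [Finite A] : AddCommGroup A :=
  { G.ag O with
    add_comm := by
      intro x y
      haveI : Nonempty A := ⟨O⟩
      change G.tau O x y = G.tau O y x
      have h1 := G.T_comm (G.tau_T O x) (G.tau_T O y) O
      rw [tau_O, tau_O] at h1
      exact h1 }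

theorem dir_add [Finite A] {x y : A} (z : A) (hxy : x ≠ y) :
    letI := G.acg O
    G.dir (z + x) (z + y) = G.dir x y :=
  (G.T_pres (G.tau_T O z) hxy).symm

/-- the vectorial structure -/
noncomputable def toVec [Finite A] : @Vec A H (G.acg O) :=
  letI := G.acg O
  { d := fun v => G.dir 0 v
    ln := G.ln
    neg := by
      intro v hv
      have h1 := G.dir_add O v (x := -v) (y := 0) (by simpa using hv)
      rw [add_neg_cancel, add_zero] at h1
      rw [h1, G.symm]
      simpa using hv
    same := by
      intro v w hv hw hvw h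
      have h1 := G.dir_add O v (x := 0) (y := w) hw.symm
      rw [add_zero] at h1
      apply G.trans 0 v (v + w) hv.symm _ hvw.symm
      · rw [h1, h]
      · intro e
        apply hw
        exact left_eq_add.mp e
    tri := by
      intro v w hv hw hvw h
      have h1 := G.dir_add O v (x := 0) (y := w) hw.symm
      rw [add_zero] at h1
      rw [← h1]
      apply G.tri 0 v (v + w) hv.symm _ hvw.symm
      · rw [h1]; exact h
      · intro e
        apply hw
        exact left_eq_add.mp e
    third := by
      intro v u u' hv huu' hv1 hv2 hv3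
      obtain ⟨z, hz1, hz2, hz3, hz4⟩ := G.third 0 v u u' hv.symm huu' hv1 hv2 hv3
      refine ⟨z, hz1, sub_ne_zero.mpr hz2.symm, hz3, ?_⟩
      have h1 := G.dir_add O z (x := 0) (y := v - z) (sub_ne_zero.mpr hz2.symm).symm
      rw [add_zero, add_sub_cancel] at h1
      rw [← h1, G.symm _ _ hz2, hz4]
    on := by
      intro u
      exact G.on 0 u
    off := G.off
    ln_left := G.ln_left
    ln_right := G.ln_right
    ln_eq := G.ln_eq }

theorem toVec_d [Finite A] (v : A) : (letI := G.acg O; (G.toVec O).d v) = G.dir O v := rfl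

theorem toVec_ln [Finite A] : (letI := G.acg O; (G.toVec O).ln) = G.ln := rfl

end Aff

end Pool.Agent.MP84111f
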