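import Mathlib
import Pool.Agent.Lib.MP_84111f_co.Vec

/-!
# Homotheties and the coordinate field
-/

namespace Pool.Agent.MP84111f

namespace Vec

variable {V H : Type} [AddCommGroup V] (G : Vec V H)

/-- component -/
def C (u : H) (v : V) : Prop := v = 0 ∨ G.d v = u

theorem C_zero (u : H) : G.C u 0 := Or.inl rfl

theorem C_self (v : V) : G.C (G.d v) v := Or.inr rfl

theorem C_neg {u : H} {v : V} (h : G.C u v) : G.C u (-v) := by
  by_cases hv : v = 0
  · subst hv; simp [C_zero]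
  · right
    rw [G.neg v hv]
    exact h.resolve_left hv

theorem C_add {u : H} {v w : V} (h : G.C u v) (h' : G.C u w) : G.C u (v + w) := by
  by_cases hv : v = 0
  · subst hv; simpa using h'
  by_cases hw : w = 0
  · subst hw; simpa using h
  by_cases hvw : v + w = 0
  · exact Or.inl hvw
  right
  have h1 := h.resolve_left hv
  have h2 := h'.resolve_left hw
  rw [G.same v w hv hw hvw (by rw [h1, h2]), h1]

theorem C_sub {u : H} {v w : V} (h : G.C u v) (h' : G.C u w) : G.C u (v - w) := by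
  rw [sub_eq_add_neg]; exact G.C_add h (G.C_neg h')

theorem C_dir {u : H} {v : V} (hv : v ≠ 0) (h : G.C u v) : G.d v = u := h.resolve_left hv

theorem C_inter {u u' : H} {v : V} (hu : u ≠ u') (h : G.C u v) (h' : G.C u' v) : v = 0 := by
  by_contra hv
  exact hu (by rw [← G.C_dir hv h, ← G.C_dir hv h'])

theorem d_sub_comm {v w : V} (h : v ≠ w) : G.d (v - w) = G.d (w - v) := by
  rw [← neg_sub, G.neg _ (sub_ne_zero.mpr h.symm)]

theorem two_lines {a b c e w w' : H} (hab : a ≠ b) (hce : c ≠ e) (hw : w ≠ w')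
    (h1 : w ∈ G.ln a b) (h2 : w' ∈ G.ln a b) (h3 : w ∈ G.ln c e) (h4 : w' ∈ G.ln c e) :
    G.ln a b = G.ln c e := by
  rw [← G.ln_eq a b w w' hab hw h1 h2, ← G.ln_eq c e w w' hce hw h3 h4]

theorem ln_comm {u v : H} (h : u ≠ v) : G.ln v u = G.ln u v :=
  G.ln_eq u v v u h h.symm (G.ln_right u v h) (G.ln_left u v h)

theorem tri_sub {v w : V} (hv : v ≠ 0) (hw : w ≠ 0) (h : G.d v ≠ G.d w) :
    v ≠ w ∧ G.d (v - w) ∈ G.ln (G.d v) (G.d w) ∧ G.d (v - w) ≠ G.d v ∧ G.d (v - w) ≠ G.d w := by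
  have hvw : v ≠ w := fun e => h (e ▸ rfl)
  have hvw' : v - w ≠ 0 := sub_ne_zero.mpr hvw
  refine ⟨hvw, ?_, ?_, ?_⟩
  · have := G.tri v (-w) hv (neg_ne_zero.mpr hw) (by rwa [← sub_eq_add_neg])
      (by rw [G.neg w hw]; exact h)
    rwa [G.neg w hw, ← sub_eq_add_neg] at this
  · intro e
    apply hw
    have h1 : G.C (G.d v) w := by
      have : w = v - (v - w) := by abel
      rw [this]
      exact G.C_sub (G.C_self v) (Or.inr e)
    exact G.C_inter h h1 (G.C_self w)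
  · intro e
    apply hv
    have h1 : G.C (G.d w) v := by
      have : v = (v - w) + w := by abel
      rw [this]
      exact G.C_add (Or.inr e) (G.C_self w)
    exact G.C_inter h (G.C_self v) h1

theorem tri_add {v w : V} (hv : v ≠ 0) (hw : w ≠ 0) (h : G.d v ≠ G.d w) :
    v + w ≠ 0 ∧ G.d (v + w) ∈ G.ln (G.d v) (G.d w) ∧ G.d (v + w) ≠ G.d v ∧
      G.d (v + w) ≠ G.d w := by
  have h' : G.d v ≠ G.d (-w) := by rw [G.neg w hw]; exact h
  obtain ⟨h1, h2, h3, h4⟩ := G.tri_sub hv (neg_ne_zero.mpr hw) h'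
  rw [G.neg w hw, sub_neg_eq_add] at *
  refine ⟨?_, h2, h3, h4⟩
  intro e
  apply h1
  exact add_eq_zero_iff_eq_neg.mp e

/-- homothetic pairs -/
structure Hm (v w x y : V) : Prop where
  v0 : v ≠ 0
  w0 : w ≠ 0
  x0 : x ≠ 0
  y0 : y ≠ 0
  dvw : G.d v = G.d w
  dxy : G.d x = G.d y
  dvx : G.d v ≠ G.d x
  ds : G.d (v - x) = G.d (w - y)

theorem Hm.swap {v w x y : V} (h : G.Hm v w x y) : G.Hm x y v w := by
  refine ⟨h.x0, h.y0, h.v0, h.w0, h.dxy, h.dvw, h.dvx.symm, ?_⟩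
  have h1 : x ≠ v := (G.tri_sub h.x0 h.v0 h.dvx.symm).1
  have h2 : y ≠ w := (G.tri_sub h.y0 h.w0 (by rw [← h.dxy, ← h.dvw]; exact h.dvx.symm)).1
  rw [G.d_sub_comm h1, G.d_sub_comm h2, h.ds]

theorem hm_exists {v w x : V} (hv : v ≠ 0) (hw : w ≠ 0) (hvw : G.d v = G.d w) (hx : x ≠ 0)
    (hvx : G.d v ≠ G.d x) : ∃ y, G.Hm v w x y := by
  obtain ⟨h1, h2, h3, h4⟩ := G.tri_sub hv hx hvx
  have e : G.ln (G.d x) (G.d (v - x)) = G.ln (G.d v) (G.d x) :=
    G.two_lines h4.symm hvx h4.symm (G.ln_left _ _ h4.symm) (G.ln_right _ _ h4.symm)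
      (G.ln_right _ _ hvx) h2
  obtain ⟨z, hz1, hz2, hz3, hz4⟩ := G.third w (G.d x) (G.d (v - x)) hw h4.symm
    (by rw [e, ← hvw]; exact G.ln_left _ _ hvx) (by rw [← hvw]; exact hvx)
    (by rw [← hvw]; exact h3.symm)
  exact ⟨z, hv, hw, hx, hz1, hvw, hz3.symm, hvx, hz4.symm⟩

theorem hm_unique {v w x y y' : V} (h : G.Hm v w x y) (h' : G.Hm v w x y') : y = y' := by
  have h1 : G.C (G.d x) (y - y') :=
    G.C_sub (Or.inr h.dxy.symm) (Or.inr h'.dxy.symm)
  have h2 : G.C (G.d (v - x)) (y - y') := by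
    have : y - y' = (w - y') - (w - y) := by abel
    rw [this]
    exact G.C_sub (Or.inr h'.ds.symm) (Or.inr h.ds.symm)
  have h3 := (G.tri_sub h.v0 h.x0 h.dvx).2.2.2
  exact sub_eq_zero.mp (G.C_inter h3.symm h1 h2)

theorem Hm.flip {v w x y : V} (h : G.Hm v w x y) : G.Hm w v y x :=
  ⟨h.w0, h.v0, h.y0, h.x0, h.dvw.symm, h.dxy.symm, by rw [← h.dvw, ← h.dxy]; exact h.dvx,
    h.ds.symm⟩

theorem hm_inj {v w x x' y : V} (h : G.Hm v w x y) (h' : G.Hm v w x' y) : x = x' :=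
  G.hm_unique (Hm.flip G h) (Hm.flip G h')

theorem hmNC {v w x y x' y' : V} (h : G.Hm v w x y) (h' : G.Hm v w x' y')
    (hne : G.d x ≠ G.d x') (hv : G.d v ∉ G.ln (G.d x) (G.d x')) :
    G.d (x - x') = G.d (y - y') := by
  obtain ⟨a1, a2, a3, a4⟩ := G.tri_sub h.x0 h'.x0 hne
  have hne' : G.d y ≠ G.d y' := by rw [← h.dxy, ← h'.dxy]; exact hne
  obtain ⟨b1, b2, b3, b4⟩ := G.tri_sub h.y0 h'.y0 hne'
  rw [← h.dxy, ← h'.dxy] at b2
  obtain ⟨c1, c2, c3, c4⟩ := G.tri_sub h.v0 h.x0 h.dvx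
  obtain ⟨e1, e2, e3, e4⟩ := G.tri_sub h.v0 h'.x0 h'.dvx
  by_contra hcon
  have hab : G.d (v - x') ≠ G.d (v - x) := by
    intro e
    rw [e] at e2 e3
    have l1 := G.two_lines h.dvx h'.dvx c3.symm (G.ln_left _ _ h.dvx) c2 (G.ln_left _ _ h'.dvx) e2
    have l2 := G.two_lines (w := G.d x) (w' := G.d x') h.dvx hne hne (G.ln_right _ _ h.dvx)
      (by rw [l1]; exact G.ln_right _ _ h'.dvx) (G.ln_left _ _ hne) (G.ln_right _ _ hne)
    exact hv (l2 ▸ G.ln_left _ _ h.dvx)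
  have f1 : G.d (x - x') ∈ G.ln (G.d (v - x')) (G.d (v - x)) := by
    have : x - x' = (v - x') - (v - x) := by abel
    rw [this]
    exact (G.tri_sub (sub_ne_zero.mpr e1) (sub_ne_zero.mpr c1) hab).2.1
  have c1' : w ≠ y := (G.tri_sub h.w0 h.y0 (by rw [← h.dvw, ← h.dxy]; exact h.dvx)).1
  have e1' : w ≠ y' := (G.tri_sub h'.w0 h'.y0 (by rw [← h'.dvw, ← h'.dxy]; exact h'.dvx)).1
  have f2 : G.d (y - y') ∈ G.ln (G.d (v - x')) (G.d (v - x)) := by
    have : y - y' = (w - y') - (w - y) := by abel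
    rw [this, h.ds, h'.ds]
    rw [h.ds, h'.ds] at hab
    exact (G.tri_sub (sub_ne_zero.mpr e1') (sub_ne_zero.mpr c1') hab).2.1
  have l1 := G.two_lines hab hne hcon f1 f2 a2 b2
  have g1 : G.d (v - x) ∈ G.ln (G.d x) (G.d x') := l1 ▸ G.ln_right _ _ hab
  have l2 := G.two_lines h.dvx hne c4 c2 (G.ln_right _ _ h.dvx) g1 (G.ln_left _ _ hne)
  exact hv (l2 ▸ G.ln_left _ _ h.dvx)

theorem hm {v w x y x' y' : V} (h : G.Hm v w x y) (h' : G.Hm v w x' y') (hxx : x ≠ x') :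
    y ≠ y' ∧ G.d (x - x') = G.d (y - y') := by
  have hyy : y ≠ y' := by
    rintro rfl
    exact hxx (G.hm_inj h h')
  refine ⟨hyy, ?_⟩
  by_cases hne : G.d x = G.d x'
  · have h1 : G.C (G.d x) (x - x') := G.C_sub (G.C_self x) (Or.inr hne.symm)
    have h2 : G.C (G.d x) (y - y') := G.C_sub (Or.inr h.dxy.symm) (Or.inr (by rw [hne, h'.dxy]))
    rw [G.C_dir (sub_ne_zero.mpr hxx) h1, G.C_dir (sub_ne_zero.mpr hyy) h2]
  by_cases hv : G.d v ∈ G.ln (G.d x) (G.d x')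
  swap
  · exact G.hmNC h h' hne hv
  obtain ⟨r, hr1, hr2, hr3⟩ := G.off (G.d x) (G.d x')
  have hr := hr3 hne
  obtain ⟨z, hz0, hz⟩ := G.on r
  have hvz : G.d v ≠ G.d z := by
    intro e
    rw [hz] at e
    exact hr (e ▸ hv)
  obtain ⟨z', hzz⟩ := G.hm_exists h.v0 h.w0 h.dvw hz0 hvz
  have hxz : G.d x ≠ G.d z := by rw [hz]; exact hr1.symm
  have hxz' : G.d x' ≠ G.d z := by rw [hz]; exact hr2.symm
  have k1 : G.d v ∉ G.ln (G.d x) (G.d z) := by
    intro hcon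
    have l := G.two_lines hxz hne h.dvx hcon (G.ln_left _ _ hxz) hv (G.ln_left _ _ hne)
    apply hr
    rw [← l, ← hz]
    exact G.ln_right _ _ hxz
  have k2 : G.d v ∉ G.ln (G.d x') (G.d z) := by
    intro hcon
    have l := G.two_lines hxz' hne h'.dvx hcon (G.ln_left _ _ hxz') hv (G.ln_right _ _ hne)
    apply hr
    rw [← l, ← hz]
    exact G.ln_right _ _ hxz'
  have m1 := G.hmNC hzz h hxz.symm (by rw [G.ln_comm hxz]; exact k1)
  have m2 := G.hmNC hzz h' hxz'.symm (by rw [G.ln_comm hxz']; exact k2)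
  have M1 : G.Hm z z' x y := ⟨hz0, hzz.y0, h.x0, h.y0, hzz.dxy, h.dxy, hxz.symm, m1⟩
  have M2 : G.Hm z z' x' y' := ⟨hz0, hzz.y0, h'.x0, h'.y0, hzz.dxy, h'.dxy, hxz'.symm, m2⟩
  exact G.hmNC M1 M2 hne (by rw [hz]; exact hr)

theorem Hm.of_hm {v w c c' x y : V} (hc : G.Hm v w c c') (hx : G.Hm v w x y)
    (h : G.d c ≠ G.d x) : G.Hm c c' x y := by
  have hcx : c ≠ x := fun e => h (e ▸ rfl)
  exact ⟨hc.x0, hc.y0, hx.x0, hx.y0, hc.dxy, hx.dxy, h, (G.hm hc hx hcx).2⟩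

theorem homothety_fun {v w : V} (hv : v ≠ 0) (hw : w ≠ 0) (hvw : G.d v = G.d w) :
    ∃ f : V → V, f 0 = 0 ∧ f v = w ∧ (∀ x, x ≠ 0 → f x ≠ 0 ∧ G.d (f x) = G.d x) ∧
      (∀ x y, x ≠ y → G.d (x - y) = G.d (f x - f y)) := by
  classical
  obtain ⟨r, hr1, _, _⟩ := G.off (G.d v) (G.d v)
  obtain ⟨c, hc0, hc⟩ := G.on r
  have hvc : G.d v ≠ G.d c := by rw [hc]; exact hr1.symm
  obtain ⟨c', hcc⟩ := G.hm_exists hv hw hvw hc0 hvc
  have E1 : ∀ x, x ≠ 0 → G.d x ≠ G.d v → ∃ y, G.Hm v w x y :=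
    fun x hx h => G.hm_exists hv hw hvw hx h.symm
  have E2 : ∀ x, x ≠ 0 → G.d x = G.d v → ∃ y, G.Hm c c' x y :=
    fun x hx h => G.hm_exists hcc.x0 hcc.y0 hcc.dxy hx (by rw [h]; exact hvc.symm)
  choose! f1 hf1 using E1
  choose! f2 hf2 using E2
  obtain ⟨f, hf⟩ : ∃ f : V → V, f = fun x => if x = 0 then 0 else
    (if G.d x = G.d v then f2 x else f1 x) := ⟨_, rfl⟩
  have f0 : f 0 = 0 := by rw [hf]; simp
  have F1 : ∀ x, x ≠ 0 → G.d x ≠ G.d v → G.Hm v w x (f x) := by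
    intro x hx h
    rw [hf]; simp only [hx, h, if_false]; exact hf1 x hx h
  have F2 : ∀ x, x ≠ 0 → G.d x ≠ G.d c → G.Hm c c' x (f x) := by
    intro x hx h
    by_cases h' : G.d x = G.d v
    · rw [hf]; simp only [hx, h', if_false, if_true]; exact hf2 x hx h'
    · exact Hm.of_hm G hcc (F1 x hx h') h.symm
  have fv : f v = w := G.hm_unique (F2 v hv hvc) (Hm.swap G hcc)
  have F3 : ∀ x, x ≠ 0 → f x ≠ 0 ∧ G.d (f x) = G.d x := by
    intro x hx
    by_cases h' : G.d x = G.d v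
    · have := F2 x hx (by rw [h']; exact hvc)
      exact ⟨this.y0, this.dxy.symm⟩
    · have := F1 x hx h'
      exact ⟨this.y0, this.dxy.symm⟩
  have key : ∀ x y, x ≠ 0 → y ≠ 0 → x ≠ y → G.d x = G.d v → G.d y = G.d c →
      f x ≠ f y ∧ G.d (x - y) = G.d (f x - f y) := by
    intro x y hx hy hxy hxv hyc
    obtain ⟨r, hr1, hr2, hr3⟩ := G.off (G.d v) (G.d c)
    obtain ⟨e, he0, he⟩ := G.on r
    have hev : G.d e ≠ G.d v := by rw [he]; exact hr1
    have hec : G.d e ≠ G.d c := by rw [he]; exact hr2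
    have P1 := Hm.of_hm G (F2 e he0 hec) (F2 x hx (by rw [hxv]; exact hvc)) (by rw [hxv]; exact hev)
    have P2 := Hm.of_hm G (F1 e he0 hev) (F1 y hy (by rw [hyc]; exact hvc.symm))
      (by rw [hyc]; exact hec)
    exact G.hm P1 P2 hxy
  refine ⟨f, f0, fv, F3, ?_⟩
  intro x y hxy
  by_cases hx : x = 0
  · subst hx
    have hy : y ≠ 0 := hxy.symm
    rw [f0, zero_sub, zero_sub, G.neg y hy, G.neg _ (F3 y hy).1, (F3 y hy).2]
  by_cases hy : y = 0
  · subst hy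
    rw [f0, sub_zero, sub_zero, (F3 x hx).2]
  by_cases hxv : G.d x = G.d v
  · by_cases hyc : G.d y = G.d c
    · exact (key x y hx hy hxy hxv hyc).2
    · exact (G.hm (F2 x hx (by rw [hxv]; exact hvc)) (F2 y hy hyc) hxy).2
  · by_cases hyv : G.d y = G.d v
    · by_cases hxc : G.d x = G.d c
      · obtain ⟨k1, k2⟩ := key y x hy hx hxy.symm hyv hxc
        rw [G.d_sub_comm hxy, k2, G.d_sub_comm k1]
      · exact (G.hm (F2 x hx hxc) (F2 y hy (by rw [hyv]; exact hvc)) hxy).2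
    · exact (G.hm (F1 x hx hxv) (F1 y hy hyv) hxy).2

theorem homothety {v w : V} (hv : v ≠ 0) (hw : w ≠ 0) (hvw : G.d v = G.d w) :
    ∃ φ : V →+ V, φ v = w ∧ ∀ u x, G.C u x → G.C u (φ x) := by
  obtain ⟨f, f0, fv, f3, f4⟩ := G.homothety_fun hv hw hvw
  have fC : ∀ u x, G.C u x → G.C u (f x) := by
    intro u x hx
    by_cases h0 : x = 0
    · subst h0; rw [f0]; exact G.C_zero u
    · right
      rw [(f3 x h0).2, G.C_dir h0 hx]
  have add1 : ∀ x y, x ≠ 0 → y ≠ 0 → G.d x ≠ G.d y → f (x + y) = f x + f y := by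
    intro x y hx hy hxy
    have hx' : x + y ≠ x := by simpa using hy
    have hy' : x + y ≠ y := by simpa using hx
    have h1 : G.C (G.d y) (f (x + y) - f x) := by
      right
      rw [← f4 _ _ hx']
      congr 1
      abel
    have h2 : G.C (G.d x) (f (x + y) - f y) := by
      right
      rw [← f4 _ _ hy']
      congr 1
      abel
    have h3 : G.C (G.d y) (f (x + y) - f x - f y) := G.C_sub h1 (Or.inr (f3 y hy).2)
    have h4 : G.C (G.d x) (f (x + y) - f x - f y) := by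
      have : f (x + y) - f x - f y = (f (x + y) - f y) - f x := by abel
      rw [this]
      exact G.C_sub h2 (Or.inr (f3 x hx).2)
    have h5 := G.C_inter hxy h4 h3
    rw [sub_sub] at h5
    exact sub_eq_zero.mp h5
  have add2 : ∀ x y, f (x + y) = f x + f y := by
    intro x y
    by_cases hx : x = 0
    · subst hx; rw [f0, zero_add, zero_add]
    by_cases hy : y = 0
    · subst hy; rw [f0, add_zero, add_zero]
    by_cases hxy : G.d x = G.d y
    swap
    · exact add1 x y hx hy hxy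
    obtain ⟨r, hr, _, _⟩ := G.off (G.d x) (G.d x)
    obtain ⟨z, hz0, hz⟩ := G.on r
    have hzx : G.d x ≠ G.d z := by rw [hz]; exact hr.symm
    have hzy : G.d y ≠ G.d z := by rw [← hxy]; exact hzx
    obtain ⟨t1, t2, t3, t4⟩ := G.tri_add hy hz0 hzy
    have e1 : f (x + (y + z)) = f x + (f y + f z) := by
      rw [add1 x (y + z) hx t1 (by rw [hxy]; exact t3.symm), add1 y z hy hz0 hzy]
    by_cases h0 : x + y = 0
    · rw [h0, f0]
      have : x + (y + z) = z := by rw [← add_assoc, h0, zero_add]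
      rw [this, ← add_assoc] at e1
      exact (right_eq_add.mp e1).symm
    · have hd : G.d (x + y) = G.d x := G.same x y hx hy h0 hxy
      have e2 : f ((x + y) + z) = f (x + y) + f z := add1 _ _ h0 hz0 (by rw [hd]; exact hzx)
      rw [add_assoc, e1, ← add_assoc] at e2
      exact (add_right_cancel e2).symm
  exact ⟨{ toFun := f, map_zero' := f0, map_add' := add2 }, fv, fC⟩

/-- The kernel of the structure: additive endomorphisms preserving all components. -/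
def K : Subring (AddMonoid.End V) where
  carrier := {φ | ∀ u x, G.C u x → G.C u (φ x)}
  mul_mem' := by
    intro a b ha hb u x hx
    exact ha u _ (hb u x hx)
  one_mem' := by
    intro u x hx
    exact hx
  add_mem' := by
    intro a b ha hb u x hx
    exact G.C_add (ha u x hx) (hb u x hx)
  zero_mem' := by
    intro u x hx
    exact G.C_zero u
  neg_mem' := by
    intro a ha u x hx
    exact G.C_neg (ha u x hx)

theorem K_inj {φ : AddMonoid.End V} (hφ : φ ∈ G.K) {v : V} (hv : v ≠ 0) (h : φ v = 0) :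
    φ = 0 := by
  have key : ∀ v x, v ≠ 0 → φ v = 0 → x ≠ 0 → G.d x ≠ G.d v → φ x = 0 := by
    intro v x hv h hx hxv
    obtain ⟨t1, t2, t3, t4⟩ := G.tri_add hx hv hxv
    have h1 : G.C (G.d x) (φ x) := hφ _ _ (G.C_self x)
    have h2 : G.C (G.d (x + v)) (φ x) := by
      have : φ x = φ (x + v) := by rw [map_add, h, add_zero]
      rw [this]
      exact hφ _ _ (G.C_self _)
    exact G.C_inter t3.symm h1 h2
  ext x
  change φ x = 0
  by_cases hx : x = 0
  · subst hx; exact map_zero φ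
  by_cases hxv : G.d x = G.d v
  · obtain ⟨r, hr, _, _⟩ := G.off (G.d v) (G.d v)
    obtain ⟨z, hz0, hz⟩ := G.on r
    have h1 := key v z hv h hz0 (by rw [hz]; exact hr)
    exact key z x hz0 h1 hx (by rw [hz, hxv]; exact hr.symm)
  · exact key v x hv h hx hxv

end Vec

end Pool.Agent.MP84111f
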