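import Mathlib
import Pool.Agent.Lib.MP_84111f_co.Homoth

/-!
# The coordinate field
-/

namespace Pool.Agent.MP84111f

namespace Vec

variable {V H : Type} [AddCommGroup V] (G : Vec V H)

theorem exists_field [Finite V] [Nontrivial V] :
    ∃ (K : Type) (_ : Field K) (_ : Finite K) (_ : Module K V),
      ∀ v w : V, v ≠ 0 → (G.C (G.d v) w ↔ ∃ c : K, c • v = w) := by
  obtain ⟨v0, hv0⟩ := exists_ne (0 : V)
  have hfin : Finite (AddMonoid.End V) := DFunLike.finite (AddMonoid.End V)
  have hfinK : Finite G.K := Subtype.finite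
  have hnt : Nontrivial G.K := by
    refine ⟨0, 1, ?_⟩
    intro h
    have h1 := congrArg (fun f : G.K => (f : AddMonoid.End V) v0) h
    exact hv0 h1.symm
  have hnzd : NoZeroDivisors G.K := by
    refine ⟨?_⟩
    intro a b hab
    by_cases hb : (b : AddMonoid.End V) v0 = 0
    · right
      exact Subtype.ext (G.K_inj b.2 hv0 hb)
    · left
      have h1 : (a : AddMonoid.End V) ((b : AddMonoid.End V) v0) = 0 :=
        congrArg (fun f : G.K => (f : AddMonoid.End V) v0) hab
      exact Subtype.ext (G.K_inj a.2 hb h1)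
  have hdom : IsDomain G.K := NoZeroDivisors.to_isDomain G.K
  have hfield : IsField G.K := Finite.isDomain_to_isField G.K
  refine ⟨G.K, hfield.toField, hfinK, (inferInstance : Module G.K V), ?_⟩
  intro v w hv
  constructor
  · intro h
    by_cases hw : w = 0
    · subst hw
      exact ⟨(0 : G.K), rfl⟩
    · obtain ⟨φ, h1, h2⟩ := G.homothety hv hw (G.C_dir hw h).symm
      exact ⟨⟨φ, h2⟩, h1⟩
  · rintro ⟨c, rfl⟩
    exact c.2 _ _ (G.C_self v)

end Vec

end Pool.Agent.MP84111f
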