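import Mathlib
import Pool.Agent.Lib.MP_84111f_co.Arith

/-!
# Counting in rank-4 perfect matroid designs whose planes pairwise meet
-/

open Finset

namespace Pool.Agent.MP84111f

/-- points, lines and planes of a rank-4 perfect matroid design with pairwise meeting planes -/
structure Geo (P : Type) [Fintype P] [DecidableEq P] where
  lines : Finset (Finset P)
  planes : Finset (Finset P)
  l : ℕ
  k : ℕ
  l_two : 2 ≤ l
  line_card : ∀ L ∈ lines, L.card = l
  plane_card : ∀ F ∈ planes, F.card = k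
  line_ex : ∀ p q, p ≠ q → ∃ L ∈ lines, p ∈ L ∧ q ∈ L
  line_uniq : ∀ L ∈ lines, ∀ L' ∈ lines, ∀ p q, p ≠ q → p ∈ L → q ∈ L → p ∈ L' → q ∈ L' → L = L'
  plane_sub : ∀ F ∈ planes, ∀ L ∈ lines, ∀ p q, p ≠ q → p ∈ L → q ∈ L → p ∈ F → q ∈ F → L ⊆ F
  plane_ex : ∀ L ∈ lines, ∀ p, p ∉ L → ∃ F ∈ planes, L ⊆ F ∧ p ∈ F
  plane_uniq : ∀ F ∈ planes, ∀ F' ∈ planes, ∀ L ∈ lines, ∀ p, p ∉ L → L ⊆ F → p ∈ F →
    L ⊆ F' → p ∈ F' → F = F'
  plane_off_line : ∀ F ∈ planes, ∀ L ∈ lines, ∃ p ∈ F, p ∉ L
  off_plane : ∀ F ∈ planes, ∃ p, p ∉ F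
  exists_plane : planes.Nonempty
  meet : ∀ F ∈ planes, ∀ G ∈ planes, (F ∩ G).Nonempty

/-- counting a set partitioned by a family of finite sets -/
theorem part_count {P : Type} [DecidableEq P] (S : Finset (Finset P)) (X : Finset P) (a : ℕ)
    (h1 : ∀ L ∈ S, (X ∩ L).card = a) (h2 : ∀ x ∈ X, ∃ L ∈ S, x ∈ L)
    (h3 : ∀ x ∈ X, ∀ L ∈ S, ∀ L' ∈ S, x ∈ L → x ∈ L' → L = L') : S.card * a = X.card := by
  have := Finset.card_mul_eq_card_mul (s := S) (t := X) (r := fun L x => x ∈ L) (m := a) (n := 1)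
    (by
      intro L hL
      rw [← h1 L hL]
      congr 1)
    (by
      intro x hx
      obtain ⟨L, hL, hxL⟩ := h2 x hx
      rw [Finset.card_eq_one]
      refine ⟨L, ?_⟩
      ext L'
      simp only [Finset.mem_bipartiteBelow, Finset.mem_singleton]
      constructor
      · rintro ⟨hL', hxL'⟩
        exact h3 x hx L' hL' L hL hxL' hxL
      · rintro rfl
        exact ⟨hL, hxL⟩)
  simpa using this

namespace Geo

variable {P : Type} [Fintype P] [DecidableEq P] (g : Geo P)

/-- lines on `p` inside `F` -/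
def linesIn (p : P) (F : Finset P) : Finset (Finset P) := g.lines.filter (fun L => p ∈ L ∧ L ⊆ F)

/-- planes on `p` -/
def planesOn (p : P) : Finset (Finset P) := g.planes.filter (fun F => p ∈ F)

/-- planes on `L` -/
def planesThru (L : Finset P) : Finset (Finset P) := g.planes.filter (fun F => L ⊆ F)

theorem line_two {L : Finset P} (hL : L ∈ g.lines) (p : P) : ∃ q ∈ L, q ≠ p := by
  have h : 1 < L.card := by rw [g.line_card L hL]; have := g.l_two; omega
  obtain ⟨q, hq, hqp⟩ := Finset.exists_mem_ne h p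
  exact ⟨q, hq, hqp⟩

theorem linesIn_card {p : P} {F : Finset P} (hF : F ∈ g.planes) (hp : p ∈ F) :
    (g.linesIn p F).card * (g.l - 1) = g.k - 1 := by
  have := part_count (g.linesIn p F) (F.erase p) (g.l - 1) ?_ ?_ ?_
  · rw [this, Finset.card_erase_of_mem hp, g.plane_card F hF]
  · intro L hL
    simp only [linesIn, Finset.mem_filter] at hL
    obtain ⟨hL, hpL, hLF⟩ := hL
    have : F.erase p ∩ L = L.erase p := by
      ext x; simp only [Finset.mem_inter, Finset.mem_erase]
      constructor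
      · rintro ⟨⟨h1, h2⟩, h3⟩; exact ⟨h1, h3⟩
      · rintro ⟨h1, h3⟩; exact ⟨⟨h1, hLF h3⟩, h3⟩
    rw [this, Finset.card_erase_of_mem hpL, g.line_card L hL]
  · intro x hx
    rw [Finset.mem_erase] at hx
    obtain ⟨L, hL, hpL, hxL⟩ := g.line_ex p x hx.1.symm
    refine ⟨L, ?_, hxL⟩
    simp only [linesIn, Finset.mem_filter]
    exact ⟨hL, hpL, g.plane_sub F hF L hL p x hx.1.symm hpL hxL hp hx.2⟩
  · intro x hx L hL L' hL' hxL hxL'
    rw [Finset.mem_erase] at hx
    simp only [linesIn, Finset.mem_filter] at hL hL'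
    exact g.line_uniq L hL.1 L' hL'.1 p x hx.1.symm hL.2.1 hxL hL'.2.1 hxL'

theorem linesOn_card (p : P) :
    (g.linesIn p univ).card * (g.l - 1) = Fintype.card P - 1 := by
  have := part_count (g.linesIn p univ) (univ.erase p) (g.l - 1) ?_ ?_ ?_
  · rw [this, Finset.card_erase_of_mem (Finset.mem_univ p), Finset.card_univ]
  · intro L hL
    simp only [linesIn, Finset.mem_filter] at hL
    obtain ⟨hL, hpL, hLF⟩ := hL
    have : univ.erase p ∩ L = L.erase p := by
      ext x; simp [Finset.mem_inter, Finset.mem_erase]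
    rw [this, Finset.card_erase_of_mem hpL, g.line_card L hL]
  · intro x hx
    rw [Finset.mem_erase] at hx
    obtain ⟨L, hL, hpL, hxL⟩ := g.line_ex p x hx.1.symm
    refine ⟨L, ?_, hxL⟩
    simp only [linesIn, Finset.mem_filter]
    exact ⟨hL, hpL, Finset.subset_univ _⟩
  · intro x hx L hL L' hL' hxL hxL'
    rw [Finset.mem_erase] at hx
    simp only [linesIn, Finset.mem_filter] at hL hL'
    exact g.line_uniq L hL.1 L' hL'.1 p x hx.1.symm hL.2.1 hxL hL'.2.1 hxL'

theorem planesThru_card {L : Finset P} (hL : L ∈ g.lines) :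
    (g.planesThru L).card * (g.k - g.l) = Fintype.card P - g.l := by
  have := part_count (g.planesThru L) (univ \ L) (g.k - g.l) ?_ ?_ ?_
  · rw [this, Finset.card_sdiff_of_subset (Finset.subset_univ _), Finset.card_univ, g.line_card L hL]
  · intro F hF
    simp only [planesThru, Finset.mem_filter] at hF
    have : (univ \ L) ∩ F = F \ L := by
      ext x; simp [Finset.mem_inter, and_comm]
    rw [this, Finset.card_sdiff_of_subset hF.2, g.line_card L hL, g.plane_card F hF.1]
  · intro x hx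
    obtain ⟨F, hF, hLF, hxF⟩ := g.plane_ex L hL x (by simpa using hx)
    exact ⟨F, by simp only [planesThru, Finset.mem_filter]; exact ⟨hF, hLF⟩, hxF⟩
  · intro x hx F hF F' hF' hxF hxF'
    simp only [planesThru, Finset.mem_filter] at hF hF'
    exact g.plane_uniq F hF.1 F' hF'.1 L hL x (by simpa using hx) hF.2 hxF hF'.2 hxF'

theorem k_gt_l : g.l < g.k := by
  obtain ⟨F, hF⟩ := g.exists_plane
  have hne : F.Nonempty := by simpa using g.meet F hF F hF
  obtain ⟨p, hp⟩ := hne
  obtain ⟨q, hq⟩ := g.off_plane F hF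
  have hpq : p ≠ q := fun h => hq (h ▸ hp)
  obtain ⟨L0, hL0, hpL0, hqL0⟩ := g.line_ex p q hpq
  obtain ⟨p', hp', hp'L⟩ := g.plane_off_line F hF L0 hL0
  have hpp' : p ≠ p' := fun h => hp'L (h ▸ hpL0)
  obtain ⟨L, hL, hpL, hp'L'⟩ := g.line_ex p p' hpp'
  have hLF := g.plane_sub F hF L hL p p' hpp' hpL hp'L' hp hp'
  obtain ⟨x, hx, hxL⟩ := g.plane_off_line F hF L hL
  have : L ⊂ F := by
    rw [Finset.ssubset_iff_of_subset hLF]
    exact ⟨x, hx, hxL⟩
  rw [← g.line_card L hL, ← g.plane_card F hF]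
  exact Finset.card_lt_card this

theorem v_gt_k : g.k < Fintype.card P := by
  obtain ⟨F, hF⟩ := g.exists_plane
  obtain ⟨q, hq⟩ := g.off_plane F hF
  rw [← g.plane_card F hF, ← Finset.card_univ]
  apply Finset.card_lt_card
  rw [Finset.ssubset_iff_of_subset (Finset.subset_univ _)]
  exact ⟨q, Finset.mem_univ _, hq⟩

/-- number of lines on a point in a plane -/
def kap : ℕ := (g.k - 1) / (g.l - 1)

/-- number of planes on a line -/
def lam : ℕ := (Fintype.card P - g.l) / (g.k - g.l)

/-- number of lines on a point -/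
def www : ℕ := (Fintype.card P - 1) / (g.l - 1)

theorem linesIn_card' {p : P} {F : Finset P} (hF : F ∈ g.planes) (hp : p ∈ F) :
    (g.linesIn p F).card = g.kap := by
  have := g.l_two
  rw [kap, ← g.linesIn_card hF hp, Nat.mul_div_cancel]
  omega

theorem linesOn_card' (p : P) : (g.linesIn p univ).card = g.www := by
  have := g.l_two
  rw [www, ← g.linesOn_card p, Nat.mul_div_cancel]
  omega

theorem planesThru_card' {L : Finset P} (hL : L ∈ g.lines) : (g.planesThru L).card = g.lam := by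
  have := g.k_gt_l
  rw [lam, ← g.planesThru_card hL, Nat.mul_div_cancel]
  omega

theorem exists_flag : ∃ F ∈ g.planes, ∃ L ∈ g.lines, ∃ p ∈ F, ∃ q ∉ F, p ∈ L ∧ q ∈ L := by
  obtain ⟨F, hF⟩ := g.exists_plane
  have hne : F.Nonempty := by simpa using g.meet F hF F hF
  obtain ⟨p, hp⟩ := hne
  obtain ⟨q, hq⟩ := g.off_plane F hF
  have hpq : p ≠ q := fun h => hq (h ▸ hp)
  obtain ⟨L0, hL0, hpL0, hqL0⟩ := g.line_ex p q hpq
  exact ⟨F, hF, L0, hL0, p, hp, q, hq, hpL0, hqL0⟩

theorem k_eq : g.k = 1 + g.kap * (g.l - 1) := by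
  obtain ⟨F, hF, L, hL, p, hp, q, hq, hpL, hqL⟩ := g.exists_flag
  have h1 := g.linesIn_card hF hp
  rw [g.linesIn_card' hF hp] at h1
  have := g.k_gt_l
  omega

theorem v_eq : Fintype.card P = 1 + g.www * (g.l - 1) := by
  obtain ⟨F, hF, L, hL, p, hp, q, hq, hpL, hqL⟩ := g.exists_flag
  have h1 := g.linesOn_card p
  rw [g.linesOn_card' p] at h1
  have := g.k_gt_l
  have := g.v_gt_k
  omega

theorem v_eq' : Fintype.card P = g.l + g.lam * (g.k - g.l) := by
  obtain ⟨F, hF, L, hL, p, hp, q, hq, hpL, hqL⟩ := g.exists_flag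
  have h1 := g.planesThru_card hL
  rw [g.planesThru_card' hL] at h1
  have := g.k_gt_l
  have := g.v_gt_k
  omega

/-- lines on `p` in `F` outside a set `B` of lines cover each line of `F` off `p` that they have to -/
theorem le_of_cover {F L : Finset P} {p : P} (hF : F ∈ g.planes) (hL : L ∈ g.lines)
    (hLF : L ⊆ F) (hp : p ∈ F) (hpL : p ∉ L) (B : Finset (Finset P))
    (hB : ∀ M ∈ B, M ∩ L = ∅) : g.l ≤ (g.linesIn p F \ B).card := by
  have := Finset.card_mul_le_card_mul (s := L) (t := g.linesIn p F \ B)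
    (r := fun x M => x ∈ M) (m := 1) (n := 1) ?_ ?_
  · rw [g.line_card L hL] at this
    omega
  · intro x hx
    rw [Nat.one_le_iff_ne_zero, Finset.card_ne_zero]
    have hxp : x ≠ p := fun h => hpL (h ▸ hx)
    obtain ⟨M, hM, hxM, hpM⟩ := g.line_ex x p hxp
    refine ⟨M, ?_⟩
    simp only [Finset.mem_bipartiteAbove, linesIn, Finset.mem_filter, Finset.mem_sdiff]
    refine ⟨⟨⟨hM, hpM, g.plane_sub F hF M hM x p hxp hxM hpM (hLF hx) hp⟩, ?_⟩, hxM⟩
    intro hMB
    have := hB M hMB
    have hx2 : x ∈ M ∩ L := Finset.mem_inter.mpr ⟨hxM, hx⟩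
    rw [this] at hx2
    simp at hx2
  · intro M hM
    simp only [linesIn, Finset.mem_filter, Finset.mem_sdiff] at hM
    obtain ⟨⟨hM, hpM, hMF⟩, hMB⟩ := hM
    rw [Finset.card_le_one]
    intro x hx y hy
    simp only [Finset.mem_bipartiteBelow] at hx hy
    by_contra hne
    have : L = M := g.line_uniq L hL M hM x y hne hx.1 hy.1 hx.2 hy.2
    exact hpL (this ▸ hpM)

theorem kap_ge : g.l ≤ g.kap := by
  obtain ⟨F, hF, L0, hL0, p, hp, q, hq, hpL, hqL⟩ := g.exists_flag
  obtain ⟨p', hp', hp'L⟩ := g.plane_off_line F hF L0 hL0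
  have hpp' : p ≠ p' := fun h => hp'L (h ▸ hpL)
  obtain ⟨L, hL, hpL', hp'L'⟩ := g.line_ex p p' hpp'
  have hLF := g.plane_sub F hF L hL p p' hpp' hpL' hp'L' hp hp'
  obtain ⟨x, hx, hxL⟩ := g.plane_off_line F hF L hL
  have := g.le_of_cover hF hL hLF hx hxL ∅ (by simp)
  rwa [Finset.sdiff_empty, g.linesIn_card' hF hx] at this

theorem lines_meet (h : g.kap = g.l) {F L L' : Finset P} (hF : F ∈ g.planes) (hL : L ∈ g.lines)
    (hL' : L' ∈ g.lines) (hLF : L ⊆ F) (hLF' : L' ⊆ F) : (L ∩ L').Nonempty := by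
  by_contra hne
  rw [Finset.not_nonempty_iff_eq_empty] at hne
  have hlt := g.l_two
  have hn : 0 < L'.card := by rw [g.line_card L' hL']; omega
  obtain ⟨p, hp⟩ := Finset.card_pos.mp hn
  have hpL : p ∉ L := by
    intro h
    have : p ∈ L ∩ L' := Finset.mem_inter.mpr ⟨h, hp⟩
    rw [hne] at this
    simp at this
  have := g.le_of_cover hF hL hLF (hLF' hp) hpL {L'} (by
    intro M hM
    rw [Finset.mem_singleton] at hM
    subst hM
    rw [Finset.inter_comm]; exact hne)
  rw [Finset.card_sdiff_of_subset, g.linesIn_card' hF (hLF' hp), Finset.card_singleton, h] at this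
  · omega
  · rw [Finset.singleton_subset_iff]
    simp only [linesIn, Finset.mem_filter]
    exact ⟨hL', hp, hLF'⟩

theorem lam_ge : g.kap ≤ g.lam := by
  obtain ⟨F, hF, L0, hL0, p, hp, q, hq, hpL, hqL⟩ := g.exists_flag
  have := Finset.card_mul_le_card_mul (s := g.linesIn p F) (t := g.planesThru L0)
    (r := fun M G => M ⊆ G) (m := 1) (n := 1) ?_ ?_
  · rw [g.linesIn_card' hF hp, g.planesThru_card' hL0] at this
    omega
  · intro M hM
    simp only [linesIn, Finset.mem_filter] at hM
    obtain ⟨hM, hpM, hMF⟩ := hM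
    rw [Nat.one_le_iff_ne_zero, Finset.card_ne_zero]
    obtain ⟨x, hxM, hxp⟩ := g.line_two hM p
    have hxL : x ∉ L0 := by
      intro hxL
      have : M = L0 := g.line_uniq M hM L0 hL0 x p hxp hxM hpM hxL hpL
      exact hq (hMF (this ▸ hqL))
    obtain ⟨G, hG, hLG, hxG⟩ := g.plane_ex L0 hL0 x hxL
    refine ⟨G, ?_⟩
    simp only [Finset.mem_bipartiteAbove, planesThru, Finset.mem_filter]
    exact ⟨⟨hG, hLG⟩, g.plane_sub G hG M hM x p hxp hxM hpM hxG (hLG hpL)⟩
  · intro G hG
    simp only [planesThru, Finset.mem_filter] at hG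
    rw [Finset.card_le_one]
    intro M hM M' hM'
    simp only [Finset.mem_bipartiteBelow, linesIn, Finset.mem_filter] at hM hM'
    obtain ⟨⟨hM, hpM, hMF⟩, hMG⟩ := hM
    obtain ⟨⟨hM', hpM', hMF'⟩, hMG'⟩ := hM'
    by_contra hne
    obtain ⟨x, hxM, hxp⟩ := g.line_two hM' p
    have hxM' : x ∉ M := fun h => hne (g.line_uniq M hM M' hM' x p hxp h hpM hxM hpM')
    have : F = G := g.plane_uniq F hF G hG.1 M hM x hxM' hMF (hMF' hxM) hMG (hMG' hxM)
    exact hq (this ▸ hG.2 hqL)

theorem w_eq : g.www = 1 + g.lam * (g.kap - 1) := by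
  have h1 := g.v_eq
  have h2 := g.v_eq'
  have h3 := g.k_eq
  have h4 := g.k_gt_l
  have h5 := g.kap_ge
  have h6 := g.l_two
  obtain ⟨m, hm⟩ : ∃ m, g.l = m + 1 := ⟨g.l - 1, by omega⟩
  obtain ⟨a, ha⟩ : ∃ a, g.kap = a + 1 := ⟨g.kap - 1, by omega⟩
  have hkl : g.k - g.l = a * m := by
    have : g.k = g.l + a * m := by
      rw [h3, hm, ha]; simp; ring
    omega
  rw [hkl] at h2
  have hw : 1 + g.www * m = (m + 1) + g.lam * (a * m) := by
    rw [h1, hm] at h2
    simpa using h2
  have hmpos : 0 < m := by omega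
  have : g.www * m = (1 + g.lam * a) * m := by
    have e : (1 + g.lam * a) * m = m + g.lam * (a * m) := by ring
    omega
  have := Nat.eq_of_mul_eq_mul_right hmpos this
  rw [this, ha]; simp

/-- number of planes on a point times `kap` -/
theorem planesOn_card (p : P) : (g.planesOn p).card * g.kap = g.www * g.lam := by
  have := Finset.card_mul_eq_card_mul (s := g.linesIn p univ) (t := g.planesOn p)
    (r := fun M G => M ⊆ G) (m := g.lam) (n := g.kap) ?_ ?_
  · rw [g.linesOn_card'] at this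
    exact this.symm
  · intro M hM
    simp only [linesIn, Finset.mem_filter] at hM
    rw [← g.planesThru_card' hM.1]
    congr 1
    ext G
    simp only [Finset.mem_bipartiteAbove, planesOn, planesThru, Finset.mem_filter]
    constructor
    · rintro ⟨⟨h1, h2⟩, h3⟩; exact ⟨h1, h3⟩
    · rintro ⟨h1, h3⟩; exact ⟨⟨h1, h3 hM.2.1⟩, h3⟩
  · intro G hG
    simp only [planesOn, Finset.mem_filter] at hG
    rw [← g.linesIn_card' hG.1 hG.2]
    congr 1
    ext M
    simp only [Finset.mem_bipartiteBelow, linesIn, Finset.mem_filter]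
    constructor
    · rintro ⟨⟨h1, h2, h3⟩, h4⟩; exact ⟨h1, h2, h4⟩
    · rintro ⟨h1, h2, h3⟩; exact ⟨⟨h1, h2, Finset.subset_univ _⟩, h3⟩

/-- number of planes on a point -/
def rrr : ℕ := g.www * g.lam / g.kap

theorem kap_pos : 0 < g.kap := by have := g.kap_ge; have := g.l_two; omega

theorem planesOn_card' (p : P) : (g.planesOn p).card = g.rrr := by
  rw [rrr, ← g.planesOn_card p, Nat.mul_div_cancel _ g.kap_pos]

theorem r_eq : g.rrr * g.kap = g.www * g.lam := by
  obtain ⟨F, hF, L, hL, p, hp, q, hq, hpL, hqL⟩ := g.exists_flag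
  rw [← g.planesOn_card' p, g.planesOn_card]

theorem b_eq : g.planes.card * g.k = Fintype.card P * g.rrr := by
  have := Finset.card_mul_eq_card_mul (s := g.planes) (t := (univ : Finset P))
    (r := fun G x => x ∈ G) (m := g.k) (n := g.rrr) ?_ ?_
  · rw [this, Finset.card_univ]
  · intro G hG
    rw [← g.plane_card G hG]
    congr 1
    ext x
    simp [Finset.mem_bipartiteAbove]
  · intro x _
    rw [← g.planesOn_card' x]
    congr 1

/-- lines in a plane -/
theorem N_eq {F : Finset P} (hF : F ∈ g.planes) :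
    (g.lines.filter (fun L => L ⊆ F)).card * g.l = g.k * g.kap := by
  have := Finset.card_mul_eq_card_mul (s := g.lines.filter (fun L => L ⊆ F)) (t := F)
    (r := fun G x => x ∈ G) (m := g.l) (n := g.kap) ?_ ?_
  · rw [this, g.plane_card F hF]
  · intro L hL
    simp only [Finset.mem_filter] at hL
    rw [← g.line_card L hL.1]
    congr 1
    ext x
    simp only [Finset.mem_bipartiteAbove]
    exact ⟨fun h => h.2, fun h => ⟨hL.2 h, h⟩⟩
  · intro x hx
    rw [← g.linesIn_card' hF hx]
    congr 1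
    ext M
    simp only [Finset.mem_bipartiteBelow, linesIn, Finset.mem_filter]
    tauto

/-- two distinct planes share a point or a line -/
theorem inter_card {F G : Finset P} (hF : F ∈ g.planes) (hG : G ∈ g.planes) (hne : F ≠ G) :
    (F ∩ G).card = 1 + (g.l - 1) * (g.lines.filter (fun L => L ⊆ F ∧ L ⊆ G)).card := by
  obtain ⟨p, hp⟩ := g.meet F hF G hG
  rw [Finset.mem_inter] at hp
  have hlt := g.l_two
  by_cases h : ∃ q, q ∈ F ∩ G ∧ q ≠ p
  · obtain ⟨q, hq, hqp⟩ := h
    rw [Finset.mem_inter] at hq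
    obtain ⟨L, hL, hqL, hpL⟩ := g.line_ex q p hqp
    have hLF := g.plane_sub F hF L hL q p hqp hqL hpL hq.1 hp.1
    have hLG := g.plane_sub G hG L hL q p hqp hqL hpL hq.2 hp.2
    have h1 : F ∩ G = L := by
      apply Finset.Subset.antisymm
      · intro x hx
        rw [Finset.mem_inter] at hx
        by_contra hxL
        exact hne (g.plane_uniq F hF G hG L hL x hxL hLF hx.1 hLG hx.2)
      · exact Finset.subset_inter hLF hLG
    have h2 : g.lines.filter (fun L => L ⊆ F ∧ L ⊆ G) = {L} := by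
      ext M
      simp only [Finset.mem_filter, Finset.mem_singleton]
      constructor
      · rintro ⟨hM, hMF, hMG⟩
        have hML : M ⊆ L := h1 ▸ Finset.subset_inter hMF hMG
        apply Finset.eq_of_subset_of_card_le hML
        rw [g.line_card L hL, g.line_card M hM]
      · rintro rfl
        exact ⟨hL, hLF, hLG⟩
    rw [h1, h2, g.line_card L hL, Finset.card_singleton]
    omega
  · push Not at h
    have h1 : F ∩ G = {p} := by
      ext x
      simp only [Finset.mem_singleton]
      constructor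
      · intro hx; exact h x hx
      · rintro rfl; rw [Finset.mem_inter]; exact hp
    have h2 : g.lines.filter (fun L => L ⊆ F ∧ L ⊆ G) = ∅ := by
      rw [Finset.filter_eq_empty_iff]
      rintro M hM ⟨hMF, hMG⟩
      obtain ⟨q, hqM, hqp⟩ := g.line_two hM p
      exact hqp (h q (Finset.mem_inter.mpr ⟨hMF hqM, hMG hqM⟩))
    rw [h1, h2]; simp

/-- the key count from a fixed plane -/
theorem key_count {F : Finset P} (hF : F ∈ g.planes) :
    g.k * (g.rrr - 1) = (g.planes.card - 1) +
      (g.l - 1) * ((g.lines.filter (fun L => L ⊆ F)).card * (g.lam - 1)) := by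
  have h1 : ∑ G ∈ g.planes.erase F, (F ∩ G).card = g.k * (g.rrr - 1) := by
    have := Finset.sum_card_bipartiteAbove_eq_sum_card_bipartiteBelow
      (s := g.planes.erase F) (t := F) (r := fun G x => x ∈ G)
    have e1 : ∑ a ∈ g.planes.erase F, (Finset.bipartiteAbove (fun G x => x ∈ G) F a).card
        = ∑ G ∈ g.planes.erase F, (F ∩ G).card := by
      apply Finset.sum_congr rfl
      intro G _
      congr 1
    have e2 : ∑ b ∈ F, (Finset.bipartiteBelow (fun G x => x ∈ G) (g.planes.erase F) b).card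
        = ∑ b ∈ F, (g.rrr - 1) := by
      apply Finset.sum_congr rfl
      intro x hx
      have : Finset.bipartiteBelow (fun G x => x ∈ G) (g.planes.erase F) x =
          (g.planesOn x).erase F := by
        ext G
        simp only [Finset.mem_bipartiteBelow, planesOn, Finset.mem_filter, Finset.mem_erase]
        tauto
      rw [this, Finset.card_erase_of_mem, g.planesOn_card']
      simp only [planesOn, Finset.mem_filter]
      exact ⟨hF, hx⟩
    rw [← e1, this, e2, Finset.sum_const, g.plane_card F hF, smul_eq_mul]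
  have h2 : ∑ G ∈ g.planes.erase F, (g.lines.filter (fun L => L ⊆ F ∧ L ⊆ G)).card =
      (g.lines.filter (fun L => L ⊆ F)).card * (g.lam - 1) := by
    have := Finset.sum_card_bipartiteAbove_eq_sum_card_bipartiteBelow
      (s := g.planes.erase F) (t := g.lines.filter (fun L => L ⊆ F)) (r := fun G L => L ⊆ G)
    have e1 : ∑ a ∈ g.planes.erase F,
        (Finset.bipartiteAbove (fun G L => L ⊆ G) (g.lines.filter (fun L => L ⊆ F)) a).card
        = ∑ G ∈ g.planes.erase F, (g.lines.filter (fun L => L ⊆ F ∧ L ⊆ G)).card := by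
      apply Finset.sum_congr rfl
      intro G _
      congr 1
      ext L
      simp only [Finset.mem_bipartiteAbove, Finset.mem_filter]
      tauto
    have e2 : ∑ b ∈ g.lines.filter (fun L => L ⊆ F),
        (Finset.bipartiteBelow (fun G L => L ⊆ G) (g.planes.erase F) b).card
        = ∑ b ∈ g.lines.filter (fun L => L ⊆ F), (g.lam - 1) := by
      apply Finset.sum_congr rfl
      intro L hL
      rw [Finset.mem_filter] at hL
      have : Finset.bipartiteBelow (fun G L => L ⊆ G) (g.planes.erase F) L =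
          (g.planesThru L).erase F := by
        ext G
        simp only [Finset.mem_bipartiteBelow, planesThru, Finset.mem_filter, Finset.mem_erase]
        tauto
      rw [this, Finset.card_erase_of_mem, g.planesThru_card' hL.1]
      simp only [planesThru, Finset.mem_filter]
      exact ⟨hF, hL.2⟩
    rw [← e1, this, e2, Finset.sum_const, smul_eq_mul]
  have h3 : ∑ G ∈ g.planes.erase F, (F ∩ G).card = ∑ G ∈ g.planes.erase F,
      (1 + (g.l - 1) * (g.lines.filter (fun L => L ⊆ F ∧ L ⊆ G)).card) := by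
    apply Finset.sum_congr rfl
    intro G hG
    rw [Finset.mem_erase] at hG
    exact g.inter_card hF hG.2 hG.1.symm
  rw [← h1, h3, Finset.sum_add_distrib, Finset.sum_const, smul_eq_mul, mul_one,
    ← Finset.mul_sum, h2, Finset.card_erase_of_mem hF]

/-- The parameters are those of projective spaces (or Boolean algebras). -/
theorem params : g.kap = g.l ∧ (g.lam = g.l ∨ g.lam = (g.l - 1) ^ 2 + g.l) := by
  obtain ⟨F, hF⟩ := g.exists_plane
  have hl := g.l_two
  have hx := g.kap_ge
  have hy := g.lam_ge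
  have hr := g.r_eq
  have hw := g.w_eq
  have hk := g.k_eq
  have hv := g.v_eq
  have hb := g.b_eq
  have hN := g.N_eq hF
  have hc := g.key_count hF
  have hkl := g.k_gt_l
  have hvk := g.v_gt_k
  have hrpos : 0 < g.rrr := by
    by_contra h
    have h0 : g.rrr = 0 := by omega
    rw [h0] at hr
    have h1 : 0 < g.www := by rw [hw]; omega
    have h2 : 0 < g.www * g.lam := Nat.mul_pos h1 (by omega)
    omega
  have hbpos : 0 < g.planes.card := Finset.card_pos.mpr ⟨F, hF⟩
  obtain ⟨m, hm⟩ : ∃ m, g.l = m + 1 := ⟨g.l - 1, by omega⟩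
  set N := (g.lines.filter (fun L => L ⊆ F)).card with hNdef
  have hm1 : g.l - 1 = m := by omega
  have Hk : (g.k : ℤ) = 1 + g.kap * m := by
    rw [hm1] at hk; exact_mod_cast hk
  have Hv : ((Fintype.card P : ℕ) : ℤ) = 1 + g.www * m := by
    rw [hm1] at hv; exact_mod_cast hv
  have Hw : (g.www : ℤ) = 1 + g.lam * ((g.kap : ℤ) - 1) := by
    rw [hw]; push_cast [Nat.cast_sub (show 1 ≤ g.kap by omega)]; ring
  have Hr : (g.rrr : ℤ) * g.kap = g.www * g.lam := by exact_mod_cast hr
  have Hb : (g.planes.card : ℤ) * g.k = (Fintype.card P : ℕ) * g.rrr := by exact_mod_cast hb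
  have HN : (N : ℤ) * (m + 1) = g.k * g.kap := by
    rw [hm] at hN; exact_mod_cast hN
  have Hc : (g.k : ℤ) * ((g.rrr : ℤ) - 1) = ((g.planes.card : ℤ) - 1) +
      m * ((N : ℤ) * ((g.lam : ℤ) - 1)) := by
    rw [hm1] at hc
    have := congrArg (Nat.cast : ℕ → ℤ) hc
    push_cast [Nat.cast_sub (show 1 ≤ g.rrr by omega), Nat.cast_sub (show 1 ≤ g.planes.card by omega),
      Nat.cast_sub (show 1 ≤ g.lam by omega)] at this
    exact this
  have Hm : (1 : ℤ) ≤ m := by omega
  have Hx : (m : ℤ) + 1 ≤ g.kap := by omega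
  have Hy : (g.kap : ℤ) ≤ g.lam := by omega
  have quad := quad_of_count m g.kap g.lam g.www g.rrr g.k (Fintype.card P : ℕ) g.planes.card N
    Hm Hx Hy Hk Hv Hw Hr Hb HN Hc
  have hD : (g.kap : ℤ) ∣ (g.lam : ℤ) * ((g.lam : ℤ) - 1) := by
    refine ⟨(g.lam : ℤ) ^ 2 - g.rrr, ?_⟩
    rw [Hw] at Hr
    linear_combination Hr
  obtain ⟨h1, h2⟩ := arith_main m g.kap g.lam Hm Hx Hy hD quad
  constructor
  · omega
  · rcases h2 with h2 | h2
    · left; omega
    · right
      rw [hm1, hm]
      zify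
      linarith

end Geo

end Pool.Agent.MP84111f
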