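import Mathlib
import Pool.Agent.Lib.MP_84111f_co.Coord

/-!
# Finite projective spaces: hyperplanes, the affine complement
-/

namespace Pool.Agent.MP84111f

/-- projective space given by its lines and planes -/
structure Proj (P : Type) where
  ln : P → P → Set P
  pl : Set (Set P)
  ln_left : ∀ a b, a ≠ b → a ∈ ln a b
  ln_right : ∀ a b, a ≠ b → b ∈ ln a b
  ln_eq : ∀ a b c d, a ≠ b → c ≠ d → c ∈ ln a b → d ∈ ln a b → ln c d = ln a b
  pl_sub : ∀ F ∈ pl, ∀ a b, a ≠ b → a ∈ F → b ∈ F → ln a b ⊆ F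
  pl_meet : ∀ F ∈ pl, ∀ a b c d, a ≠ b → c ≠ d → a ∈ F → b ∈ F → c ∈ F → d ∈ F →
    (ln a b ∩ ln c d).Nonempty
  pl_ex : ∀ a b c, ∃ F ∈ pl, a ∈ F ∧ b ∈ F ∧ c ∈ F
  pl_off : ∀ F ∈ pl, ∃ p, p ∉ F
  three : ∀ a b, a ≠ b → ∃ c ∈ ln a b, c ≠ a ∧ c ≠ b

namespace Proj

variable {P : Type} (G : Proj P)

theorem ln_comm {a b : P} (h : a ≠ b) : G.ln b a = G.ln a b :=
  G.ln_eq a b b a h h.symm (G.ln_right a b h) (G.ln_left a b h)

theorem ln_eq' {a b c d w w' : P} (hab : a ≠ b) (hcd : c ≠ d) (hw : w ≠ w')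
    (h1 : w ∈ G.ln a b) (h2 : w' ∈ G.ln a b) (h3 : w ∈ G.ln c d) (h4 : w' ∈ G.ln c d) :
    G.ln a b = G.ln c d := by
  rw [← G.ln_eq a b w w' hab hw h1 h2, ← G.ln_eq c d w w' hcd hw h3 h4]

/-- subspaces -/
def IsSub (S : Set P) : Prop := ∀ a b, a ≠ b → a ∈ S → b ∈ S → G.ln a b ⊆ S

/-- join of a subspace and a point -/
def join (S : Set P) (p : P) : Set P := {x | x = p ∨ ∃ s ∈ S, x ∈ G.ln p s}

theorem join_sub {S : Set P} (hS : G.IsSub S) {p : P} (hp : p ∉ S) : G.IsSub (G.join S p) := by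
  intro x y hxy hx hy z hz
  have hps : ∀ s ∈ S, p ≠ s := fun s hs h => hp (h ▸ hs)
  by_cases hzp : z = p
  · exact Or.inl hzp
  by_cases hxp : x = p
  · subst hxp
    rcases hy with rfl | ⟨s, hs, hys⟩
    · exact absurd rfl hxy
    · right
      refine ⟨s, hs, ?_⟩
      rw [G.ln_eq x s x y (hps s hs) hxy (G.ln_left _ _ (hps s hs)) hys] at hz
      exact hz
  by_cases hyp : y = p
  · subst hyp
    rcases hx with rfl | ⟨s, hs, hys⟩
    · exact absurd rfl hxy
    · right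
      refine ⟨s, hs, ?_⟩
      rw [G.ln_eq y s x y (hps s hs) hxy hys (G.ln_left _ _ (hps s hs))] at hz
      exact hz
  obtain ⟨s, hs, hxs⟩ := hx.resolve_left hxp
  obtain ⟨t, ht, hyt⟩ := hy.resolve_left hyp
  by_cases hst : s = t
  · subst hst
    right
    refine ⟨s, hs, ?_⟩
    rw [G.ln_eq p s x y (hps s hs) hxy hxs hyt] at hz
    exact hz
  obtain ⟨F, hF, hpF, hsF, htF⟩ := G.pl_ex p s t
  have hxF : x ∈ F := G.pl_sub F hF p s (hps s hs) hpF hsF hxs
  have hyF : y ∈ F := G.pl_sub F hF p t (hps t ht) hpF htF hyt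
  have hzF : z ∈ F := G.pl_sub F hF x y hxy hxF hyF hz
  obtain ⟨w, hw1, hw2⟩ := G.pl_meet F hF p z s t (Ne.symm hzp) hst hpF hzF hsF htF
  have hwS : w ∈ S := hS s t hst hs ht hw2
  right
  refine ⟨w, hwS, ?_⟩
  rw [G.ln_eq p z p w (Ne.symm hzp) (hps w hwS) (G.ln_left _ _ (Ne.symm hzp)) hw1]
  exact G.ln_right _ _ (Ne.symm hzp)

theorem exists_hyperplane [Finite P] [Nonempty P] :
    ∃ S : Set P, G.IsSub S ∧ (∃ p, p ∉ S) ∧ ∀ a b, a ≠ b → ∃ x, x ∈ G.ln a b ∧ x ∈ S := by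
  have hfin : {S : Set P | G.IsSub S ∧ ∃ p, p ∉ S}.Finite := Set.toFinite _
  have hne : {S : Set P | G.IsSub S ∧ ∃ p, p ∉ S}.Nonempty := by
    refine ⟨∅, ?_, Classical.arbitrary P, by simp⟩
    intro a b _ ha
    exact absurd ha (Set.notMem_empty a)
  obtain ⟨S, hS⟩ := hfin.exists_maximal hne
  obtain ⟨⟨hSub, p0, hp0⟩, hmax⟩ := hS
  refine ⟨S, hSub, ⟨p0, hp0⟩, ?_⟩
  intro a b hab
  by_contra hcon
  push Not at hcon
  have haS : a ∉ S := hcon a (G.ln_left a b hab)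
  have h1 : G.IsSub (G.join S a) := G.join_sub hSub haS
  have h2 : S ⊆ G.join S a := by
    intro s hs
    right
    refine ⟨s, hs, G.ln_right _ _ ?_⟩
    rintro rfl
    exact haS hs
  have h3 : b ∈ G.join S a := by
    by_contra hb
    have := hmax ⟨h1, b, hb⟩ h2
    exact haS (this (Or.inl rfl))
  rcases h3 with h3 | ⟨s, hs, hbs⟩
  · exact hab h3.symm
  · have has : a ≠ s := by rintro rfl; exact haS hs
    apply hcon s _ hs
    rw [G.ln_eq a s a b has hab (G.ln_left _ _ has) hbs]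
    exact G.ln_right _ _ has

section hyp

variable {S : Set P} (hS : G.IsSub S) (hmeet : ∀ a b, a ≠ b → ∃ x, x ∈ G.ln a b ∧ x ∈ S)

include hS in
theorem uniq {a b u u' : P} (ha : a ∉ S) (hab : a ≠ b) (hu : u ∈ G.ln a b) (huS : u ∈ S)
    (hu' : u' ∈ G.ln a b) (hu'S : u' ∈ S) : u = u' := by
  by_contra hne
  apply ha
  apply hS u u' hne huS hu'S
  rw [G.ln_eq a b u u' hab hne hu hu']
  exact G.ln_left _ _ hab

/-- point at infinity -/
noncomputable def inf (a b : P) : P :=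
  open Classical in if h : a ≠ b then Classical.choose (hmeet a b h) else a

theorem inf_mem {a b : P} (h : a ≠ b) : G.inf hmeet a b ∈ G.ln a b := by
  unfold inf; rw [dif_pos h]; exact (Classical.choose_spec (hmeet a b h)).1

theorem inf_S {a b : P} (h : a ≠ b) : G.inf hmeet a b ∈ S := by
  unfold inf; rw [dif_pos h]; exact (Classical.choose_spec (hmeet a b h)).2

include hS in
theorem inf_eq {a b u : P} (ha : a ∉ S) (hab : a ≠ b) (hu : u ∈ G.ln a b) (huS : u ∈ S) :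
    G.inf hmeet a b = u :=
  G.uniq hS ha hab (G.inf_mem hmeet hab) (G.inf_S hmeet hab) hu huS

theorem inf_ne {a b : P} (ha : a ∉ S) (hab : a ≠ b) : a ≠ G.inf hmeet a b := by
  intro h
  exact ha (h ▸ G.inf_S hmeet hab)

theorem ln_inf {a b : P} (ha : a ∉ S) (hab : a ≠ b) : G.ln a (G.inf hmeet a b) = G.ln a b :=
  G.ln_eq a b _ _ hab (G.inf_ne hmeet ha hab) (G.ln_left _ _ hab) (G.inf_mem hmeet hab)

include hS in
theorem mem_ln_iff {a b c : P} (ha : a ∉ S) (hab : a ≠ b) (hac : a ≠ c) :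
    c ∈ G.ln a b ↔ G.inf hmeet a c = G.inf hmeet a b := by
  constructor
  · intro h
    have e : G.ln a c = G.ln a b := G.ln_eq a b a c hab hac (G.ln_left _ _ hab) h
    apply G.inf_eq hS hmeet ha hac _ (G.inf_S hmeet hab)
    rw [e]; exact G.inf_mem hmeet hab
  · intro h
    rw [← G.ln_inf hmeet ha hab, ← h, G.ln_inf hmeet ha hac]
    exact G.ln_right _ _ hac

include hS in
theorem inf_comm {a b : P} (ha : a ∉ S) (hab : a ≠ b) :
    G.inf hmeet a b = G.inf hmeet b a := by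
  apply G.inf_eq hS hmeet ha hab _ (G.inf_S hmeet hab.symm)
  rw [← G.ln_comm hab]; exact G.inf_mem hmeet hab.symm

include hS in
theorem inf_trans {x y z : P} (hx : x ∉ S) (hy : y ∉ S) (hxy : x ≠ y) (hyz : y ≠ z)
    (hxz : x ≠ z) (h : G.inf hmeet x y = G.inf hmeet y z) :
    G.inf hmeet x z = G.inf hmeet x y := by
  have h1 : z ∈ G.ln y x := by
    rw [G.mem_ln_iff hS hmeet hy hxy.symm hyz, ← h, G.inf_comm hS hmeet hx hxy]
  have h2 : z ∈ G.ln x y := by rw [← G.ln_comm hxy]; exact h1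
  exact (G.mem_ln_iff hS hmeet hx hxy hxz).mp h2

include hS in
theorem inf_tri {x y z : P} (hx : x ∉ S) (hxy : x ≠ y) (hyz : y ≠ z)
    (hxz : x ≠ z) (h : G.inf hmeet x y ≠ G.inf hmeet y z) :
    G.inf hmeet x z ∈ G.ln (G.inf hmeet x y) (G.inf hmeet y z) := by
  obtain ⟨F, hF, hxF, hyF, hzF⟩ := G.pl_ex x y z
  have h1 : G.inf hmeet x y ∈ F := G.pl_sub F hF x y hxy hxF hyF (G.inf_mem hmeet hxy)
  have h2 : G.inf hmeet y z ∈ F := G.pl_sub F hF y z hyz hyF hzF (G.inf_mem hmeet hyz)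
  obtain ⟨w, hw1, hw2⟩ := G.pl_meet F hF _ _ x z h hxz h1 h2 hxF hzF
  have hwS : w ∈ S := hS _ _ h (G.inf_S hmeet hxy) (G.inf_S hmeet hyz) hw1
  rw [G.inf_eq hS hmeet hx hxz hw2 hwS]
  exact hw1

include hS in
theorem inf_third {x y u v : P} (hx : x ∉ S) (hy : y ∉ S) (hu : u ∈ S) (hv : v ∈ S)
    (hxy : x ≠ y) (huv : u ≠ v) (h : G.inf hmeet x y ∈ G.ln u v) (h1 : G.inf hmeet x y ≠ u)
    (h2 : G.inf hmeet x y ≠ v) :
    ∃ z, z ∉ S ∧ z ≠ x ∧ z ≠ y ∧ G.inf hmeet x z = u ∧ G.inf hmeet y z = v := by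
  have hxu : x ≠ u := by rintro rfl; exact hx hu
  have hyv : y ≠ v := by rintro rfl; exact hy hv
  obtain ⟨F, hF, hxF, hyF, huF⟩ := G.pl_ex x y u
  have hdF : G.inf hmeet x y ∈ F := G.pl_sub F hF x y hxy hxF hyF (G.inf_mem hmeet hxy)
  have hvF : v ∈ F := by
    apply G.pl_sub F hF _ _ h1 hdF huF
    rw [G.ln_eq u v _ u huv h1 h (G.ln_left _ _ huv)]
    exact G.ln_right _ _ huv
  obtain ⟨z, hz1, hz2⟩ := G.pl_meet F hF x u y v hxu hyv hxF huF hyF hvF
  have hzS : z ∉ S := by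
    intro hzS
    have e1 : z = u := G.uniq hS hx hxu hz1 hzS (G.ln_right _ _ hxu) hu
    have e2 : z = v := G.uniq hS hy hyv hz2 hzS (G.ln_right _ _ hyv) hv
    exact huv (by rw [← e1, e2])
  have hzx : z ≠ x := by
    rintro rfl
    apply h2
    have e : G.ln y z = G.ln y v := G.ln_eq y v y z hyv hxy.symm (G.ln_left _ _ hyv) hz2
    apply G.inf_eq hS hmeet hx hxy _ hv
    rw [← G.ln_comm hxy, e]
    exact G.ln_right _ _ hyv
  have hzy : z ≠ y := by
    rintro rfl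
    apply h1
    have e : G.ln x z = G.ln x u := G.ln_eq x u x z hxu hxy (G.ln_left _ _ hxu) hz1
    apply G.inf_eq hS hmeet hx hxy _ hu
    rw [e]
    exact G.ln_right _ _ hxu
  refine ⟨z, hzS, hzx, hzy, ?_, ?_⟩
  · apply G.inf_eq hS hmeet hx hzx.symm _ hu
    rw [G.ln_eq x u x z hxu hzx.symm (G.ln_left _ _ hxu) hz1]
    exact G.ln_right _ _ hxu
  · apply G.inf_eq hS hmeet hy hzy.symm _ hv
    rw [G.ln_eq y v y z hyv hzy.symm (G.ln_left _ _ hyv) hz2]
    exact G.ln_right _ _ hyv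

include hS in
theorem inf_on {x u : P} (hx : x ∉ S) (hu : u ∈ S) :
    ∃ y, y ∉ S ∧ y ≠ x ∧ G.inf hmeet x y = u := by
  have hxu : x ≠ u := by rintro rfl; exact hx hu
  obtain ⟨c, hc, hcx, hcu⟩ := G.three x u hxu
  have hcS : c ∉ S := fun hcS => hcu (G.uniq hS hx hxu hc hcS (G.ln_right _ _ hxu) hu)
  refine ⟨c, hcS, hcx, ?_⟩
  apply G.inf_eq hS hmeet hx hcx.symm _ hu
  rw [G.ln_eq x u x c hxu hcx.symm (G.ln_left _ _ hxu) hc]
  exact G.ln_right _ _ hxu

include hmeet in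
theorem exists_off {a : P} (u v : P) (ha : a ∉ S) :
    ∃ r, r ∈ S ∧ r ≠ u ∧ r ≠ v ∧ (u ≠ v → r ∉ G.ln u v) := by
  obtain ⟨F, hF, haF, huF, hvF⟩ := G.pl_ex a u v
  obtain ⟨p, hp⟩ := G.pl_off F hF
  have hap : a ≠ p := by rintro rfl; exact hp haF
  have hne := G.inf_ne hmeet ha hap
  have hln := G.ln_inf hmeet ha hap
  have key : G.inf hmeet a p ∉ F := by
    intro h
    apply hp
    apply G.pl_sub F hF _ _ hne haF h
    rw [hln]; exact G.ln_right _ _ hap
  refine ⟨G.inf hmeet a p, G.inf_S hmeet hap, ?_, ?_, ?_⟩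
  · intro h; exact key (h ▸ huF)
  · intro h; exact key (h ▸ hvF)
  · intro huv h
    exact key (G.pl_sub F hF u v huv huF hvF h)

/-- the affine space obtained by removing a hyperplane -/
noncomputable def toAff (a0 : {x // x ∉ S}) (u0 : {x // x ∈ S}) :
    Aff {x // x ∉ S} {x // x ∈ S} where
  dir := fun x y => open Classical in
    if h : (x : P) ≠ y then ⟨G.inf hmeet x y, G.inf_S hmeet h⟩ else u0
  ln := fun u v => {w | (w : P) ∈ G.ln u v}
  symm := by
    intro x y h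
    have h' : (x : P) ≠ y := fun e => h (Subtype.ext e)
    simp only [dif_pos h', dif_pos h'.symm]
    exact Subtype.ext (G.inf_comm hS hmeet x.2 h')
  trans := by
    intro x y z h1 h2 h3 h
    have h1' : (x : P) ≠ y := fun e => h1 (Subtype.ext e)
    have h2' : (y : P) ≠ z := fun e => h2 (Subtype.ext e)
    have h3' : (x : P) ≠ z := fun e => h3 (Subtype.ext e)
    simp only [dif_pos h1', dif_pos h2', dif_pos h3'] at h ⊢
    apply Subtype.ext
    exact G.inf_trans hS hmeet x.2 y.2 h1' h2' h3' (congrArg Subtype.val h)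
  tri := by
    intro x y z h1 h2 h3 h
    have h1' : (x : P) ≠ y := fun e => h1 (Subtype.ext e)
    have h2' : (y : P) ≠ z := fun e => h2 (Subtype.ext e)
    have h3' : (x : P) ≠ z := fun e => h3 (Subtype.ext e)
    simp only [dif_pos h1', dif_pos h2', dif_pos h3'] at h ⊢
    exact G.inf_tri hS hmeet x.2 h1' h2' h3' (fun e => h (Subtype.ext e))
  third := by
    intro x y u v h1 huv h h2 h3
    have h1' : (x : P) ≠ y := fun e => h1 (Subtype.ext e)
    have huv' : (u : P) ≠ v := fun e => huv (Subtype.ext e)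
    simp only [dif_pos h1'] at h h2 h3
    obtain ⟨z, hz1, hz2, hz3, hz4, hz5⟩ := G.inf_third hS hmeet x.2 y.2 u.2 v.2 h1' huv' h
      (fun e => h2 (Subtype.ext e)) (fun e => h3 (Subtype.ext e))
    refine ⟨⟨z, hz1⟩, fun e => hz2 (congrArg Subtype.val e), fun e => hz3 (congrArg Subtype.val e),
      ?_, ?_⟩
    · have e : (x : P) ≠ z := hz2.symm
      simp only [dif_pos e]
      exact Subtype.ext hz4
    · have e : (y : P) ≠ z := hz3.symm
      simp only [dif_pos e]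
      exact Subtype.ext hz5
  on := by
    intro x u
    obtain ⟨y, hy1, hy2, hy3⟩ := G.inf_on hS hmeet x.2 u.2
    refine ⟨⟨y, hy1⟩, fun e => hy2 (congrArg Subtype.val e), ?_⟩
    have e : (x : P) ≠ y := hy2.symm
    simp only [dif_pos e]
    exact Subtype.ext hy3
  off := by
    intro u v
    obtain ⟨r, hr1, hr2, hr3, hr4⟩ := G.exists_off hmeet u.1 v.1 a0.2
    refine ⟨⟨r, hr1⟩, fun e => hr2 (congrArg Subtype.val e), fun e => hr3 (congrArg Subtype.val e),
      ?_⟩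
    intro huv
    exact hr4 (fun e => huv (Subtype.ext e))
  ln_left := by
    intro u v huv
    exact G.ln_left _ _ (fun e => huv (Subtype.ext e))
  ln_right := by
    intro u v huv
    exact G.ln_right _ _ (fun e => huv (Subtype.ext e))
  ln_eq := by
    intro u v w w' huv hww hw hw'
    ext x
    change (x : P) ∈ G.ln w w' ↔ (x : P) ∈ G.ln u v
    rw [G.ln_eq u v w w' (fun e => huv (Subtype.ext e)) (fun e => hww (Subtype.ext e)) hw hw']

end hyp

end Proj

end Pool.Agent.MP84111f
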