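import Mathlib
import Pool.Agent.Lib.MP_84111f_co.Proj

/-!
# Coordinates for finite projective spaces (Veblen and Young)
-/

namespace Pool.Agent.MP84111f

namespace Proj

variable {P : Type} (G : Proj P)

theorem coord [Finite P] [Nonempty P] :
    ∃ (K : Type) (_ : Field K) (_ : Finite K) (W : Type) (_ : AddCommGroup W) (_ : Module K W)
      (_ : Finite W) (v : P → W),
      (∀ p, v p ≠ 0) ∧ (∀ w, w ≠ 0 → ∃ p, ∃ c : K, w = c • v p) ∧
      (∀ p r s, p ≠ r → (s ∈ G.ln p r ↔ v s ∈ Submodule.span K {v p, v r})) := by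
  classical
  obtain ⟨S, hS, ⟨p0, hp0⟩, hmeet⟩ := G.exists_hyperplane
  obtain ⟨q0, hq0⟩ : ∃ q, p0 ≠ q := by
    obtain ⟨F, hF, h1, _, _⟩ := G.pl_ex p0 p0 p0
    obtain ⟨q, hq⟩ := G.pl_off F hF
    exact ⟨q, fun e => hq (e ▸ h1)⟩
  obtain ⟨T, hT⟩ : ∃ T, T = G.toAff hS hmeet ⟨p0, hp0⟩ ⟨_, G.inf_S hmeet hq0⟩ := ⟨_, rfl⟩
  letI : AddCommGroup {x // x ∉ S} := T.acg ⟨p0, hp0⟩
  obtain ⟨D, hD⟩ : ∃ D : Vec {x // x ∉ S} {x // x ∈ S}, D = T.toVec ⟨p0, hp0⟩ := ⟨_, rfl⟩
  have hdir : ∀ x y : {x // x ∉ S}, x ≠ y → (T.dir x y : P) = G.inf hmeet x y := by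
    intro x y hxy
    have hxy' : (x : P) ≠ y := fun e => hxy (Subtype.ext e)
    rw [hT]
    simp only [toAff, dif_pos hxy']
  have hd : ∀ x y : {x // x ∉ S}, x ≠ y → (D.d (y - x) : P) = G.inf hmeet x y := by
    intro x y hxy
    rw [← hdir x y hxy]
    have h1 := T.dir_add ⟨p0, hp0⟩ (x := 0) (y := y - x) x (sub_ne_zero.mpr hxy.symm).symm
    have h2 : x + 0 = x := add_zero x
    have h3 : x + (y - x) = y := add_sub_cancel x y
    rw [h2, h3] at h1
    rw [h1, hD]
    rfl
  have hln : ∀ u v w : {x // x ∈ S}, w ∈ D.ln u v ↔ (w : P) ∈ G.ln u v := by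
    intro u v w
    rw [hD]
    change w ∈ T.ln u v ↔ _
    rw [hT]
    rfl
  have hnt : Nontrivial {x // x ∉ S} := by
    obtain ⟨y, hy, _⟩ := D.on ⟨_, G.inf_S hmeet hq0⟩
    exact ⟨⟨y, 0, hy⟩⟩
  obtain ⟨K, iK, fK, iM, hK⟩ := D.exists_field
  choose rep hrep1 hrep2 using D.on
  obtain ⟨v, hv⟩ : ∃ v : P → K × {x // x ∉ S}, v = fun p =>
    if h : p ∈ S then (0, rep ⟨p, h⟩) else (1, ⟨p, h⟩) := ⟨_, rfl⟩
  have vS : ∀ p (h : p ∈ S), v p = (0, rep ⟨p, h⟩) := by
    intro p h; rw [hv]; simp only [dif_pos h]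
  have vA : ∀ p (h : p ∉ S), v p = (1, ⟨p, h⟩) := by
    intro p h; rw [hv]; simp only [dif_neg h]
  have hKr : ∀ (u : {x // x ∈ S}) (w : {x // x ∉ S}), D.C u w ↔ ∃ c : K, c • rep u = w := by
    intro u w
    rw [← hK _ _ (hrep1 u), hrep2]
  -- the case `p ∉ S`
  have main1 : ∀ p r s, p ∉ S → p ≠ r → (s ∈ G.ln p r ↔ v s ∈ Submodule.span K {v p, v r}) := by
    intro p r s hp hpr
    rw [Submodule.mem_span_pair]
    by_cases hr : r ∈ S
    · have hir : G.inf hmeet p r = r := G.inf_eq hS hmeet hp hpr (G.ln_right _ _ hpr) hr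
      by_cases hs : s ∈ S
      · rw [vA p hp, vS r hr, vS s hs]
        constructor
        · intro h
          have : s = r := G.uniq hS hp hpr h hs (G.ln_right _ _ hpr) hr
          subst this
          refine ⟨0, 1, ?_⟩
          ext1 <;> simp
        · rintro ⟨a, b, h⟩
          have h1 : a = 0 := by simpa using congrArg Prod.fst h
          have h2 : b • rep ⟨r, hr⟩ = rep ⟨s, hs⟩ := by
            have := congrArg Prod.snd h
            simpa [h1] using this
          have h3 : D.C ⟨r, hr⟩ (rep ⟨s, hs⟩) := (hKr _ _).mpr ⟨b, h2⟩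
          have h4 := D.C_dir (hrep1 _) h3
          rw [hrep2] at h4
          have h5 : s = r := congrArg Subtype.val h4
          rw [h5]
          exact G.ln_right _ _ hpr
      · rw [vA p hp, vS r hr, vA s hs]
        constructor
        · intro h
          by_cases hsp : p = s
          · subst hsp
            refine ⟨1, 0, ?_⟩
            ext1 <;> simp
          · have h1 := (G.mem_ln_iff hS hmeet hp hpr hsp).mp h
            rw [hir] at h1
            have h2 := hd ⟨p, hp⟩ ⟨s, hs⟩ (fun e => hsp (congrArg Subtype.val e))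
            have h3 : D.C ⟨r, hr⟩ (⟨s, hs⟩ - ⟨p, hp⟩) := by
              right
              apply Subtype.ext
              rw [h2]; exact h1
            obtain ⟨c, hc⟩ := (hKr _ _).mp h3
            refine ⟨1, c, ?_⟩
            ext1
            · simp
            · change (1 : K) • (⟨p, hp⟩ : {x // x ∉ S}) + c • rep ⟨r, hr⟩ = ⟨s, hs⟩
              rw [hc, one_smul]
              exact add_sub_cancel _ _
        · rintro ⟨a, b, h⟩
          have h1 : a = 1 := by simpa using congrArg Prod.fst h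
          have h2 : b • rep ⟨r, hr⟩ = ⟨s, hs⟩ - ⟨p, hp⟩ := by
            have h3 : a • (⟨p, hp⟩ : {x // x ∉ S}) + b • rep ⟨r, hr⟩ = ⟨s, hs⟩ :=
              congrArg Prod.snd h
            rw [h1, one_smul] at h3
            rw [← h3]
            exact (add_sub_cancel_left _ _).symm
          by_cases hsp : p = s
          · subst hsp
            exact G.ln_left _ _ hpr
          have hne : (⟨p, hp⟩ : {x // x ∉ S}) ≠ ⟨s, hs⟩ := fun e => hsp (congrArg Subtype.val e)
          have h3 : D.C ⟨r, hr⟩ (⟨s, hs⟩ - ⟨p, hp⟩) := (hKr _ _).mpr ⟨b, h2⟩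
          have h4 := D.C_dir (sub_ne_zero.mpr hne.symm) h3
          rw [G.mem_ln_iff hS hmeet hp hpr hsp, hir]
          have h5 := hd _ _ hne
          rw [h4] at h5
          exact h5.symm
    · have hne : (⟨p, hp⟩ : {x // x ∉ S}) ≠ ⟨r, hr⟩ := fun e => hpr (congrArg Subtype.val e)
      have hdr := hd _ _ hne
      by_cases hs : s ∈ S
      · rw [vA p hp, vA r hr, vS s hs]
        constructor
        · intro h
          have h1 : G.inf hmeet p r = s := G.inf_eq hS hmeet hp hpr h hs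
          have h2 : D.d (⟨r, hr⟩ - ⟨p, hp⟩) = ⟨s, hs⟩ := by
            apply Subtype.ext
            rw [hdr]; exact h1
          have h3 : D.C (D.d (⟨r, hr⟩ - ⟨p, hp⟩)) (rep ⟨s, hs⟩) := by
            right
            rw [hrep2, h2]
          obtain ⟨c, hc⟩ := (hK _ _ (sub_ne_zero.mpr hne.symm)).mp h3
          refine ⟨-c, c, ?_⟩
          ext1
          · simp
          · change (-c) • (⟨p, hp⟩ : {x // x ∉ S}) + c • ⟨r, hr⟩ = rep ⟨s, hs⟩
            rw [← hc, smul_sub, neg_smul, neg_add_eq_sub]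
        · rintro ⟨a, b, h⟩
          have h1 : a + b = 0 := by simpa using congrArg Prod.fst h
          have h2 : b • ((⟨r, hr⟩ : {x // x ∉ S}) - ⟨p, hp⟩) = rep ⟨s, hs⟩ := by
            have h3 : a • (⟨p, hp⟩ : {x // x ∉ S}) + b • ⟨r, hr⟩ = rep ⟨s, hs⟩ :=
              congrArg Prod.snd h
            rw [← h3, smul_sub, eq_neg_of_add_eq_zero_left h1, neg_smul, neg_add_eq_sub]
          have h3 : D.C (D.d (⟨r, hr⟩ - ⟨p, hp⟩)) (rep ⟨s, hs⟩) :=
            (hK _ _ (sub_ne_zero.mpr hne.symm)).mpr ⟨b, h2⟩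
          have h4 := D.C_dir (hrep1 _) h3
          rw [hrep2] at h4
          rw [← h4] at hdr
          have h5 : s = G.inf hmeet p r := hdr
          rw [h5]
          exact G.inf_mem hmeet hpr
      · rw [vA p hp, vA r hr, vA s hs]
        constructor
        · intro h
          by_cases hsp : p = s
          · subst hsp
            refine ⟨1, 0, ?_⟩
            ext1 <;> simp
          · have h1 := (G.mem_ln_iff hS hmeet hp hpr hsp).mp h
            have h2 := hd ⟨p, hp⟩ ⟨s, hs⟩ (fun e => hsp (congrArg Subtype.val e))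
            have h3 : D.C (D.d (⟨r, hr⟩ - ⟨p, hp⟩)) (⟨s, hs⟩ - ⟨p, hp⟩) := by
              right
              apply Subtype.ext
              rw [h2, hdr]; exact h1
            obtain ⟨c, hc⟩ := (hK _ _ (sub_ne_zero.mpr hne.symm)).mp h3
            refine ⟨1 - c, c, ?_⟩
            ext1
            · simp
            · change (1 - c) • (⟨p, hp⟩ : {x // x ∉ S}) + c • ⟨r, hr⟩ = ⟨s, hs⟩
              rw [smul_sub] at hc
              have h6 : (⟨s, hs⟩ : {x // x ∉ S}) = ⟨p, hp⟩ + (c • ⟨r, hr⟩ - c • ⟨p, hp⟩) := by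
                rw [hc]; exact (add_sub_cancel _ _).symm
              rw [h6, sub_smul, one_smul]
              abel
        · rintro ⟨a, b, h⟩
          have h1 : a + b = 1 := by simpa using congrArg Prod.fst h
          have h2 : b • ((⟨r, hr⟩ : {x // x ∉ S}) - ⟨p, hp⟩) = ⟨s, hs⟩ - ⟨p, hp⟩ := by
            have h3 : a • (⟨p, hp⟩ : {x // x ∉ S}) + b • ⟨r, hr⟩ = ⟨s, hs⟩ :=
              congrArg Prod.snd h
            rw [← h3, smul_sub, eq_sub_of_add_eq h1, sub_smul, one_smul]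
            abel
          by_cases hsp : p = s
          · subst hsp
            exact G.ln_left _ _ hpr
          have hne' : (⟨p, hp⟩ : {x // x ∉ S}) ≠ ⟨s, hs⟩ := fun e => hsp (congrArg Subtype.val e)
          have h3 : D.C (D.d (⟨r, hr⟩ - ⟨p, hp⟩)) (⟨s, hs⟩ - ⟨p, hp⟩) :=
            (hK _ _ (sub_ne_zero.mpr hne.symm)).mpr ⟨b, h2⟩
          have h4 := D.C_dir (sub_ne_zero.mpr hne'.symm) h3
          rw [G.mem_ln_iff hS hmeet hp hpr hsp]
          have h5 := hd _ _ hne'
          rw [h4, hdr] at h5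
          exact h5.symm
  refine ⟨K, iK, fK, K × {x // x ∉ S}, inferInstance, inferInstance, inferInstance, v,
    ?_, ?_, ?_⟩
  · intro p
    by_cases hp : p ∈ S
    · rw [vS p hp]
      intro h
      exact hrep1 _ (congrArg Prod.snd h)
    · rw [vA p hp]
      intro h
      exact one_ne_zero (congrArg Prod.fst h)
  · rintro ⟨c, a⟩ hw
    by_cases hc : c = 0
    · subst hc
      have ha : a ≠ 0 := by
        rintro rfl
        exact hw rfl
      obtain ⟨c, hc⟩ := (hKr (D.d a) a).mp (D.C_self a)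
      refine ⟨(D.d a).1, c, ?_⟩
      rw [vS _ (D.d a).2]
      ext1
      · simp
      · exact hc.symm
    · refine ⟨(c⁻¹ • a).1, c, ?_⟩
      rw [vA _ (c⁻¹ • a).2]
      ext1
      · simp
      · change a = c • (c⁻¹ • a)
        rw [smul_smul, mul_inv_cancel₀ hc, one_smul]
  · intro p r s hpr
    by_cases hp : p ∈ S
    swap
    · exact main1 p r s hp hpr
    by_cases hr : r ∈ S
    swap
    · rw [← G.ln_comm hpr, Set.pair_comm]
      exact main1 r p s hr hpr.symm
    rw [Submodule.mem_span_pair, vS p hp, vS r hr]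
    by_cases hs : s ∈ S
    swap
    · rw [vA s hs]
      constructor
      · intro h
        exact absurd (hS p r hpr hp hr h) hs
      · rintro ⟨a, b, h⟩
        have h1 : (0 : K) = 1 := by simpa using congrArg Prod.fst h
        exact absurd h1 zero_ne_one
    rw [vS s hs]
    have hpr' : (⟨p, hp⟩ : {x // x ∈ S}) ≠ ⟨r, hr⟩ := fun e => hpr (congrArg Subtype.val e)
    constructor
    · intro h
      by_cases hsp : s = p
      · subst hsp
        refine ⟨1, 0, ?_⟩
        ext1 <;> simp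
      by_cases hsr : s = r
      · subst hsr
        refine ⟨0, 1, ?_⟩
        ext1 <;> simp
      obtain ⟨z, hz1, hz2, hz3, hz4⟩ := D.third (rep ⟨s, hs⟩) ⟨p, hp⟩ ⟨r, hr⟩ (hrep1 _) hpr'
        (by rw [hrep2, hln]; exact h) (by rw [hrep2]; exact fun e => hsp (congrArg Subtype.val e))
        (by rw [hrep2]; exact fun e => hsr (congrArg Subtype.val e))
      obtain ⟨a, ha⟩ := (hKr ⟨p, hp⟩ z).mp (Or.inr hz3)
      obtain ⟨b, hb⟩ := (hKr ⟨r, hr⟩ (rep ⟨s, hs⟩ - z)).mp (Or.inr hz4)
      refine ⟨a, b, ?_⟩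
      ext1
      · simp
      · change a • rep ⟨p, hp⟩ + b • rep ⟨r, hr⟩ = rep ⟨s, hs⟩
        rw [ha, hb]
        exact add_sub_cancel _ _
    · rintro ⟨a, b, h⟩
      have h1 : a • rep ⟨p, hp⟩ + b • rep ⟨r, hr⟩ = rep ⟨s, hs⟩ := congrArg Prod.snd h
      have ha : D.C ⟨p, hp⟩ (a • rep ⟨p, hp⟩) := (hKr _ _).mpr ⟨a, rfl⟩
      have hb : D.C ⟨r, hr⟩ (b • rep ⟨r, hr⟩) := (hKr _ _).mpr ⟨b, rfl⟩
      by_cases ha0 : a • rep ⟨p, hp⟩ = 0
      · rw [ha0, zero_add] at h1
        rw [h1] at hb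
        have h2 := D.C_dir (hrep1 _) hb
        rw [hrep2] at h2
        have h3 : s = r := congrArg Subtype.val h2
        rw [h3]; exact G.ln_right _ _ hpr
      by_cases hb0 : b • rep ⟨r, hr⟩ = 0
      · rw [hb0, add_zero] at h1
        rw [h1] at ha
        have h2 := D.C_dir (hrep1 _) ha
        rw [hrep2] at h2
        have h3 : s = p := congrArg Subtype.val h2
        rw [h3]; exact G.ln_left _ _ hpr
      have e1 := D.C_dir ha0 ha
      have e2 := D.C_dir hb0 hb
      have := (D.tri_add ha0 hb0 (by rw [e1, e2]; exact hpr')).2.1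
      rw [h1, hrep2, e1, e2, hln] at this
      exact this

end Proj

end Pool.Agent.MP84111f
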