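import Mathlib
import Pool.Agent.Lib.MP_84111f_co.Count
import Pool.Agent.Lib.MP_84111f_co.VY

/-!
# Rank-4 perfect matroid designs: matroid facts
-/

open Set

namespace Pool.Agent.MP84111f

/-- rank-4 perfect matroid design with pairwise intersecting hyperplanes -/
structure PMD {α : Type} (M : Matroid α) : Prop where
  fin : M.Finite
  h0 : M.IsFlat ∅
  h1 : ∀ e ∈ M.E, M.IsFlat {e}
  hsz : ∀ F₁ F₂ : Set α, M.IsFlat F₁ → M.IsFlat F₂ → M.eRk F₁ = M.eRk F₂ → F₁.ncard = F₂.ncard
  hr : M.eRk M.E = 4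
  hmeet : ∀ H₁ H₂ : Set α, M.IsFlat H₁ → M.IsFlat H₂ → M.eRk H₁ = 3 → M.eRk H₂ = 3 →
          (H₁ ∩ H₂).Nonempty

namespace PMD

variable {α : Type} {M : Matroid α} (h : PMD M)

include h

omit h in
theorem indep_insert {I : Set α} (hI : M.Indep I) {e : α} (he : e ∈ M.E) (heI : e ∉ M.closure I) :
    M.Indep (insert e I) := ((hI.notMem_closure_iff he).mp heI).1

theorem indep_single {a : α} (ha : a ∈ M.E) : M.Indep {a} := by
  have := indep_insert M.empty_indep ha (by rw [h.h0.closure]; simp)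
  simpa using this

theorem indep_pair {a b : α} (ha : a ∈ M.E) (hb : b ∈ M.E) (hab : a ≠ b) : M.Indep {a, b} := by
  apply indep_insert (h.indep_single hb) ha
  rw [(h.h1 b hb).closure]
  simpa using hab

theorem rkFinite (X : Set α) (hX : X ⊆ M.E) : M.IsRkFinite X :=
  M.isRkFinite_of_finite (h.fin.ground_finite.subset hX)

theorem flat_eq {I F : Set α} (hI : M.Indep I) (hF : M.IsFlat F) (hIF : I ⊆ F)
    (hr : M.eRk F ≤ I.encard) : F = M.closure I := by
  rw [← hF.closure]
  symm
  rw [hF.closure]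
  have := (h.rkFinite I hI.subset_ground).closure_eq_closure_of_subset_of_eRk_ge_eRk hIF
    (by rw [hI.eRk_eq_encard]; exact hr)
  rw [this, hF.closure]

theorem rk_closure_pair {a b : α} (ha : a ∈ M.E) (hb : b ∈ M.E) (hab : a ≠ b) :
    M.eRk (M.closure {a, b}) = 2 := by
  rw [M.eRk_closure_eq, (h.indep_pair ha hb hab).eRk_eq_encard, Set.encard_pair hab]

theorem rk_closure_triple {a b c : α} (ha : a ∈ M.E) (hb : b ∈ M.E) (hab : a ≠ b) (hc : c ∈ M.E)
    (hcab : c ∉ M.closure {a, b}) : M.eRk (M.closure {c, a, b}) = 3 := by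
  have hI := indep_insert (h.indep_pair ha hb hab) hc hcab
  rw [M.eRk_closure_eq, hI.eRk_eq_encard, Set.encard_insert_of_notMem, Set.encard_pair hab]
  · norm_num
  · intro hc'
    exact hcab (M.mem_closure_of_mem hc' (h.indep_pair ha hb hab).subset_ground)

theorem exists_hyp_superset {X : Set α} (hX : X ⊆ M.E) (hr3 : M.eRk X ≤ 3) :
    ∃ F, M.IsFlat F ∧ M.eRk F = 3 ∧ X ⊆ F := by
  obtain ⟨I, hI⟩ := M.exists_isBasis X hX
  obtain ⟨B, hB, hIB⟩ := hI.indep.exists_isBase_superset
  have hB4 : B.encard = 4 := by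
    rw [hB.encard_eq_eRank, ← M.eRk_ground, h.hr]
  have hI3 : I.encard ≤ 3 := by rw [← hI.eRk_eq_encard]; exact hr3
  obtain ⟨J, hIJ, hJB, hJ⟩ := Set.exists_superset_subset_encard_eq hIB hI3
    (by rw [hB4]; norm_num)
  refine ⟨M.closure J, M.isFlat_closure J, ?_, ?_⟩
  · rw [M.eRk_closure_eq, (hB.indep.subset hJB).eRk_eq_encard, hJ]
  · exact hI.subset_closure.trans (M.closure_subset_closure hIJ)

theorem exists_off {F : Set α} (hr3 : M.eRk F = 3) : ∃ p ∈ M.E, p ∉ F := by
  by_contra hcon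
  push Not at hcon
  have : M.eRk M.E ≤ M.eRk F := M.eRk_mono hcon
  rw [h.hr, hr3] at this
  exact absurd this (by norm_num)

omit h in
theorem rk_triple_le {a b c : α} : M.eRk {a, b, c} ≤ 3 := by
  refine (M.eRk_le_encard _).trans ?_
  refine (Set.encard_insert_le _ _).trans ?_
  refine (add_le_add_left (Set.encard_insert_le _ _) 1).trans ?_
  rw [Set.encard_singleton]; norm_num

theorem exists_pair : ∃ a ∈ M.E, ∃ b ∈ M.E, a ≠ b := by
  by_contra hcon
  push Not at hcon
  have h1 : M.E.encard ≤ 1 := Set.encard_le_one_iff.mpr (fun a b ha hb => hcon a ha b hb)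
  have h2 := (M.eRk_le_encard M.E).trans h1
  rw [h.hr] at h2
  exact absurd h2 (by norm_num)

end PMD

section im

variable {α : Type} {M : Matroid α}

/-- image in the ambient type -/
def im (F : Finset ↥M.E) : Set α := Subtype.val '' (F : Set ↥M.E)

theorem mem_im {F : Finset ↥M.E} {x : α} : x ∈ im F ↔ ∃ hx : x ∈ M.E, (⟨x, hx⟩ : ↥M.E) ∈ F := by
  unfold im; simp

theorem mem_im' {F : Finset ↥M.E} {x : ↥M.E} : (x : α) ∈ im F ↔ x ∈ F := by
  rw [mem_im]; simp

theorem im_subset {F : Finset ↥M.E} : im F ⊆ M.E := by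
  intro x hx
  rw [mem_im] at hx
  exact hx.1

theorem im_mono {F G : Finset ↥M.E} : im F ⊆ im G ↔ F ⊆ G := by
  constructor
  · intro h x hx
    exact mem_im'.mp (h (mem_im'.mpr hx))
  · intro h x hx
    rw [mem_im] at hx ⊢
    obtain ⟨hx, hxF⟩ := hx
    exact ⟨hx, h hxF⟩

theorem im_inj {F G : Finset ↥M.E} (h : im F = im G) : F = G :=
  Finset.Subset.antisymm (im_mono.mp h.subset) (im_mono.mp h.superset)

theorem im_card {F : Finset ↥M.E} : (im F).ncard = F.card := by
  unfold im
  rw [Set.ncard_image_of_injective _ Subtype.val_injective, Set.ncard_coe_finset]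

open Classical in
/-- preimage -/
noncomputable def pre [Fintype ↥M.E] (F : Set α) : Finset ↥M.E :=
  Finset.univ.filter (fun x => (x : α) ∈ F)

theorem mem_pre [Fintype ↥M.E] {F : Set α} {x : ↥M.E} : x ∈ pre F ↔ (x : α) ∈ F := by
  unfold pre; simp

theorem im_pre [Fintype ↥M.E] {F : Set α} (hF : F ⊆ M.E) : im (pre (M := M) F) = F := by
  ext x
  rw [mem_im]
  constructor
  · rintro ⟨hx, h⟩
    exact mem_pre.mp h
  · intro h
    exact ⟨hF h, mem_pre.mpr h⟩

end im

namespace PMD

variable {α : Type} {M : Matroid α} (h : PMD M)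

include h

theorem exists_geo [Fintype ↥M.E] [DecidableEq ↥M.E] : ∃ g : Geo ↥M.E,
    (∀ L, L ∈ g.lines ↔ M.IsFlat (im L) ∧ M.eRk (im L) = 2) ∧
    (∀ F, F ∈ g.planes ↔ M.IsFlat (im F) ∧ M.eRk (im F) = 3) := by
  classical
  obtain ⟨a0, ha0, b0, hb0, hab0⟩ := h.exists_pair
  have hlineE : ∀ a b : ↥M.E, a ≠ b → M.IsFlat (im (pre (M := M) (M.closure {(a : α), (b : α)}))) ∧
      M.eRk (im (pre (M := M) (M.closure {(a : α), (b : α)}))) = 2 := by
    intro a b hab
    rw [im_pre (M.closure_subset_ground _)]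
    exact ⟨M.isFlat_closure _, h.rk_closure_pair a.2 b.2 (fun e => hab (Subtype.ext e))⟩
  have hline_eq : ∀ (L : Finset ↥M.E) (a b : ↥M.E), a ≠ b → M.IsFlat (im L) → M.eRk (im L) = 2 →
      a ∈ L → b ∈ L → im L = M.closure {(a : α), (b : α)} := by
    intro L a b hab hL hL2 ha hb
    have hab' : (a : α) ≠ b := fun e => hab (Subtype.ext e)
    apply h.flat_eq (h.indep_pair a.2 b.2 hab') hL
    · intro x hx
      rcases hx with rfl | rfl
      · exact mem_im'.mpr ha
      · exact mem_im'.mpr hb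
    · rw [hL2, Set.encard_pair hab']
  have hplane_eq : ∀ (F : Finset ↥M.E) (a b c : ↥M.E), a ≠ b →
      (c : α) ∉ M.closure {(a : α), (b : α)} → M.IsFlat (im F) → M.eRk (im F) = 3 →
      a ∈ F → b ∈ F → c ∈ F → im F = M.closure {(c : α), (a : α), (b : α)} := by
    intro F a b c hab hc hF hF3 ha hb hcF
    have hab' : (a : α) ≠ b := fun e => hab (Subtype.ext e)
    have hI := indep_insert (h.indep_pair a.2 b.2 hab') c.2 hc
    apply h.flat_eq hI hF
    · intro x hx
      rcases hx with rfl | rfl | rfl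
      · exact mem_im'.mpr hcF
      · exact mem_im'.mpr ha
      · exact mem_im'.mpr hb
    · rw [hF3, ← hI.eRk_eq_encard, ← M.eRk_closure_eq, h.rk_closure_triple a.2 b.2 hab' c.2 hc]
  have hLne : ∀ (L : Finset ↥M.E), M.eRk (im L) = 2 → ∃ a ∈ L, ∃ b ∈ L, a ≠ b := by
    intro L hL
    by_contra hcon
    push Not at hcon
    have h1 : (im L).encard ≤ 1 := by
      apply Set.encard_le_one_iff.mpr
      intro a b ha hb
      rw [mem_im] at ha hb
      obtain ⟨ha, ha'⟩ := ha
      obtain ⟨hb, hb'⟩ := hb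
      exact congrArg Subtype.val (hcon _ ha' _ hb')
    have h2 := (M.eRk_le_encard (im L)).trans h1
    rw [hL] at h2
    exact absurd h2 (by norm_num)
  refine ⟨{
    lines := Finset.univ.filter (fun L => M.IsFlat (im L) ∧ M.eRk (im L) = 2)
    planes := Finset.univ.filter (fun L => M.IsFlat (im L) ∧ M.eRk (im L) = 3)
    l := (M.closure {a0, b0}).ncard
    k := (Classical.choose (h.exists_hyp_superset (X := ∅) (Set.empty_subset _) (by simp))).ncard
    l_two := ?_
    line_card := ?_
    plane_card := ?_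
    line_ex := ?_
    line_uniq := ?_
    plane_sub := ?_
    plane_ex := ?_
    plane_uniq := ?_
    plane_off_line := ?_
    off_plane := ?_
    exists_plane := ?_
    meet := ?_ }, ?_, ?_⟩
  · have h1 : M.eRk (M.closure {a0, b0}) = 2 := h.rk_closure_pair ha0 hb0 hab0
    have h2 := M.eRk_le_encard (M.closure {a0, b0})
    rw [h1] at h2
    have hfin : (M.closure {a0, b0}).Finite :=
      h.fin.ground_finite.subset (M.closure_subset_ground _)
    rw [← hfin.cast_ncard_eq] at h2
    exact_mod_cast h2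
  · intro L hL
    simp only [Finset.mem_filter, Finset.mem_univ, true_and] at hL
    rw [← im_card]
    apply h.hsz _ _ hL.1 (M.isFlat_closure _)
    rw [hL.2, h.rk_closure_pair ha0 hb0 hab0]
  · intro F hF
    simp only [Finset.mem_filter, Finset.mem_univ, true_and] at hF
    rw [← im_card]
    have hc := Classical.choose_spec
      (h.exists_hyp_superset (X := ∅) (Set.empty_subset _) (by simp))
    apply h.hsz _ _ hF.1 hc.1
    rw [hF.2, hc.2.1]
  · intro p q hpq
    refine ⟨pre (M := M) (M.closure {(p : α), (q : α)}), ?_, ?_, ?_⟩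
    · simp only [Finset.mem_filter, Finset.mem_univ, true_and]
      exact hlineE p q hpq
    · rw [mem_pre]
      exact M.mem_closure_of_mem (by simp)
        (h.indep_pair p.2 q.2 (fun e => hpq (Subtype.ext e))).subset_ground
    · rw [mem_pre]
      exact M.mem_closure_of_mem (by simp)
        (h.indep_pair p.2 q.2 (fun e => hpq (Subtype.ext e))).subset_ground
  · intro L hL L' hL' p q hpq hpL hqL hpL' hqL'
    simp only [Finset.mem_filter, Finset.mem_univ, true_and] at hL hL'
    apply im_inj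
    rw [hline_eq L p q hpq hL.1 hL.2 hpL hqL, hline_eq L' p q hpq hL'.1 hL'.2 hpL' hqL']
  · intro F hF L hL p q hpq hpL hqL hpF hqF
    simp only [Finset.mem_filter, Finset.mem_univ, true_and] at hL hF
    rw [← im_mono, hline_eq L p q hpq hL.1 hL.2 hpL hqL]
    conv_rhs => rw [← hF.1.closure]
    apply M.closure_subset_closure
    intro x hx
    rcases hx with rfl | rfl
    · exact mem_im'.mpr hpF
    · exact mem_im'.mpr hqF
  · intro L hL p hpL
    simp only [Finset.mem_filter, Finset.mem_univ, true_and] at hL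
    obtain ⟨a, ha, b, hb, hab⟩ := hLne L hL.2
    have e := hline_eq L a b hab hL.1 hL.2 ha hb
    have hab' : (a : α) ≠ b := fun e => hab (Subtype.ext e)
    have hp : (p : α) ∉ M.closure {(a : α), (b : α)} := by
      rw [← e]
      exact fun hh => hpL (mem_im'.mp hh)
    have hI := indep_insert (h.indep_pair a.2 b.2 hab') p.2 hp
    refine ⟨pre (M := M) (M.closure {(p : α), (a : α), (b : α)}), ?_, ?_, ?_⟩
    · simp only [Finset.mem_filter, Finset.mem_univ, true_and]
      rw [im_pre (M.closure_subset_ground _)]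
      exact ⟨M.isFlat_closure _, h.rk_closure_triple a.2 b.2 hab' p.2 hp⟩
    · rw [← im_mono, im_pre (M.closure_subset_ground _), e]
      exact M.closure_subset_closure (Set.subset_insert _ _)
    · rw [mem_pre]
      exact M.mem_closure_of_mem (by simp) hI.subset_ground
  · intro F hF F' hF' L hL p hpL hLF hpF hLF' hpF'
    simp only [Finset.mem_filter, Finset.mem_univ, true_and] at hL hF hF'
    obtain ⟨a, ha, b, hb, hab⟩ := hLne L hL.2
    have e := hline_eq L a b hab hL.1 hL.2 ha hb
    have hp : (p : α) ∉ M.closure {(a : α), (b : α)} := by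
      rw [← e]
      exact fun hh => hpL (mem_im'.mp hh)
    apply im_inj
    rw [hplane_eq F a b p hab hp hF.1 hF.2 (hLF ha) (hLF hb) hpF,
      hplane_eq F' a b p hab hp hF'.1 hF'.2 (hLF' ha) (hLF' hb) hpF']
  · intro F hF L hL
    simp only [Finset.mem_filter, Finset.mem_univ, true_and] at hL hF
    by_contra hcon
    push Not at hcon
    have h1 : M.eRk (im F) ≤ M.eRk (im L) := M.eRk_mono (im_mono.mpr hcon)
    rw [hF.2, hL.2] at h1
    exact absurd h1 (by norm_num)
  · intro F hF
    simp only [Finset.mem_filter, Finset.mem_univ, true_and] at hF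
    obtain ⟨p, hp, hpF⟩ := h.exists_off hF.2
    exact ⟨⟨p, hp⟩, fun hh => hpF (mem_im'.mpr hh)⟩
  · have hc := Classical.choose_spec
      (h.exists_hyp_superset (X := ∅) (Set.empty_subset _) (by simp))
    refine ⟨pre (M := M) (Classical.choose
      (h.exists_hyp_superset (X := ∅) (Set.empty_subset _) (by simp))), ?_⟩
    simp only [Finset.mem_filter, Finset.mem_univ, true_and]
    rw [im_pre hc.1.subset_ground]
    exact ⟨hc.1, hc.2.1⟩
  · intro F hF G hG
    simp only [Finset.mem_filter, Finset.mem_univ, true_and] at hF hG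
    obtain ⟨x, hxF, hxG⟩ := h.hmeet _ _ hF.1 hG.1 hF.2 hG.2
    have hx : x ∈ M.E := im_subset hxF
    refine ⟨⟨x, hx⟩, ?_⟩
    rw [Finset.mem_inter]
    rw [mem_im] at hxF hxG
    exact ⟨hxF.2, hxG.2⟩
  · intro L
    simp
  · intro L
    simp

end PMD

end Pool.Agent.MP84111f
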