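import Mathlib
import Pool.Agent.Lib.MP_84111f_co.Mat

/-!
# Assembling
-/

open Set

namespace Pool.Agent.MP84111f

namespace PMD

variable {α : Type} {M : Matroid α} (h : PMD M)

include h

theorem closure_pair_eq {a b c d : α} (ha : a ∈ M.E) (hb : b ∈ M.E) (hab : a ≠ b) (hcd : c ≠ d)
    (hc : c ∈ M.closure {a, b}) (hd : d ∈ M.closure {a, b}) :
    M.closure {c, d} = M.closure {a, b} := by
  have hcE := M.closure_subset_ground _ hc
  have hdE := M.closure_subset_ground _ hd
  symm
  apply h.flat_eq (h.indep_pair hcE hdE hcd) (M.isFlat_closure _)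
  · intro x hx
    rcases hx with rfl | rfl
    · exact hc
    · exact hd
  · rw [h.rk_closure_pair ha hb hab, Set.encard_pair hcd]

omit h in
theorem mem_closure_left {a b : α} (ha : a ∈ M.E) (hb : b ∈ M.E) : a ∈ M.closure {a, b} :=
  M.mem_closure_of_mem (by simp) (by
    intro x hx
    rcases hx with rfl | rfl <;> assumption)

omit h in
theorem mem_closure_right {a b : α} (ha : a ∈ M.E) (hb : b ∈ M.E) : b ∈ M.closure {a, b} :=
  M.mem_closure_of_mem (by simp) (by
    intro x hx
    rcases hx with rfl | rfl <;> assumption)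

/-- the projective space on the ground set -/
theorem exists_proj [Fintype ↥M.E] [DecidableEq ↥M.E] (g : Geo ↥M.E)
    (hgl : ∀ L, L ∈ g.lines ↔ M.IsFlat (im L) ∧ M.eRk (im L) = 2)
    (hgp : ∀ F, F ∈ g.planes ↔ M.IsFlat (im F) ∧ M.eRk (im F) = 3) (hl : 3 ≤ g.l) :
    ∃ G : Proj ↥M.E, (∀ a b c : ↥M.E, c ∈ G.ln a b ↔ (c : α) ∈ M.closure {(a : α), (b : α)}) ∧
      (∀ F : Set ↥M.E, F ∈ G.pl ↔ M.IsFlat (Subtype.val '' F) ∧ M.eRk (Subtype.val '' F) = 3) := by
  classical
  have hmem : ∀ (F : Set ↥M.E) (x : ↥M.E), (x : α) ∈ Subtype.val '' F ↔ x ∈ F := by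
    intro F x; simp
  have hkl : g.kap = g.l := g.params.1
  refine ⟨{
    ln := fun a b => {c | (c : α) ∈ M.closure {(a : α), (b : α)}}
    pl := {F | M.IsFlat (Subtype.val '' F) ∧ M.eRk (Subtype.val '' F) = 3}
    ln_left := fun a b _ => mem_closure_left a.2 b.2
    ln_right := fun a b _ => mem_closure_right a.2 b.2
    ln_eq := ?_
    pl_sub := ?_
    pl_meet := ?_
    pl_ex := ?_
    pl_off := ?_
    three := ?_ }, fun a b c => Iff.rfl, fun F => Iff.rfl⟩
  · intro a b c d hab hcd hc hd
    ext x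
    change (x : α) ∈ M.closure {(c : α), (d : α)} ↔ (x : α) ∈ M.closure {(a : α), (b : α)}
    rw [h.closure_pair_eq a.2 b.2 (fun e => hab (Subtype.ext e)) (fun e => hcd (Subtype.ext e))
      hc hd]
  · rintro F ⟨hF, hF3⟩ a b hab ha hb x hx
    rw [← hmem, ← hF.closure]
    refine M.closure_subset_closure ?_ hx
    intro y hy
    rcases hy with rfl | rfl
    · exact (hmem F a).mpr ha
    · exact (hmem F b).mpr hb
  · rintro F ⟨hF, hF3⟩ a b c d hab hcd ha hb hc hd
    have hab' : (a : α) ≠ b := fun e => hab (Subtype.ext e)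
    have hcd' : (c : α) ≠ d := fun e => hcd (Subtype.ext e)
    have hsub : ∀ a b : ↥M.E, a ∈ F → b ∈ F →
        M.closure {(a : α), (b : α)} ⊆ Subtype.val '' F := by
      intro a b ha hb
      rw [← hF.closure]
      apply M.closure_subset_closure
      intro y hy
      rcases hy with rfl | rfl
      · exact (hmem F a).mpr ha
      · exact (hmem F b).mpr hb
    have hline : ∀ a b : ↥M.E, a ≠ b → pre (M := M) (M.closure {(a : α), (b : α)}) ∈ g.lines := by
      intro a b hab
      rw [hgl, im_pre (M.closure_subset_ground _)]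
      exact ⟨M.isFlat_closure _, h.rk_closure_pair a.2 b.2 (fun e => hab (Subtype.ext e))⟩
    have hplane : pre (M := M) (Subtype.val '' F) ∈ g.planes := by
      rw [hgp, im_pre hF.subset_ground]
      exact ⟨hF, hF3⟩
    obtain ⟨x, hx⟩ := g.lines_meet hkl hplane (hline a b hab) (hline c d hcd)
      (by
        intro x hx
        rw [mem_pre] at hx ⊢
        exact hsub a b ha hb hx)
      (by
        intro x hx
        rw [mem_pre] at hx ⊢
        exact hsub c d hc hd hx)
    rw [Finset.mem_inter, mem_pre, mem_pre] at hx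
    exact ⟨x, hx.1, hx.2⟩
  · intro a b c
    obtain ⟨F, hF, hF3, hsub⟩ := h.exists_hyp_superset (X := {(a : α), (b : α), (c : α)})
      (by
        intro x hx
        rcases hx with rfl | rfl | rfl
        · exact a.2
        · exact b.2
        · exact c.2) rk_triple_le
    have hFF : Subtype.val '' {x : ↥M.E | (x : α) ∈ F} = F := by
      ext x
      constructor
      · rintro ⟨y, hy, rfl⟩; exact hy
      · intro hx; exact ⟨⟨x, hF.subset_ground hx⟩, hx, rfl⟩
    refine ⟨{x : ↥M.E | (x : α) ∈ F}, ?_, hsub (by simp), hsub (by simp), hsub (by simp)⟩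
    change M.IsFlat _ ∧ M.eRk _ = 3
    rw [hFF]
    exact ⟨hF, hF3⟩
  · rintro F ⟨hF, hF3⟩
    obtain ⟨p, hp, hpF⟩ := h.exists_off hF3
    exact ⟨⟨p, hp⟩, fun hh => hpF ((hmem F _).mpr hh)⟩
  · intro a b hab
    have hline : pre (M := M) (M.closure {(a : α), (b : α)}) ∈ g.lines := by
      rw [hgl, im_pre (M.closure_subset_ground _)]
      exact ⟨M.isFlat_closure _, h.rk_closure_pair a.2 b.2 (fun e => hab (Subtype.ext e))⟩
    have hcard := g.line_card _ hline
    have h3 : ({a, b} : Finset ↥M.E).card < (pre (M := M) (M.closure {(a : α), (b : α)})).card := by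
      rw [hcard, Finset.card_pair hab]; omega
    obtain ⟨c, hc, hcab⟩ := Finset.exists_mem_notMem_of_card_lt_card h3
    rw [mem_pre] at hc
    refine ⟨c, hc, ?_, ?_⟩
    · rintro rfl; simp at hcab
    · rintro rfl; simp at hcab

end PMD

namespace Proj

variable {P : Type} (G : Proj P)

section coordfacts

variable {K W : Type} [Field K] [AddCommGroup W] [Module K W] {v : P → W}
  (h1 : ∀ p, v p ≠ 0) (h2 : ∀ w, w ≠ 0 → ∃ p, ∃ c : K, w = c • v p)
  (h3 : ∀ p r s, p ≠ r → (s ∈ G.ln p r ↔ v s ∈ Submodule.span K {v p, v r}))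

include h3 in
theorem coord_inj {p p' : P} (h : v p ∈ Submodule.span K {v p'}) : p = p' := by
  by_contra hne
  obtain ⟨F, hF, hpF, hp'F, _⟩ := G.pl_ex p p' p'
  obtain ⟨t, ht⟩ := G.pl_off F hF
  have htp' : p' ≠ t := by rintro rfl; exact ht hp'F
  have h4 : p ∈ G.ln p' t := by
    rw [h3 p' t p htp']
    exact Submodule.span_mono (by simp) h
  have h5 : t ∈ G.ln p p' := by
    rw [G.ln_eq p' t p p' htp' hne h4 (G.ln_left _ _ htp')]
    exact G.ln_right _ _ htp'
  exact ht (G.pl_sub F hF p p' hne hpF hp'F h5)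

include h1 h2 h3 in
theorem coord_card [Finite K] [Finite W] [Finite P] (U : Submodule K W) :
    Nat.card {p : P // v p ∈ U} * (Nat.card K - 1) = Nat.card U - 1 := by
  classical
  have e : {p : P // v p ∈ U} × Kˣ ≃ {x : U // x ≠ 0} := by
    refine Equiv.ofBijective (fun x => ⟨⟨(x.2 : K) • v x.1, U.smul_mem _ x.1.2⟩, ?_⟩) ⟨?_, ?_⟩
    · intro hh
      have : (x.2 : K) • v x.1 = 0 := congrArg Subtype.val hh
      rcases smul_eq_zero.mp this with h | h
      · exact x.2.ne_zero h
      · exact h1 _ h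
    · rintro ⟨⟨p, hp⟩, c⟩ ⟨⟨p', hp'⟩, c'⟩ hh
      have hh' : (c : K) • v p = (c' : K) • v p' := congrArg (fun z => ((z.1 : U) : W)) hh
      have hpp : p = p' := by
        apply G.coord_inj h3
        rw [Submodule.mem_span_singleton]
        refine ⟨(c : K)⁻¹ * c', ?_⟩
        rw [mul_smul, ← hh', smul_smul, inv_mul_cancel₀ c.ne_zero, one_smul]
      subst hpp
      have hcc : (c : K) = c' := by
        have : ((c : K) - c') • v p = 0 := by rw [sub_smul, hh', sub_self]
        rcases smul_eq_zero.mp this with h | h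
        · exact sub_eq_zero.mp h
        · exact absurd h (h1 _)
      have hcc' : c = c' := Units.ext hcc
      rw [hcc']
    · rintro ⟨⟨x, hxU⟩, hx⟩
      have hx0 : x ≠ 0 := fun e => hx (Subtype.ext e)
      obtain ⟨p, c, hpc⟩ := h2 x hx0
      have hc : c ≠ 0 := by
        rintro rfl
        exact hx0 (by rw [hpc, zero_smul])
      refine ⟨⟨⟨p, ?_⟩, Units.mk0 c hc⟩, ?_⟩
      · have : v p = c⁻¹ • x := by rw [hpc, smul_smul, inv_mul_cancel₀ hc, one_smul]
        rw [this]; exact U.smul_mem _ hxU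
      · apply Subtype.ext
        apply Subtype.ext
        exact hpc.symm
  have hc := Nat.card_congr e
  rw [Nat.card_prod, Nat.card_units] at hc
  rw [hc]
  have : Fintype U := Fintype.ofFinite U
  have h4 := Fintype.card_subtype_compl (fun x : U => x = 0)
  rw [Nat.card_eq_fintype_card, Nat.card_eq_fintype_card]
  rw [Fintype.card_subtype_eq] at h4
  convert h4

end coordfacts

end Proj

theorem linInd_equiv {K W W' ι : Type} [Field K] [AddCommGroup W] [AddCommGroup W'] [Module K W]
    [Module K W'] (E : W ≃ₗ[K] W') (f : ι → W) :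
    LinearIndependent K (fun x => E (f x)) ↔ LinearIndependent K f :=
  LinearMap.linearIndependent_iff (E : W →ₗ[K] W') (LinearEquiv.ker E)

theorem nat_pow_helper {q n j : ℕ} (hq : 2 ≤ q) {N : ℕ} (h : N * (q - 1) = q ^ n - 1)
    (h' : N * (q - 1) = q ^ j - 1) : n = j := by
  have h1 : q ^ n = q ^ j := by
    have p1 : 0 < q ^ n := by positivity
    have p2 : 0 < q ^ j := by positivity
    omega
  exact Nat.pow_right_injective hq h1

namespace PMD

variable {α : Type} {M : Matroid α} (h : PMD M)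

include h

theorem indep_iff {K W : Type} [Field K] [AddCommGroup W] [Module K W] (u : α → W)
    (G : Proj ↥M.E) (hGln : ∀ a b c : ↥M.E, c ∈ G.ln a b ↔ (c : α) ∈ M.closure {(a : α), (b : α)})
    (hGpl : ∀ F : Set ↥M.E, F ∈ G.pl ↔ M.IsFlat (Subtype.val '' F) ∧
      M.eRk (Subtype.val '' F) = 3)
    (h1 : ∀ p : ↥M.E, u p ≠ 0) (h2 : ∀ w, w ≠ 0 → ∃ p : ↥M.E, ∃ c : K, w = c • u p)
    (h3 : ∀ p r s : ↥M.E, p ≠ r → (s ∈ G.ln p r ↔ u s ∈ Submodule.span K {u p, u r}))
    (J : Set α) (hJ : J ⊆ M.E) (hJ4 : J.ncard ≤ 4) : M.Indep J ↔ LinearIndepOn K u J := by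
  classical
  have hinj : ∀ p p' : ↥M.E, u p ∈ Submodule.span K {u p'} → p = p' :=
    fun p p' hh => G.coord_inj (v := fun p : ↥M.E => u p) h3 hh
  -- closure lemma
  have key : ∀ (I : Set α) (e : α), M.Indep I → I.ncard ≤ 3 → e ∈ M.E → e ∉ I →
      (e ∈ M.closure I ↔ u e ∈ Submodule.span K (u '' I)) := by
    intro I e hI hI3 he heI
    have hIfin : I.Finite := h.fin.ground_finite.subset hI.subset_ground
    have hcases : I.ncard = 0 ∨ I.ncard = 1 ∨ I.ncard = 2 ∨ I.ncard = 3 := by omega
    rcases hcases with hc | hc | hc | hc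
    · rw [Set.ncard_eq_zero hIfin] at hc
      subst hc
      rw [h.h0.closure]
      simp only [Set.mem_empty_iff_false, Set.image_empty, Submodule.span_empty,
        Submodule.mem_bot, false_iff]
      exact h1 ⟨e, he⟩
    · rw [Set.ncard_eq_one] at hc
      obtain ⟨a, rfl⟩ := hc
      have ha : a ∈ M.E := hI.subset_ground (by simp)
      rw [(h.h1 a ha).closure, Set.image_singleton]
      constructor
      · intro hh; exact absurd hh heI
      · intro hh
        have := hinj ⟨e, he⟩ ⟨a, ha⟩ hh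
        exact congrArg Subtype.val this
    · rw [Set.ncard_eq_two] at hc
      obtain ⟨a, b, hab, rfl⟩ := hc
      have ha : a ∈ M.E := hI.subset_ground (by simp)
      have hb : b ∈ M.E := hI.subset_ground (by simp)
      have hab' : (⟨a, ha⟩ : ↥M.E) ≠ ⟨b, hb⟩ := fun e => hab (congrArg Subtype.val e)
      rw [Set.image_pair]
      exact (hGln ⟨a, ha⟩ ⟨b, hb⟩ ⟨e, he⟩).symm.trans (h3 ⟨a, ha⟩ ⟨b, hb⟩ ⟨e, he⟩ hab')
    · rw [Set.ncard_eq_three] at hc
      obtain ⟨a, b, c, hab, hac, hbc, rfl⟩ := hc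
      have ha : a ∈ M.E := hI.subset_ground (by simp)
      have hb : b ∈ M.E := hI.subset_ground (by simp)
      have hcE : c ∈ M.E := hI.subset_ground (by simp)
      have hbc' : (⟨b, hb⟩ : ↥M.E) ≠ ⟨c, hcE⟩ := fun e => hbc (congrArg Subtype.val e)
      have hae : a ≠ e := by rintro rfl; exact heI (by simp)
      have hae' : (⟨a, ha⟩ : ↥M.E) ≠ ⟨e, he⟩ := fun e => hae (congrArg Subtype.val e)
      have habc : a ∉ M.closure {b, c} := by
        have h5 : M.Indep {b, c} := hI.subset (by simp)
        rw [h5.notMem_closure_iff ha]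
        refine ⟨hI, ?_⟩
        simp [hab, hac]
      have hsp : u '' {a, b, c} = {u a, u b, u c} := by
        rw [Set.image_insert_eq, Set.image_pair]
      rw [hsp]
      constructor
      · intro heC
        have hF : {x : ↥M.E | (x : α) ∈ M.closure {a, b, c}} ∈ G.pl := by
          rw [hGpl]
          have hFF : Subtype.val '' {x : ↥M.E | (x : α) ∈ M.closure {a, b, c}} =
              M.closure {a, b, c} := by
            ext x
            constructor
            · rintro ⟨y, hy, rfl⟩; exact hy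
            · intro hx; exact ⟨⟨x, M.closure_subset_ground _ hx⟩, hx, rfl⟩
          rw [hFF]
          exact ⟨M.isFlat_closure _, h.rk_closure_triple hb hcE hbc ha habc⟩
        obtain ⟨f, hf1, hf2⟩ := G.pl_meet _ hF ⟨a, ha⟩ ⟨e, he⟩ ⟨b, hb⟩ ⟨c, hcE⟩ hae' hbc'
          (M.mem_closure_of_mem (by simp) hI.subset_ground) heC
          (M.mem_closure_of_mem (by simp) hI.subset_ground)
          (M.mem_closure_of_mem (by simp) hI.subset_ground)
        have hfbc := (h3 _ _ _ hbc').mp hf2
        have haf : (⟨a, ha⟩ : ↥M.E) ≠ f := by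
          rintro rfl
          exact habc ((hGln _ _ _).mp hf2)
        have he2 : (⟨e, he⟩ : ↥M.E) ∈ G.ln ⟨a, ha⟩ f := by
          rw [G.ln_eq _ _ _ _ hae' haf (G.ln_left _ _ hae') hf1]
          exact G.ln_right _ _ hae'
        have he3 := (h3 _ _ _ haf).mp he2
        refine Submodule.span_le.mpr ?_ he3
        intro x hx
        rcases hx with rfl | rfl
        · exact Submodule.subset_span (by simp)
        · exact Submodule.span_mono (by simp) hfbc
      · intro heS
        rw [Submodule.mem_span_insert] at heS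
        obtain ⟨c1, z, hz, hez⟩ := heS
        by_cases hz0 : z = 0
        · rw [hz0, add_zero] at hez
          have : u e ∈ Submodule.span K {u a} := by
            rw [hez]; exact Submodule.smul_mem _ _ (Submodule.mem_span_singleton_self _)
          have := hinj ⟨e, he⟩ ⟨a, ha⟩ this
          exact absurd (congrArg Subtype.val this).symm hae
        · obtain ⟨f, c2, hf⟩ := h2 z hz0
          have hc2 : c2 ≠ 0 := by
            rintro rfl
            exact hz0 (by rw [hf, zero_smul])
          have hfs : u f ∈ Submodule.span K {u b, u c} := by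
            have : u f = c2⁻¹ • z := by rw [hf, smul_smul, inv_mul_cancel₀ hc2, one_smul]
            rw [this]; exact Submodule.smul_mem _ _ hz
          have hfl : (f : α) ∈ M.closure {b, c} :=
            (hGln _ _ _).mp ((h3 ⟨b, hb⟩ ⟨c, hcE⟩ f hbc').mpr hfs)
          have haf : (⟨a, ha⟩ : ↥M.E) ≠ f := by
            rintro rfl
            exact habc hfl
          have hes : u e ∈ Submodule.span K {u a, u f} := by
            rw [hez, hf, Submodule.mem_span_pair]
            exact ⟨c1, c2, rfl⟩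
          have hel : (e : α) ∈ M.closure {(a : α), (f : α)} :=
            (hGln _ _ _).mp ((h3 ⟨a, ha⟩ f ⟨e, he⟩ haf).mpr hes)
          rw [← M.closure_closure {a, b, c}]
          refine M.closure_subset_closure ?_ hel
          intro y hy
          rcases hy with rfl | rfl
          · exact M.mem_closure_of_mem (by simp) hI.subset_ground
          · exact M.closure_subset_closure (by simp) hfl
  have hfin : J.Finite := h.fin.ground_finite.subset hJ
  induction J, hfin using Set.Finite.induction_on with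
  | empty => simp [LinearIndepOn]
  | @insert e I heI hIfin ih =>
    have hIE : I ⊆ M.E := (Set.subset_insert _ _).trans hJ
    have heE : e ∈ M.E := hJ (Set.mem_insert _ _)
    rw [Set.ncard_insert_of_notMem heI hIfin] at hJ4
    have hI3 : I.ncard ≤ 3 := by omega
    have ih' : M.Indep I ↔ LinearIndepOn K u I := ih hIE (by omega)
    rw [linearIndepOn_insert heI, ← ih']
    constructor
    · intro hh
      have hI : M.Indep I := hh.subset (Set.subset_insert _ _)
      refine ⟨hI, ?_⟩
      rw [← key I e hI hI3 heE heI, hI.notMem_closure_iff heE]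
      exact ⟨hh, heI⟩
    · rintro ⟨hI, hh⟩
      rw [← key I e hI hI3 heE heI] at hh
      exact indep_insert hI heE hh

theorem boolean_case [Fintype ↥M.E] [DecidableEq ↥M.E] (g : Geo ↥M.E)
    (hgl : ∀ L, L ∈ g.lines ↔ M.IsFlat (im L) ∧ M.eRk (im L) = 2)
    (hgp : ∀ F, F ∈ g.planes ↔ M.IsFlat (im F) ∧ M.eRk (im F) = 3) (hl : g.l = 2) :
    (M.E.ncard = 4 ∨ M.E.ncard = 5) ∧ ∀ I ⊆ M.E, I.ncard ≤ 4 → M.Indep I := by
  obtain ⟨hk, hlam⟩ := g.params
  have hkk := g.k_eq
  have hw := g.w_eq
  have hv := g.v_eq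
  have hcardE : M.E.ncard = Fintype.card ↥M.E := by
    rw [← Nat.card_eq_fintype_card]; rfl
  rw [hk, hl] at hkk
  rw [hk, hl] at hw
  rw [hl] at hv hlam
  have hk3 : g.k = 3 := by omega
  constructor
  · rw [hcardE]; omega
  intro I hI hI4
  have hfin : I.Finite := h.fin.ground_finite.subset hI
  induction I, hfin using Set.Finite.induction_on with
  | empty => exact M.empty_indep
  | @insert e I heI hIfin ih =>
    have hIE : I ⊆ M.E := (Set.subset_insert _ _).trans hI
    have heE : e ∈ M.E := hI (Set.mem_insert _ _)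
    rw [Set.ncard_insert_of_notMem heI hIfin] at hI4
    have hInd := ih hIE (by omega)
    apply indep_insert hInd heE
    suffices hcl : M.closure I = I by rw [hcl]; exact heI
    have hclfin : (M.closure I).Finite := h.fin.ground_finite.subset (M.closure_subset_ground _)
    have hrk : M.eRk (M.closure I) = I.encard := by
      rw [M.eRk_closure_eq, hInd.eRk_eq_encard]
    have hcases : I.ncard = 0 ∨ I.ncard = 1 ∨ I.ncard = 2 ∨ I.ncard = 3 := by omega
    have hpre := im_pre (M := M) (M.closure_subset_ground I)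
    rcases hcases with hc | hc | hc | hc
    · rw [Set.ncard_eq_zero hIfin] at hc
      subst hc
      exact h.h0.closure
    · rw [Set.ncard_eq_one] at hc
      obtain ⟨a, rfl⟩ := hc
      exact (h.h1 a (hIE (by simp))).closure
    · symm
      apply Set.eq_of_subset_of_ncard_le (M.subset_closure I hIE) _ hclfin
      rw [hc]
      have henc : I.encard = 2 := by rw [← hIfin.cast_ncard_eq, hc]; rfl
      have hm : pre (M := M) (M.closure I) ∈ g.lines := by
        rw [hgl, hpre]
        exact ⟨M.isFlat_closure I, by rw [hrk, henc]⟩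
      have := g.line_card _ hm
      rw [← im_card, hpre, hl] at this
      omega
    · symm
      apply Set.eq_of_subset_of_ncard_le (M.subset_closure I hIE) _ hclfin
      rw [hc]
      have henc : I.encard = 3 := by rw [← hIfin.cast_ncard_eq, hc]; rfl
      have hm : pre (M := M) (M.closure I) ∈ g.planes := by
        rw [hgp, hpre]
        exact ⟨M.isFlat_closure I, by rw [hrk, henc]⟩
      have := g.plane_card _ hm
      rw [← im_card, hpre, hk3] at this
      omega

theorem projective_case [Fintype ↥M.E] [DecidableEq ↥M.E] (g : Geo ↥M.E)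
    (hgl : ∀ L, L ∈ g.lines ↔ M.IsFlat (im L) ∧ M.eRk (im L) = 2)
    (hgp : ∀ F, F ∈ g.planes ↔ M.IsFlat (im F) ∧ M.eRk (im F) = 3) (hl : 3 ≤ g.l) :
    ∃ (K : Type) (_ : Field K) (n : ℕ) (v : α → Fin n → K),
        (n = 4 ∨ n = 5) ∧ (∀ e ∈ M.E, v e ≠ 0) ∧
        (∀ w : Fin n → K, w ≠ 0 → ∃ e ∈ M.E, ∃ c : K, w = c • v e) ∧
        ∀ I ⊆ M.E, (M.Indep I ↔ (I.ncard ≤ 4 ∧ LinearIndependent K (fun x : I => v x))) := by
  classical
  obtain ⟨G, hGln, hGpl⟩ := h.exists_proj g hgl hgp hl
  obtain ⟨a0, ha0, b0, hb0, hab0⟩ := h.exists_pair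
  have hne : Nonempty ↥M.E := ⟨⟨a0, ha0⟩⟩
  obtain ⟨K, iK, fK, W, iW, mW, fW, v, h1, h2, h3⟩ := G.coord
  have hinj : ∀ p p' : ↥M.E, v p ∈ Submodule.span K {v p'} → p = p' :=
    fun p p' hh => G.coord_inj h3 hh
  -- cardinalities
  have hq2 : 2 ≤ Nat.card K := Finite.one_lt_card
  have cardP := G.coord_card h1 h2 h3 (⊤ : Submodule K W)
  have hfree : Module.Free K W := inferInstance
  have hfin : Module.Finite K W := Module.Finite.of_finite
  have e1 : Nat.card {p : ↥M.E // v p ∈ (⊤ : Submodule K W)} = Fintype.card ↥M.E := by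
    rw [← Nat.card_eq_fintype_card]
    exact Nat.card_congr (Equiv.subtypeUnivEquiv (fun p => Submodule.mem_top))
  have e2 : Nat.card (⊤ : Submodule K W) = Nat.card K ^ Module.finrank K W := by
    rw [Module.natCard_eq_pow_finrank (K := K), finrank_top]
  rw [e1, e2] at cardP
  have hab0' : (⟨a0, ha0⟩ : ↥M.E) ≠ ⟨b0, hb0⟩ := fun e => hab0 (congrArg Subtype.val e)
  have cardL := G.coord_card h1 h2 h3 (Submodule.span K {v ⟨a0, ha0⟩, v ⟨b0, hb0⟩})
  have e3 : Nat.card {p : ↥M.E // v p ∈ Submodule.span K {v ⟨a0, ha0⟩, v ⟨b0, hb0⟩}} = g.l := by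
    have hline : pre (M := M) (M.closure {a0, b0}) ∈ g.lines := by
      rw [hgl, im_pre (M.closure_subset_ground _)]
      exact ⟨M.isFlat_closure _, h.rk_closure_pair ha0 hb0 hab0⟩
    rw [← g.line_card _ hline, ← Fintype.card_coe, ← Nat.card_eq_fintype_card]
    apply Nat.card_congr
    apply Equiv.subtypeEquivRight
    intro p
    rw [mem_pre, ← h3 _ _ _ hab0', hGln]
  have e4 : Nat.card (Submodule.span K {v ⟨a0, ha0⟩, v ⟨b0, hb0⟩}) = Nat.card K ^ 2 := by
    rw [Module.natCard_eq_pow_finrank (K := K)]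
    congr 1
    have hli : LinearIndependent K ![v ⟨a0, ha0⟩, v ⟨b0, hb0⟩] := by
      rw [LinearIndependent.pair_iff' (h1 _)]
      intro c hc
      apply hab0'
      symm
      apply hinj
      rw [← hc]
      exact Submodule.smul_mem _ _ (Submodule.mem_span_singleton_self _)
    have := finrank_span_eq_card hli
    rw [Matrix.range_cons, Matrix.range_cons, Matrix.range_empty, Set.union_empty] at this
    rw [← Set.singleton_union]
    simpa using this
  rw [e3, e4] at cardL
  obtain ⟨hk, hlam⟩ := g.params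
  have hkk := g.k_eq
  have hw := g.w_eq
  have hv := g.v_eq
  obtain ⟨q, hq⟩ : ∃ q, q = Nat.card K := ⟨_, rfl⟩
  rw [← hq] at cardP cardL hq2
  have hlq : g.l = q + 1 := by
    have e5 : (q + 1) * (q - 1) = q ^ 2 - 1 := by
      obtain ⟨r, rfl⟩ : ∃ r, q = r + 1 := ⟨q - 1, by omega⟩
      have : (r + 1) ^ 2 = (r + 1 + 1) * r + 1 := by ring
      rw [this]; simp
    rw [← e5] at cardL
    exact Nat.eq_of_mul_eq_mul_right (by omega) cardL
  have hn : Module.finrank K W = 4 ∨ Module.finrank K W = 5 := by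
    obtain ⟨r, hr⟩ : ∃ r, q = r + 1 := ⟨q - 1, by omega⟩
    rcases hlam with hlam | hlam
    · left
      apply nat_pow_helper hq2 cardP
      rw [hv, hw, hk, hlam, hlq, hr]
      simp only [Nat.add_sub_cancel]
      have : (r + 1) ^ 4 = (1 + (1 + (r + 1 + 1) * (r + 1)) * (r + 1)) * r + 1 := by ring
      rw [this]; simp
    · right
      apply nat_pow_helper hq2 cardP
      rw [hv, hw, hk, hlam, hlq, hr]
      simp only [Nat.add_sub_cancel]
      have : (r + 1) ^ 5 =
          (1 + (1 + ((r + 1) ^ 2 + (r + 1 + 1)) * (r + 1)) * (r + 1)) * r + 1 := by ring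
      rw [this]; simp
  -- coordinates
  obtain ⟨E, hE⟩ : ∃ E : W ≃ₗ[K] (Fin (Module.finrank K W) → K),
    E = (Module.finBasis K W).equivFun := ⟨_, rfl⟩
  obtain ⟨u, hu⟩ : ∃ u : α → W, u = fun x => if hx : x ∈ M.E then v ⟨x, hx⟩ else 0 := ⟨_, rfl⟩
  have hup : ∀ p : ↥M.E, u p = v p := by
    intro p; rw [hu]; simp
  refine ⟨K, iK, Module.finrank K W, fun x => E (u x), hn, ?_, ?_, ?_⟩
  · intro e he hcon
    have : u e = 0 := (LinearEquiv.map_eq_zero_iff E).mp hcon
    exact h1 ⟨e, he⟩ (by rw [← hup]; exact this)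
  · intro w hw0
    have hw0' : E.symm w ≠ 0 := by
      intro hcon
      exact hw0 ((LinearEquiv.map_eq_zero_iff E.symm).mp hcon)
    obtain ⟨p, c, hpc⟩ := h2 _ hw0'
    refine ⟨p, p.2, c, ?_⟩
    change w = c • E (u p)
    rw [hup, ← map_smul, ← hpc, LinearEquiv.apply_symm_apply]
  · intro I hI
    have hIfin : I.Finite := h.fin.ground_finite.subset hI
    have hIndE : LinearIndependent K (fun x : I => E (u x)) ↔ LinearIndepOn K u I :=
      linInd_equiv E (fun x : I => u x)
    rw [hIndE]
    have hcore : I.ncard ≤ 4 → (M.Indep I ↔ LinearIndepOn K u I) := by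
      intro hI4
      apply h.indep_iff u G hGln hGpl _ _ _ I hI hI4
      · intro p; rw [hup]; exact h1 p
      · intro w hw; obtain ⟨p, c, hpc⟩ := h2 w hw; exact ⟨p, c, by rw [hup]; exact hpc⟩
      · intro p r s hpr; rw [hup, hup, hup]; exact h3 p r s hpr
    constructor
    · intro hInd
      have hI4 : I.ncard ≤ 4 := by
        have h5 := hInd.encard_le_eRank
        rw [← M.eRk_ground, h.hr, ← hIfin.cast_ncard_eq] at h5
        exact_mod_cast h5
      exact ⟨hI4, (hcore hI4).mp hInd⟩
    · rintro ⟨hI4, hLin⟩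
      exact (hcore hI4).mpr hLin

end PMD

/-- The classification. -/
theorem classification {α : Type} {M : Matroid α} (h : PMD M) :
    (((M.E.ncard = 4 ∨ M.E.ncard = 5) ∧ ∀ I ⊆ M.E, I.ncard ≤ 4 → M.Indep I) ∨
      (∃ (K : Type) (_ : Field K) (n : ℕ) (v : α → Fin n → K),
        (n = 4 ∨ n = 5) ∧ (∀ e ∈ M.E, v e ≠ 0) ∧
        (∀ w : Fin n → K, w ≠ 0 → ∃ e ∈ M.E, ∃ c : K, w = c • v e) ∧
        ∀ I ⊆ M.E, (M.Indep I ↔ (I.ncard ≤ 4 ∧ LinearIndependent K (fun x : I => v x))))) := by
  classical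
  have hfin : Finite ↥M.E := h.fin.ground_finite
  have hft : Fintype ↥M.E := Fintype.ofFinite _
  obtain ⟨g, hgl, hgp⟩ := h.exists_geo
  rcases eq_or_lt_of_le g.l_two with hl | hl
  · left
    exact h.boolean_case g hgl hgp hl.symm
  · right
    exact h.projective_case g hgl hgp hl

end Pool.Agent.MP84111f
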