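import Mathlib
import Pool.Agent.Lib.MP_84111f_co.Final

/-!
# Rank-4 perfect matroid designs: from independent sets to flats and back
-/

open Set

namespace Pool.Agent.MP84111f.Flats

universe u

variable {α : Type u} {M : Matroid α}

/-! ## Boolean case -/

section bool

theorem bool_isFlat_iff (hfin : M.E.Finite) (hr : M.eRk M.E = 4)
    (hI : ∀ I ⊆ M.E, I.ncard ≤ 4 → M.Indep I) {F : Set α} (hF : F ⊆ M.E) :
    M.IsFlat F ↔ F = M.E ∨ F.ncard ≤ 3 := by
  have hFf : F.Finite := hfin.subset hF
  constructor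
  · intro h
    by_contra hcon
    push Not at hcon
    obtain ⟨hne, hc⟩ := hcon
    obtain ⟨J, hJF, hJ4⟩ := Set.exists_subset_card_eq (s := F) (n := 4) (by omega)
    have hJi : M.Indep J := hI J (hJF.trans hF) (by omega)
    have hJf : J.Finite := hFf.subset hJF
    have h4 : J.encard = 4 := by
      rw [← hJf.cast_ncard_eq, hJ4]; rfl
    have hcl : M.closure J = M.closure M.E := by
      refine (M.isRkFinite_of_finite hJf).closure_eq_closure_of_subset_of_eRk_ge_eRk
        (hJF.trans hF) ?_
      rw [hJi.eRk_eq_encard, h4, hr]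
    have h5 : M.E ⊆ F := by
      rw [M.closure_ground] at hcl
      rw [← hcl, ← h.closure]
      exact M.closure_subset_closure hJF
    exact hne (hF.antisymm h5)
  · rintro (rfl | h3)
    · exact M.ground_isFlat
    · rw [Matroid.isFlat_iff_closure_eq]
      refine subset_antisymm ?_ (M.subset_closure F hF)
      intro x hx
      by_contra hxF
      have hxE : x ∈ M.E := M.closure_subset_ground _ hx
      have hFi : M.Indep F := hI F hF (by omega)
      refine ((hFi.notMem_closure_iff_of_notMem hxF hxE).mpr (hI _ ?_ ?_)) hx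
      · exact Set.insert_subset hxE hF
      · rw [Set.ncard_insert_of_notMem hxF hFf]; omega

theorem bool_indep (hfin : M.E.Finite) (hfl : ∀ F ⊆ M.E, M.IsFlat F ↔ F = M.E ∨ F.ncard ≤ 3)
    (I : Set α) (hI : I ⊆ M.E) (h4 : I.ncard ≤ 4) : M.Indep I := by
  rw [Matroid.indep_iff_forall_notMem_closure_sdiff hI]
  intro e he hcl
  have hIf : I.Finite := hfin.subset hI
  have h3 : (I \ {e}).ncard ≤ 3 := by
    have := Set.ncard_sdiff_singleton_add_one he hIf
    omega
  rw [((hfl _ (Set.sdiff_subset.trans hI)).mpr (Or.inr h3)).closure] at hcl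
  exact hcl.2 rfl

theorem bool_rank (hfin : M.E.Finite) (hfl : ∀ F ⊆ M.E, M.IsFlat F ↔ F = M.E ∨ F.ncard ≤ 3)
    (h4 : 4 ≤ M.E.ncard) : M.eRk M.E = 4 := by
  obtain ⟨J, hJE, hJ4⟩ := Set.exists_subset_card_eq (s := M.E) (n := 4) h4
  have hJi : M.Indep J := bool_indep hfin hfl J hJE (by omega)
  have hJf : J.Finite := hfin.subset hJE
  have h4' : J.encard = 4 := by
    rw [← hJf.cast_ncard_eq, hJ4]; rfl
  have hcl : M.closure J = M.E := by
    rcases (hfl _ (M.closure_subset_ground J)).mp (M.isFlat_closure J) with h | h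
    · exact h
    · exfalso
      have := Set.ncard_le_ncard (M.subset_closure J hJE) (hfin.subset (M.closure_subset_ground J))
      omega
  rw [← hcl, M.eRk_closure_eq, hJi.eRk_eq_encard, h4']

theorem bool_eRk (hfin : M.E.Finite) (hfl : ∀ F ⊆ M.E, M.IsFlat F ↔ F = M.E ∨ F.ncard ≤ 3)
    {F : Set α} (hF : F ⊆ M.E) (h3 : F.ncard ≤ 3) : M.eRk F = F.ncard := by
  rw [(bool_indep hfin hfl F hF (by omega)).eRk_eq_encard, (hfin.subset hF).cast_ncard_eq]

end bool

/-! ## Projective case -/

section proj

variable {K : Type} [Field K] {V : Type} [AddCommGroup V] [Module K V] (v : α → V)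

theorem proj_mem_closure (hfin : M.E.Finite)
    (hI : ∀ I ⊆ M.E, (M.Indep I ↔ (I.ncard ≤ 4 ∧ LinearIndepOn K v I)))
    {I : Set α} (hIi : M.Indep I) (h3 : I.ncard ≤ 3) {x : α} (hx : x ∈ M.E) :
    x ∈ M.closure I ↔ v x ∈ Submodule.span K (v '' I) := by
  have hIf : I.Finite := hfin.subset hIi.subset_ground
  by_cases hxI : x ∈ I
  · exact ⟨fun _ => Submodule.subset_span ⟨x, hxI, rfl⟩,
      fun _ => M.mem_closure_of_mem hxI hIi.subset_ground⟩
  · have h1 := hI _ (Set.insert_subset hx hIi.subset_ground)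
    rw [Set.ncard_insert_of_notMem hxI hIf, linearIndepOn_insert hxI] at h1
    have h2 := (hI I hIi.subset_ground).mp hIi
    have h4 := hIi.notMem_closure_iff_of_notMem hxI hx
    constructor
    · intro h
      by_contra hcon
      exact (h4.mpr (h1.mpr ⟨by omega, h2.2, hcon⟩)) h
    · intro h
      by_contra hcon
      exact (h1.mp (h4.mp hcon)).2.2 h

theorem proj_isFlat_iff [FiniteDimensional K V] (hfin : M.E.Finite) (hr : M.eRk M.E = 4)
    (hI : ∀ I ⊆ M.E, (M.Indep I ↔ (I.ncard ≤ 4 ∧ LinearIndepOn K v I))) {F : Set α}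
    (hF : F ⊆ M.E) :
    M.IsFlat F ↔ F = M.E ∨ ∃ W : Submodule K V, Module.finrank K W ≤ 3 ∧
      F = {x ∈ M.E | v x ∈ W} := by
  constructor
  · intro h
    obtain ⟨I, hIF⟩ := M.exists_isBasis F
    have hIi := hIF.indep
    have hIf : I.Finite := hfin.subset hIi.subset_ground
    have h2 := (hI I hIi.subset_ground).mp hIi
    by_cases h4 : I.ncard = 4
    · left
      have h4' : I.encard = 4 := by
        rw [← hIf.cast_ncard_eq, h4]; rfl
      have hcl : M.closure I = M.closure M.E := by
        refine (M.isRkFinite_of_finite hIf).closure_eq_closure_of_subset_of_eRk_ge_eRk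
          hIi.subset_ground ?_
        rw [hIi.eRk_eq_encard, h4', hr]
      rw [M.closure_ground] at hcl
      refine hF.antisymm ?_
      rw [← hcl, ← h.closure]
      exact M.closure_subset_closure hIF.subset
    · right
      have h3 : I.ncard ≤ 3 := by have := h2.1; omega
      refine ⟨Submodule.span K (v '' I), ?_, ?_⟩
      · have := (hIf.image v).fintype
        refine (finrank_span_le_card (R := K) (v '' I)).trans ?_
        refine le_trans ?_ h3
        rw [Set.toFinset_card, ← Nat.card_eq_fintype_card]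
        exact Set.ncard_image_le hIf
      · ext x
        constructor
        · intro hx
          refine ⟨hF hx, ?_⟩
          rw [← proj_mem_closure v hfin hI hIi h3 (hF hx), hIF.closure_eq_closure, h.closure]
          exact hx
        · rintro ⟨hxE, hx⟩
          rw [← proj_mem_closure v hfin hI hIi h3 hxE, hIF.closure_eq_closure, h.closure] at hx
          exact hx
  · rintro (rfl | ⟨W, hW, hFW⟩)
    · exact M.ground_isFlat
    · rw [Matroid.isFlat_iff_closure_eq]
      refine subset_antisymm ?_ (M.subset_closure F hF)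
      intro x hx
      have hxE : x ∈ M.E := M.closure_subset_ground _ hx
      obtain ⟨I, hIF⟩ := M.exists_isBasis F
      have hIi := hIF.indep
      have hIf : I.Finite := hfin.subset hIi.subset_ground
      have h2 := (hI I hIi.subset_ground).mp hIi
      have hIW : Submodule.span K (v '' I) ≤ W := by
        rw [Submodule.span_le]
        rintro _ ⟨y, hy, rfl⟩
        have := hIF.subset hy
        rw [hFW] at this
        exact this.2
      have h3 : I.ncard ≤ 3 := by
        have := hIf.fintype
        have h5 : (Set.range fun y : I => v y) = v '' I := by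
          ext w; simp
        have h6 := finrank_span_eq_card (R := K) h2.2
        rw [h5, ← Nat.card_eq_fintype_card] at h6
        change Module.finrank K (Submodule.span K (v '' I)) = I.ncard at h6
        rw [← h6]
        exact (Submodule.finrank_mono hIW).trans hW
      rw [← hIF.closure_eq_closure, proj_mem_closure v hfin hI hIi h3 hxE] at hx
      rw [hFW]
      exact ⟨hxE, hIW hx⟩

end proj

section conv

variable {K : Type} [Field K] {V : Type} [AddCommGroup V] [Module K V] (v : α → V)

theorem fr_eq [FiniteDimensional K V] {I : Set α} (hIf : I.Finite) (h : LinearIndepOn K v I) :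
    Module.finrank K (Submodule.span K (v '' I)) = I.ncard := by
  have := hIf.fintype
  have h5 : (Set.range fun y : I => v y) = v '' I := by
    ext w; simp
  have h6 := finrank_span_eq_card (R := K) h
  rw [h5, ← Nat.card_eq_fintype_card] at h6
  exact h6

theorem conv_indep [FiniteDimensional K V] (hfin : M.E.Finite)
    (hfl : ∀ F ⊆ M.E, M.IsFlat F ↔ F = M.E ∨ ∃ W : Submodule K V, Module.finrank K W ≤ 3 ∧
      F = {x ∈ M.E | v x ∈ W}) (I : Set α) (hI : I ⊆ M.E) :
    M.Indep I ↔ (I.ncard ≤ 4 ∧ LinearIndepOn K v I) := by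
  have hfin' : ∀ J : Set α, J ⊆ M.E → J.Finite := fun J hJ => hfin.subset hJ
  have hcl : ∀ (J : Set α) (e : α), J ⊆ M.E → e ∈ M.E → v e ∈ Submodule.span K (v '' J) →
      e ∈ M.closure J := by
    intro J e hJ he hv
    rcases (hfl _ (M.closure_subset_ground J)).mp (M.isFlat_closure J) with h | ⟨W, _, hW⟩
    · rw [h]; exact he
    · rw [hW]
      refine ⟨he, Submodule.span_le.mpr ?_ hv⟩
      rintro _ ⟨y, hy, rfl⟩
      have := M.subset_closure J hJ hy
      rw [hW] at this
      exact this.2
  constructor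
  · intro hi
    have hlin : LinearIndepOn K v I := by
      rw [linearIndepOn_iff_notMem_span]
      intro e he hcon
      exact ((Matroid.indep_iff_forall_notMem_closure_sdiff hI).mp hi) he
        (hcl _ e (Set.sdiff_subset.trans hI) (hI he) hcon)
    refine ⟨?_, hlin⟩
    by_contra h5
    push Not at h5
    obtain ⟨J, hJI, hJ5⟩ := Set.exists_subset_card_eq (s := I) (n := 5) (by omega)
    have hJi : M.Indep J := hi.subset hJI
    have hJE := hJi.subset_ground
    have hJne : J.Nonempty := by
      rw [← Set.ncard_pos (hfin' J hJE)]; omega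
    obtain ⟨e, he⟩ := hJne
    have h1 := ((Matroid.indep_iff_forall_notMem_closure_sdiff hJE).mp hJi) he
    have hsub : J \ {e} ⊆ M.E := Set.sdiff_subset.trans hJE
    have h4 : (J \ {e}).ncard = 4 := by
      have := Set.ncard_sdiff_singleton_add_one he (hfin' J hJE)
      omega
    rcases (hfl _ (M.closure_subset_ground (J \ {e}))).mp (M.isFlat_closure _) with h | ⟨W, hW3, hW⟩
    · rw [h] at h1
      exact h1 (hJE he)
    · have h6 := fr_eq v (hfin' _ hsub) (hlin.mono (Set.sdiff_subset.trans hJI))
      have h7 : Submodule.span K (v '' (J \ {e})) ≤ W := by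
        rw [Submodule.span_le]
        rintro _ ⟨y, hy, rfl⟩
        have := M.subset_closure _ hsub hy
        rw [hW] at this
        exact this.2
      have := Submodule.finrank_mono h7
      omega
  · rintro ⟨h4, hlin⟩
    rw [Matroid.indep_iff_forall_notMem_closure_sdiff hI]
    intro e he hcon
    have hsub : I \ {e} ⊆ M.E := Set.sdiff_subset.trans hI
    have h3 : (I \ {e}).ncard ≤ 3 := by
      have := Set.ncard_sdiff_singleton_add_one he (hfin' I hI)
      omega
    have hW3 : Module.finrank K (Submodule.span K (v '' (I \ {e}))) ≤ 3 := by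
      rw [fr_eq v (hfin' _ hsub) (hlin.mono Set.sdiff_subset)]
      exact h3
    have hF : M.IsFlat {x ∈ M.E | v x ∈ Submodule.span K (v '' (I \ {e}))} :=
      (hfl _ (fun x hx => hx.1)).mpr (Or.inr ⟨_, hW3, rfl⟩)
    have hsub2 : I \ {e} ⊆ {x ∈ M.E | v x ∈ Submodule.span K (v '' (I \ {e}))} :=
      fun x hx => ⟨hsub hx, Submodule.subset_span ⟨x, hx, rfl⟩⟩
    have h5 := M.closure_subset_closure hsub2 hcon
    rw [hF.closure] at h5
    exact (linearIndepOn_iff_notMem_span.mp hlin) e he h5.2

theorem conv_rank [FiniteDimensional K V] (hfin : M.E.Finite) (h4 : 4 ≤ Module.finrank K V)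
    (hs : ∀ w : V, w ≠ 0 → ∃ x ∈ M.E, ∃ c : K, w = c • v x)
    (hI : ∀ I ⊆ M.E, (M.Indep I ↔ (I.ncard ≤ 4 ∧ LinearIndepOn K v I))) : M.eRk M.E = 4 := by
  apply le_antisymm
  · obtain ⟨B, hB⟩ := M.exists_isBasis M.E
    rw [hB.eRk_eq_encard, ← (hfin.subset hB.subset).cast_ncard_eq]
    exact_mod_cast ((hI B hB.subset).mp hB.indep).1
  · obtain ⟨b, hb⟩ := exists_linearIndependent_of_le_finrank h4
    have hch : ∀ i, ∃ x, x ∈ M.E ∧ ∃ c : K, b i = c • v x := by
      intro i
      obtain ⟨x, hx, c, hc⟩ := hs (b i) (hb.ne_zero i)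
      exact ⟨x, hx, c, hc⟩
    choose x hx c hc using hch
    have hc0 : ∀ i, c i ≠ 0 := by
      intro i h0
      apply hb.ne_zero i
      rw [hc i, h0, zero_smul]
    have hli : LinearIndependent K (fun i => v (x i)) := by
      have h6 := hb.units_smul (fun i => (Units.mk0 (c i) (hc0 i))⁻¹)
      convert h6 using 1
      ext i
      rw [Pi.smul_apply', hc i, Units.smul_def, Units.val_inv_eq_inv_val, Units.val_mk0, smul_smul,
        inv_mul_cancel₀ (hc0 i), one_smul]
    have hxi : Function.Injective x := fun i j hij => hli.injective (by simp only [hij])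
    have hlo : LinearIndepOn K v (Set.range x) := by
      exact (linearIndepOn_range_iff hxi v).mpr hli
    have hn : (Set.range x).ncard = 4 := by
      rw [← Set.image_univ, Set.ncard_image_of_injective _ hxi, Set.ncard_univ, Nat.card_eq_fintype_card,
        Fintype.card_fin]
    have hsub : Set.range x ⊆ M.E := by rintro _ ⟨i, rfl⟩; exact hx i
    have hin : M.Indep (Set.range x) := (hI _ hsub).mpr ⟨hn.le, hlo⟩
    have h7 := hin.encard_le_eRk_of_subset hsub
    rw [← (hfin.subset hsub).cast_ncard_eq, hn] at h7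
    exact h7

theorem conv_eRk [FiniteDimensional K V] (hfin : M.E.Finite)
    (hs : ∀ w : V, w ≠ 0 → ∃ x ∈ M.E, ∃ c : K, w = c • v x)
    (hI : ∀ I ⊆ M.E, (M.Indep I ↔ (I.ncard ≤ 4 ∧ LinearIndepOn K v I))) (W : Submodule K V)
    (hW : Module.finrank K W ≤ 3) :
    M.eRk {x ∈ M.E | v x ∈ W} = (Module.finrank K W : ℕ) := by
  set F : Set α := {x ∈ M.E | v x ∈ W} with hF
  have hFE : F ⊆ M.E := fun x hx => hx.1
  obtain ⟨I, hIF⟩ := M.exists_isBasis F
  have hIi := hIF.indep
  have hIf : I.Finite := hfin.subset hIi.subset_ground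
  have h2 := (hI I hIi.subset_ground).mp hIi
  have hIW : Submodule.span K (v '' I) ≤ W := by
    rw [Submodule.span_le]
    rintro _ ⟨y, hy, rfl⟩
    exact (hIF.subset hy).2
  have h3 : I.ncard ≤ 3 := by
    rw [← fr_eq v hIf h2.2]
    exact (Submodule.finrank_mono hIW).trans hW
  have hWI : W ≤ Submodule.span K (v '' I) := by
    intro w hw
    by_cases hw0 : w = 0
    · rw [hw0]; exact Submodule.zero_mem _
    obtain ⟨x, hx, c, hc⟩ := hs w hw0
    have hc0 : c ≠ 0 := by
      rintro rfl
      exact hw0 (by rw [hc, zero_smul])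
    have hxW : v x ∈ W := by
      have : v x = c⁻¹ • w := by rw [hc, smul_smul, inv_mul_cancel₀ hc0, one_smul]
      rw [this]; exact W.smul_mem _ hw
    have hxF : x ∈ F := ⟨hx, hxW⟩
    have hxcl : x ∈ M.closure I := by
      rw [hIF.closure_eq_closure]
      exact M.subset_closure F hFE hxF
    rw [proj_mem_closure v hfin hI hIi h3 hx] at hxcl
    rw [hc]
    exact Submodule.smul_mem _ _ hxcl
  have h5 : Module.finrank K W = I.ncard := by
    rw [← fr_eq v hIf h2.2, le_antisymm hIW hWI]
  rw [hIF.eRk_eq_encard, h5, hIf.cast_ncard_eq]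

theorem conv_card [Finite K] [FiniteDimensional K V] (h0 : ∀ x ∈ M.E, v x ≠ 0)
    (hs : ∀ w : V, w ≠ 0 → ∃ x ∈ M.E, ∃ c : K, w = c • v x)
    (hinj : ∀ x ∈ M.E, ∀ y ∈ M.E, v x ∈ Submodule.span K {v y} → x = y) (W : Submodule K V) :
    {x ∈ M.E | v x ∈ W}.ncard * (Nat.card K - 1) = Nat.card K ^ Module.finrank K W - 1 := by
  classical
  have hVf : Finite V := Module.finite_of_finite K
  have e : ({x ∈ M.E | v x ∈ W} : Set α) × Kˣ ≃ {x : W // x ≠ 0} := by
    refine Equiv.ofBijective (fun x => ⟨⟨(x.2 : K) • v x.1, W.smul_mem _ x.1.2.2⟩, ?_⟩) ⟨?_, ?_⟩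
    · intro hh
      have : (x.2 : K) • v x.1 = 0 := congrArg Subtype.val hh
      rcases smul_eq_zero.mp this with h | h
      · exact x.2.ne_zero h
      · exact h0 _ x.1.2.1 h
    · rintro ⟨⟨p, hp⟩, c⟩ ⟨⟨p', hp'⟩, c'⟩ hh
      have hh' : (c : K) • v p = (c' : K) • v p' := congrArg (fun z => ((z.1 : W) : V)) hh
      have hpp : p = p' := by
        apply hinj p hp.1 p' hp'.1
        rw [Submodule.mem_span_singleton]
        refine ⟨(c : K)⁻¹ * c', ?_⟩
        rw [mul_smul, ← hh', smul_smul, inv_mul_cancel₀ c.ne_zero, one_smul]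
      subst hpp
      have hcc : (c : K) = c' := by
        have : ((c : K) - c') • v p = 0 := by rw [sub_smul, hh', sub_self]
        rcases smul_eq_zero.mp this with h | h
        · exact sub_eq_zero.mp h
        · exact absurd h (h0 _ hp.1)
      have hcc' : c = c' := Units.ext hcc
      rw [hcc']
    · rintro ⟨⟨x, hxU⟩, hx⟩
      have hx0 : x ≠ 0 := fun e => hx (Subtype.ext e)
      obtain ⟨p, hp, c, hpc⟩ := hs x hx0
      have hc : c ≠ 0 := by
        rintro rfl
        exact hx0 (by rw [hpc, zero_smul])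
      refine ⟨⟨⟨p, hp, ?_⟩, Units.mk0 c hc⟩, ?_⟩
      · have : v p = c⁻¹ • x := by rw [hpc, smul_smul, inv_mul_cancel₀ hc, one_smul]
        rw [this]; exact W.smul_mem _ hxU
      · apply Subtype.ext
        apply Subtype.ext
        exact hpc.symm
  have hc := Nat.card_congr e
  rw [Nat.card_prod, Nat.card_units] at hc
  have h1 : Nat.card ({x ∈ M.E | v x ∈ W} : Set α) = {x ∈ M.E | v x ∈ W}.ncard := rfl
  rw [h1] at hc
  rw [hc]
  have : Fintype W := Fintype.ofFinite W
  have : Fintype K := Fintype.ofFinite K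
  have h4 := Fintype.card_subtype_compl (fun x : W => x = 0)
  rw [Fintype.card_subtype_eq, Module.card_eq_pow_finrank (K := K) (V := W)] at h4
  rw [Nat.card_eq_fintype_card, Nat.card_eq_fintype_card]
  convert h4

end conv

end Pool.Agent.MP84111f.Flats
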